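import Pool.Agent.H175R2.Defs

set_option autoImplicit false

/-!
# Clique-width of `H`-free interval graphs: definitions (MP_84a460_co)

`Pool.Agent.H175R2.CwLE G k` (from `H175R2/Defs.lean`): `G` has clique-width at most `k`.
-/

namespace Pool.Agent.H73R2.Iv

open SimpleGraph Pool.Agent.H175R2

/-- Interval graphs: intersection graphs of families of (nonempty) intervals of the real line. -/
def IsIntervalGraph {V : Type} (G : SimpleGraph V) : Prop :=
  ∃ I : V → Set ℝ, (∀ v, (I v).OrdConnected ∧ (I v).Nonempty) ∧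
    ∀ u v, u ≠ v → (G.Adj u v ↔ (I u ∩ I v).Nonempty)

/-- The graph `F(1, r, r, 0, 1)`: the clique `O ∪ Q ∪ {p}` with `|O| = |Q| = r`, where
`O = {inl i}`, `Q = {inr (inl i)}`, `p = inr (inr 0)`; a vertex `a = inr (inr 1)` adjacent to
`O ∪ {p}`; a vertex `b = inr (inr 2)` adjacent to `O ∪ Q`; and an isolated vertex
`z = inr (inr 3)`. -/
def F1 (r : ℕ) : SimpleGraph (Fin r ⊕ Fin r ⊕ Fin 4) :=
  SimpleGraph.fromRel fun x y =>
    match x, y with
    | .inl _, .inl _ => True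
    | .inl _, .inr (.inl _) => True
    | .inr (.inl _), .inr (.inl _) => True
    | .inl _, .inr (.inr j) => j ≠ 3
    | .inr (.inl _), .inr (.inr j) => j = 0 ∨ j = 2
    | .inr (.inr i), .inr (.inr j) => i = 0 ∧ j = 1
    | _, _ => False

/-- The graph `F(1, 0, r, r, 0)`: the clique `Q ∪ N ∪ {p}` with `|Q| = |N| = r`, where
`Q = {inl i}`, `N = {inr (inl i)}`, `p = inr (inr 0)`; a vertex `a = inr (inr 1)` adjacent to
`p` only; and a vertex `b = inr (inr 2)` adjacent to `Q`. -/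
def F2 (r : ℕ) : SimpleGraph (Fin r ⊕ Fin r ⊕ Fin 3) :=
  SimpleGraph.fromRel fun x y =>
    match x, y with
    | .inl _, .inl _ => True
    | .inl _, .inr (.inl _) => True
    | .inr (.inl _), .inr (.inl _) => True
    | .inl _, .inr (.inr j) => j = 0 ∨ j = 2
    | .inr (.inl _), .inr (.inr j) => j = 0
    | .inr (.inr i), .inr (.inr j) => i = 0 ∧ j = 1
    | _, _ => False

/-- Interval graphs from integer closed intervals. -/
theorem isIntervalGraph_of_int {V : Type} (G : SimpleGraph V) (L R : V → ℤ)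
    (h : ∀ v, L v ≤ R v)
    (hadj : ∀ u v, u ≠ v → (G.Adj u v ↔ L u ≤ R v ∧ L v ≤ R u)) : IsIntervalGraph G := by
  refine ⟨fun v => Set.Icc (L v : ℝ) (R v : ℝ), fun v => ⟨Set.ordConnected_Icc, ?_⟩, ?_⟩
  · exact Set.nonempty_Icc.2 (by exact_mod_cast h v)
  · intro u v huv
    rw [hadj u v huv, Set.Icc_inter_Icc, Set.nonempty_Icc]
    constructor
    · rintro ⟨h1, h2⟩
      have a1 : (L u : ℝ) ≤ R v := by exact_mod_cast h1
      have a2 : (L v : ℝ) ≤ R u := by exact_mod_cast h2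
      have a3 : (L u : ℝ) ≤ R u := by exact_mod_cast h u
      have a4 : (L v : ℝ) ≤ R v := by exact_mod_cast h v
      simp only [sup_le_iff, le_inf_iff]
      exact ⟨⟨a3, a2⟩, a1, a4⟩
    · intro h1
      simp only [sup_le_iff, le_inf_iff] at h1
      exact ⟨by exact_mod_cast h1.2.1, by exact_mod_cast h1.1.2⟩

/-- no induced `K_{1,3}` -/
def ClawFree {V : Type} (G : SimpleGraph V) : Prop :=
  ∀ x a b c : V, a ≠ b → a ≠ c → b ≠ c → G.Adj x a → G.Adj x b → G.Adj x c →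
    G.Adj a b ∨ G.Adj a c ∨ G.Adj b c

/-- `κ = 0`: a clique `K`; `κ = 1`, `κ = 2`: together an independent set; the neighbourhoods of
the vertices with `κ = 1` form a chain, and so do those of the vertices with `κ = 2`. -/
def TwoChainSplit {V : Type} (G : SimpleGraph V) : Prop :=
  ∃ κ : V → Fin 3, (∀ u v, u ≠ v → κ u = 0 → κ v = 0 → G.Adj u v) ∧
    (∀ u v, κ u ≠ 0 → κ v ≠ 0 → ¬ G.Adj u v) ∧
    (∀ u v, κ u = κ v → κ u ≠ 0 → (∀ w, G.Adj u w → G.Adj v w) ∨ (∀ w, G.Adj v w → G.Adj u w))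

/-- the vertex set is the union of three cliques -/
def ThreeCliques {V : Type} (G : SimpleGraph V) : Prop :=
  ∃ κ : V → Fin 3, ∀ u v, u ≠ v → κ u = κ v → G.Adj u v

/-- no induced subgraph consisting of a clique `{p1, p2, q1, q2}`, a vertex `a` adjacent to
`p1, p2` only and a vertex `b` adjacent to `q1, q2` only. -/
def NoC22 {V : Type} (G : SimpleGraph V) : Prop :=
  ∀ p1 p2 q1 q2 a b : V, p1 ≠ p2 → q1 ≠ q2 → G.Adj p1 p2 → G.Adj q1 q2 → G.Adj p1 q1 →
    G.Adj p1 q2 → G.Adj p2 q1 → G.Adj p2 q2 → G.Adj a p1 → G.Adj a p2 → ¬ G.Adj a q1 →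
    ¬ G.Adj a q2 → G.Adj b q1 → G.Adj b q2 → ¬ G.Adj b p1 → ¬ G.Adj b p2 → a ≠ b →
    ¬ G.Adj a b → False

end Pool.Agent.H73R2.Iv
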