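import Pool.Agent.H73R2.Iv.Defs
import Pool.Agent.H175R2.Cut

set_option autoImplicit false

/-!
# TEAM-IV, task X (by helper455): the two-chain families (MP_84a460_co)
-/

namespace Pool.Agent.H73R2.Iv

open SimpleGraph Pool.Agent.H175R2

namespace FamX

/-- a family of vertices of `A` pairwise distinguished by vertices outside `A` is small -/
theorem card_le_types {V : Type} {G : SimpleGraph V} {A : Set V} {k n : ℕ} (hT : Types G A k)
    (S : Finset (Fin n)) (f : Fin n → V) (hf : ∀ i ∈ S, f i ∈ A)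
    (hd : ∀ i ∈ S, ∀ j ∈ S, i < j → ∃ z, z ∉ A ∧ ¬ (G.Adj (f i) z ↔ G.Adj (f j) z)) :
    S.card ≤ k := by
  obtain ⟨l, hl⟩ := hT
  have hinj : Set.InjOn (fun i => l (f i)) (S : Set (Fin n)) := by
    intro i hi j hj hij
    have hi' : i ∈ S := hi
    have hj' : j ∈ S := hj
    rcases lt_trichotomy i j with h | h | h
    · obtain ⟨z, hz, hn⟩ := hd i hi' j hj' h
      exact absurd (hl _ (hf i hi') _ (hf j hj') hij z hz) hn
    · exact h
    · obtain ⟨z, hz, hn⟩ := hd j hj' i hi' h
      exact absurd (hl _ (hf j hj') _ (hf i hi') hij.symm z hz) hn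
  have := Finset.card_le_card_of_injOn (t := (Finset.univ : Finset (Fin k))) (fun i => l (f i))
    (fun _ _ => Finset.mem_univ _) hinj
  simpa using this

open Classical in
/-- the number of mixed columns is at most `2 k` -/
theorem mixed_le {V : Type} {G : SimpleGraph V} {A : Set V} {k n : ℕ} (hT : Types G A k)
    (c : Fin n → Fin n → V) (s : Fin n → V) (h : ∀ i x y, G.Adj (s i) (c x y) ↔ i ≤ x) :
    (Finset.univ.filter (fun x => (∃ y, c x y ∈ A) ∧ ∃ y, c x y ∉ A)).card ≤ 2 * k := by
  set M := Finset.univ.filter (fun x => (∃ y, c x y ∈ A) ∧ ∃ y, c x y ∉ A) with hM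
  have hMx : ∀ x ∈ M, (∃ y, c x y ∈ A) ∧ ∃ y, c x y ∉ A := by
    intro x hx
    simpa [hM] using hx
  have h1 : (M.filter (fun x => s x ∈ A)).card ≤ k := by
    refine card_le_types hT _ s (fun i hi => (Finset.mem_filter.1 hi).2) ?_
    intro i hi j hj hij
    obtain ⟨y, hy⟩ := (hMx i (Finset.mem_filter.1 hi).1).2
    refine ⟨c i y, hy, fun hh => ?_⟩
    have h2 := (h j i y).1 (hh.1 ((h i i y).2 le_rfl))
    exact absurd hij (not_lt.2 h2)
  have h2 : (M.filter (fun x => s x ∉ A)).card ≤ k := by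
    have hch : ∀ x : Fin n, ∃ v : V, x ∈ M → (v ∈ A ∧ ∃ y, v = c x y) := by
      intro x
      by_cases hx : x ∈ M
      · obtain ⟨y, hy⟩ := (hMx x hx).1
        exact ⟨c x y, fun _ => ⟨hy, y, rfl⟩⟩
      · exact ⟨s x, fun hh => absurd hh hx⟩
    choose f hf using hch
    refine card_le_types hT _ f (fun i hi => (hf i (Finset.mem_filter.1 hi).1).1) ?_
    intro i hi j hj hij
    obtain ⟨y, hy⟩ := (hf i (Finset.mem_filter.1 hi).1).2
    obtain ⟨y', hy'⟩ := (hf j (Finset.mem_filter.1 hj).1).2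
    refine ⟨s j, (Finset.mem_filter.1 hj).2, fun hh => ?_⟩
    rw [hy, hy', G.adj_comm, h, G.adj_comm, h] at hh
    exact absurd hij (not_lt.2 (hh.2 le_rfl))
  have h3 := Finset.card_filter_add_card_filter_not (s := M) (fun x => s x ∈ A)
  omega

/-- sets covered by the mixed columns -/
theorem ncard_le {V : Type} [Finite V] {n : ℕ} (B : Set V) (c : Fin n → Fin n → V)
    (M : Finset (Fin n)) (hB : ∀ v ∈ B, ∃ x ∈ M, ∃ y, v = c x y) : B.ncard ≤ M.card * n := by
  classical
  have h1 : B ⊆ (((M ×ˢ (Finset.univ : Finset (Fin n))).image (fun p => c p.1 p.2) : Finset V) :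
      Set V) := by
    intro v hv
    obtain ⟨x, hx, y, rfl⟩ := hB v hv
    simp only [Finset.coe_image, Finset.coe_product, Finset.coe_univ, Set.mem_image, Set.mem_prod,
      Finset.mem_coe, Set.mem_univ, and_true, Prod.exists]
    exact ⟨x, y, hx, rfl⟩
  have h2 := Set.ncard_le_ncard h1 (Finset.finite_toSet _)
  rw [Set.ncard_coe_finset] at h2
  refine h2.trans (Finset.card_image_le.trans ?_)
  rw [Finset.card_product]
  simp

theorem lower {V : Type} [Finite V] (G : SimpleGraph V) (n k : ℕ) (hn : 6 * k + 2 ≤ n)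
    (c : Fin n → Fin n → V) (hc : Function.Injective (fun p : Fin n × Fin n => c p.1 p.2))
    (s t : Fin n → V) (hs : ∀ i x y, G.Adj (s i) (c x y) ↔ i ≤ x)
    (ht : ∀ i x y, G.Adj (t i) (c x y) ↔ i ≤ y) : ¬ CwLE G k := by
  classical
  intro hcw
  set W : Set V := Set.range (fun p : Fin n × Fin n => c p.1 p.2) with hW
  have hWc : W.ncard = n * n := by
    rw [hW, ← Set.image_univ, Set.ncard_image_of_injective _ hc, Set.ncard_univ]
    simp
  obtain ⟨A, hT, h1, h2⟩ := balanced_cut G k hcw W (by rw [hWc]; nlinarith)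
  rw [hWc] at h1 h2
  have hsplit : (A ∩ W).ncard + (W \ A).ncard = n * n := by
    rw [← hWc, Set.inter_comm]
    exact Set.ncard_inter_add_ncard_sdiff_eq_ncard W A
  have hm := mixed_le hT c s hs
  have hm' := mixed_le hT (fun y x => c x y) t (fun i y x => ht i x y)
  set M := Finset.univ.filter (fun x => (∃ y, c x y ∈ A) ∧ ∃ y, c x y ∉ A) with hM
  have hbig : n * n ≤ 3 * (M.card * n) → False := by
    intro h
    have : n * n ≤ (6 * k) * n := by nlinarith
    have := Nat.le_of_mul_le_mul_right this (by omega)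
    omega
  have hfull : ∃ x, ∀ y, c x y ∈ A := by
    by_contra hno
    push Not at hno
    have := ncard_le (A ∩ W) c M (by
      rintro v ⟨hv, ⟨p, rfl⟩⟩
      refine ⟨p.1, ?_, p.2, rfl⟩
      simp only [hM, Finset.mem_filter, Finset.mem_univ, true_and]
      exact ⟨⟨p.2, hv⟩, hno p.1⟩)
    apply hbig
    omega
  have hempty : ∃ x, ∀ y, c x y ∉ A := by
    by_contra hno
    push Not at hno
    have := ncard_le (W \ A) c M (by
      rintro v ⟨⟨p, rfl⟩, hv⟩
      refine ⟨p.1, ?_, p.2, rfl⟩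
      simp only [hM, Finset.mem_filter, Finset.mem_univ, true_and]
      exact ⟨hno p.1, ⟨p.2, hv⟩⟩)
    apply hbig
    omega
  obtain ⟨x0, hx0⟩ := hfull
  obtain ⟨x1, hx1⟩ := hempty
  have hall : (Finset.univ.filter (fun y : Fin n => (∃ x, c x y ∈ A) ∧ ∃ x, c x y ∉ A)) =
      Finset.univ := by
    ext y
    simp only [Finset.mem_filter, Finset.mem_univ, true_and, iff_true]
    exact ⟨⟨x0, hx0 y⟩, ⟨x1, hx1 y⟩⟩
  rw [hall] at hm'
  simp at hm'
  omega

/-- vertices of the two families -/
abbrev Vx (n : ℕ) : Type := (Fin n × Fin n) ⊕ (Fin n ⊕ Fin n)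

/-- left ends -/
def lft (n : ℕ) (q : Bool) : Vx n → ℤ
  | .inl p => -((p.1.val : ℤ) + 1)
  | .inr (.inl s) => if q then -((n : ℤ) + 1) else -((s.val : ℤ) + 1)
  | .inr (.inr t) => (t.val : ℤ) + 1

/-- right ends -/
def rgt (n : ℕ) (q : Bool) : Vx n → ℤ
  | .inl p => (p.2.val : ℤ) + 1
  | .inr (.inl s) => -((s.val : ℤ) + 1)
  | .inr (.inr t) => if q then (n : ℤ) + 1 else (t.val : ℤ) + 1

/-- the interval graph -/
def Gx (n : ℕ) (q : Bool) : SimpleGraph (Vx n) where
  Adj u v := u ≠ v ∧ lft n q u ≤ rgt n q v ∧ lft n q v ≤ rgt n q u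
  symm := ⟨fun _ _ h => ⟨h.1.symm, h.2.2, h.2.1⟩⟩
  loopless := ⟨fun _ h => h.1 rfl⟩

theorem gx_interval (n : ℕ) (q : Bool) : IsIntervalGraph (Gx n q) := by
  refine isIntervalGraph_of_int _ (lft n q) (rgt n q) ?_ ?_
  · rintro (p | s | t)
    · simp only [lft, rgt]; omega
    · simp only [lft, rgt]
      have := s.2
      split_ifs <;> omega
    · simp only [lft, rgt]
      have := t.2
      split_ifs <;> omega
  · intro u v huv
    simp [Gx, huv]

theorem gx_lower (n k : ℕ) (q : Bool) (hn : 6 * k + 2 ≤ n) : ¬ CwLE (Gx n q) k := by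
  refine lower (Gx n q) n k hn (fun x y => .inl (x, y)) ?_ (fun s => .inr (.inl s))
    (fun t => .inr (.inr t)) ?_ ?_
  · rintro ⟨x, y⟩ ⟨x', y'⟩ h
    simpa using h
  · intro i x y
    simp only [Gx, lft, rgt, ne_eq, reduceCtorEq, not_false_eq_true, true_and]
    have := i.2
    constructor
    · rintro ⟨_, h⟩
      exact Fin.le_def.2 (by omega)
    · intro h
      have h' := Fin.le_def.1 h
      refine ⟨?_, by omega⟩
      split_ifs <;> omega
  · intro i x y
    simp only [Gx, lft, rgt, ne_eq, reduceCtorEq, not_false_eq_true, true_and]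
    have := i.2
    constructor
    · rintro ⟨h, _⟩
      exact Fin.le_def.2 (by omega)
    · intro h
      have h' := Fin.le_def.1 h
      refine ⟨by omega, ?_⟩
      split_ifs <;> omega

/-- the parts -/
def kap (n : ℕ) : Vx n → Fin 3
  | .inl _ => 0
  | .inr (.inl _) => 1
  | .inr (.inr _) => 2

end FamX

open FamX

theorem famXii (c : ℕ) : ∃ (V : Type) (_ : Finite V) (_ : Nonempty V) (G : SimpleGraph V),
    IsIntervalGraph G ∧ TwoChainSplit G ∧ ¬ CwLE G c := by
  refine ⟨Vx (6 * c + 2), inferInstance, ⟨.inr (.inl ⟨0, by omega⟩)⟩, Gx (6 * c + 2) false,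
    gx_interval _ _, ⟨kap _, ?_, ?_, ?_⟩, gx_lower _ _ _ le_rfl⟩
  · rintro (p | s | t) (p' | s' | t') huv h1 h2 <;> simp [kap] at h1 h2
    refine ⟨huv, ?_, ?_⟩ <;> simp only [lft, rgt] <;> omega
  · rintro (p | s | t) (p' | s' | t') h1 h2 <;> simp [kap] at h1 h2 <;>
      rintro ⟨h3, h4, h5⟩ <;> simp only [lft, rgt, Bool.false_eq_true, if_false] at h4 h5
    · exact h3 (by congr 2; exact Fin.ext (by omega))
    · omega
    · omega
    · exact h3 (by congr 2; exact Fin.ext (by omega))
  · rintro (p | s | t) (p' | s' | t') h1 h2 <;> simp [kap] at h1 h2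
    · rcases le_total s.val s'.val with h | h
      · right
        rintro (w | w | w) ⟨h3, h4, h5⟩ <;>
          simp only [lft, rgt, Bool.false_eq_true, if_false] at h4 h5
        · refine ⟨by simp, ?_, ?_⟩ <;> simp only [lft, rgt, Bool.false_eq_true, if_false] <;> omega
        · exact absurd (show (Sum.inr (Sum.inl s') : Vx _) = Sum.inr (Sum.inl w) by
            congr 2; exact Fin.ext (by omega)) h3
        · omega
      · left
        rintro (w | w | w) ⟨h3, h4, h5⟩ <;>
          simp only [lft, rgt, Bool.false_eq_true, if_false] at h4 h5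
        · refine ⟨by simp, ?_, ?_⟩ <;> simp only [lft, rgt, Bool.false_eq_true, if_false] <;> omega
        · exact absurd (show (Sum.inr (Sum.inl s) : Vx _) = Sum.inr (Sum.inl w) by
            congr 2; exact Fin.ext (by omega)) h3
        · omega
    · rcases le_total t.val t'.val with h | h
      · right
        rintro (w | w | w) ⟨h3, h4, h5⟩ <;>
          simp only [lft, rgt, Bool.false_eq_true, if_false] at h4 h5
        · refine ⟨by simp, ?_, ?_⟩ <;> simp only [lft, rgt, Bool.false_eq_true, if_false] <;> omega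
        · omega
        · exact absurd (show (Sum.inr (Sum.inr t') : Vx _) = Sum.inr (Sum.inr w) by
            congr 2; exact Fin.ext (by omega)) h3
      · left
        rintro (w | w | w) ⟨h3, h4, h5⟩ <;>
          simp only [lft, rgt, Bool.false_eq_true, if_false] at h4 h5
        · refine ⟨by simp, ?_, ?_⟩ <;> simp only [lft, rgt, Bool.false_eq_true, if_false] <;> omega
        · omega
        · exact absurd (show (Sum.inr (Sum.inr t) : Vx _) = Sum.inr (Sum.inr w) by
            congr 2; exact Fin.ext (by omega)) h3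

theorem famXcc (c : ℕ) : ∃ (V : Type) (_ : Finite V) (_ : Nonempty V) (G : SimpleGraph V),
    IsIntervalGraph G ∧ ThreeCliques G ∧ ¬ CwLE G c := by
  refine ⟨Vx (6 * c + 2), inferInstance, ⟨.inr (.inl ⟨0, by omega⟩)⟩, Gx (6 * c + 2) true,
    gx_interval _ _, ⟨kap _, ?_⟩, gx_lower _ _ _ le_rfl⟩
  rintro (p | s | t) (p' | s' | t') huv h1 <;> simp [kap] at h1 <;>
    refine ⟨huv, ?_, ?_⟩ <;> simp only [lft, rgt, if_true]
  · omega
  · omega
  · have := s.2; have := s'.2; omega
  · have := s.2; have := s'.2; omega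
  · have := t.2; have := t'.2; omega
  · have := t.2; have := t'.2; omega

end Pool.Agent.H73R2.Iv
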