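import Pool.Agent.H73R2.Iv.S1d
import Pool.Agent.H83R2.IvU
import Pool.Agent.H83R2.IvN
import Pool.Agent.H73R2.Iv.FamX
import Pool.Agent.H375R2.IvM

set_option autoImplicit false
set_option linter.unusedSectionVars false

namespace Pool.Agent.H73R2.Iv

open SimpleGraph Pool.Agent.H175R2

theorem nonempty_of_built {k : ℕ} {V : Type} {G : SimpleGraph V} {l : V → Fin k}
    (h : CwBuilt k V G l) : Nonempty V := by
  induction h with
  | single i => infer_instance
  | union V W G H l m _ _ h1 h2 => exact ⟨.inl h1.some⟩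
  | join _ _ _ _ _ _ _ h => exact h
  | relabel _ _ _ _ _ _ h => exact h

theorem built_mono {k k' : ℕ} (hk : k ≤ k') {V : Type} {G : SimpleGraph V} {l : V → Fin k}
    (h : CwBuilt k V G l) : CwBuilt k' V G (fun v => Fin.castLE hk (l v)) := by
  induction h with
  | single i => exact CwBuilt.single _
  | union V W G H l m _ _ h1 h2 =>
    have := CwBuilt.union V W G H _ _ h1 h2
    have e : (Sum.elim (fun v => Fin.castLE hk (l v)) fun v => Fin.castLE hk (m v)) =
        fun v => Fin.castLE hk (Sum.elim l m v) := by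
      funext v
      rcases v with v | v <;> rfl
    rwa [e] at this
  | join V G l i j hij _ h =>
    have hinj := Fin.castLE_injective hk
    have := CwBuilt.join V G _ (Fin.castLE hk i) (Fin.castLE hk j)
      (fun h => hij (hinj h)) h
    have e : (SimpleGraph.fromRel fun u v => Fin.castLE hk (l u) = Fin.castLE hk i ∧
        Fin.castLE hk (l v) = Fin.castLE hk j) =
        SimpleGraph.fromRel fun u v => l u = i ∧ l v = j := by
      ext u v
      simp only [SimpleGraph.fromRel_adj, hinj.eq_iff]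
    rwa [e] at this
  | relabel V G l i j _ h =>
    have hinj := Fin.castLE_injective hk
    have := CwBuilt.relabel V G _ (Fin.castLE hk i) (Fin.castLE hk j) h
    have e : (fun v => if Fin.castLE hk (l v) = Fin.castLE hk i then Fin.castLE hk j
        else Fin.castLE hk (l v)) = fun v => Fin.castLE hk (if l v = i then j else l v) := by
      funext v
      by_cases h1 : l v = i
      · simp [h1]
      · simp [h1, hinj.eq_iff]
    rwa [e] at this

theorem cwLE_mono {k k' : ℕ} (hk : k ≤ k') {V : Type} {G : SimpleGraph V} (h : CwLE G k) :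
    CwLE G k' := by
  obtain ⟨W, G', l, hb, e⟩ := h
  exact ⟨W, G', _, built_mono hk hb, e⟩

theorem exists_cwLE {V : Type} [Finite V] [Nonempty V] (G : SimpleGraph V) :
    ∃ k, CwLE G k := by
  classical
  have := Fintype.ofFinite V
  have h : DT0 G (Fintype.card V) (∅ ∪ Finset.univ) := by
    refine DT0.singles (by simp) DT0.empty ?_
    intro U _ _
    exact tr_le_card.trans (Finset.card_le_univ _)
  rw [Finset.empty_union] at h
  rcases h with h | h
  · exact absurd h Finset.univ_nonempty.ne_empty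
  · exact ⟨_, cwLE_of_dt h⟩

theorem cliqueWidth_le_iff {V : Type} [Finite V] [Nonempty V] (G : SimpleGraph V) (c : ℕ) :
    cliqueWidth G ≤ c ↔ CwLE G c := by
  constructor
  · intro h
    have h1 : CwLE G (cliqueWidth G) := Nat.sInf_mem (exists_cwLE G)
    exact cwLE_mono h h1
  · intro h
    exact Nat.sInf_le h

theorem cliqueWidth_empty {V : Type} (hV : ¬ Nonempty V) (G : SimpleGraph V) :
    cliqueWidth G = 0 := by
  have : {k | CwLE G k} = ∅ := by
    ext k
    simp only [Set.mem_ofPred_eq, Set.mem_empty_iff_false, iff_false]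
    rintro ⟨W, G', l, hb, ⟨e⟩⟩
    exact hV ⟨e.symm (nonempty_of_built hb).some⟩
  unfold cliqueWidth
  rw [this]
  exact Nat.sInf_empty

/-- `H`-free interval graphs have bounded clique-width -/
def BoundedCw {W : Type} (H : SimpleGraph W) : Prop :=
  ∃ c : ℕ, ∀ (V : Type) [Finite V] (G : SimpleGraph V), IsIntervalGraph G →
    ¬ H.IsIndContained G → cliqueWidth G ≤ c

/-- hereditary properties -/
theorem ClawFree.of_ind {W V : Type} {H : SimpleGraph W} {G : SimpleGraph V}
    (h : H.IsIndContained G) (hG : ClawFree G) : ClawFree H := by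
  obtain ⟨f⟩ := h
  intro x a b c hab hac hbc h1 h2 h3
  have := hG (f x) (f a) (f b) (f c) (fun h => hab (f.injective h)) (fun h => hac (f.injective h))
    (fun h => hbc (f.injective h)) (f.map_adj_iff.2 h1) (f.map_adj_iff.2 h2) (f.map_adj_iff.2 h3)
  simpa only [f.map_adj_iff] using this

theorem TwoChainSplit.of_ind {W V : Type} {H : SimpleGraph W} {G : SimpleGraph V}
    (h : H.IsIndContained G) (hG : TwoChainSplit G) : TwoChainSplit H := by
  obtain ⟨f⟩ := h
  obtain ⟨κ, h1, h2, h3⟩ := hG
  refine ⟨fun x => κ (f x), ?_, ?_, ?_⟩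
  · intro u v huv hu hv
    exact f.map_adj_iff.1 (h1 _ _ (fun h => huv (f.injective h)) hu hv)
  · intro u v hu hv h
    exact h2 _ _ hu hv (f.map_adj_iff.2 h)
  · intro u v huv hu
    rcases h3 (f u) (f v) huv hu with h | h
    · exact Or.inl fun w hw => f.map_adj_iff.1 (h _ (f.map_adj_iff.2 hw))
    · exact Or.inr fun w hw => f.map_adj_iff.1 (h _ (f.map_adj_iff.2 hw))

theorem ThreeCliques.of_ind {W V : Type} {H : SimpleGraph W} {G : SimpleGraph V}
    (h : H.IsIndContained G) (hG : ThreeCliques G) : ThreeCliques H := by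
  obtain ⟨f⟩ := h
  obtain ⟨κ, h1⟩ := hG
  exact ⟨fun x => κ (f x), fun u v huv h => f.map_adj_iff.1 (h1 _ _ (fun h => huv (f.injective h)) h)⟩

theorem NoC22.of_ind {W V : Type} {H : SimpleGraph W} {G : SimpleGraph V}
    (h : H.IsIndContained G) (hG : NoC22 G) : NoC22 H := by
  obtain ⟨f⟩ := h
  intro p1 p2 q1 q2 a b hp hq h1 h2 h3 h4 h5 h6 h7 h8 h9 h10 h11 h12 h13 h14 h15 h16
  refine hG (f p1) (f p2) (f q1) (f q2) (f a) (f b) (fun h => hp (f.injective h))
    (fun h => hq (f.injective h)) ?_ ?_ ?_ ?_ ?_ ?_ ?_ ?_ ?_ ?_ ?_ ?_ ?_ ?_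
    (fun h => h15 (f.injective h)) ?_ <;> rw [f.map_adj_iff] <;> assumption

/-- the restriction of the parameter to the number of vertices -/
theorem small1 {W : Type} [Finite W] {H : SimpleGraph W} {r : ℕ} (h : H.IsIndContained (F1 r)) :
    H.IsIndContained (F1 (Nat.card W)) := by
  obtain ⟨f⟩ := h
  let e := Finite.equivFin W
  let g : W → Fin (Nat.card W) ⊕ Fin (Nat.card W) ⊕ Fin 4 := fun x =>
    match f x with
    | .inl _ => .inl (e x)
    | .inr (.inl _) => .inr (.inl (e x))
    | .inr (.inr j) => .inr (.inr j)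
  apply mkEmb H g
  intro x y hxy
  have hf : f x ≠ f y := fun h => hxy (f.injective h)
  have he : e x ≠ e y := fun h => hxy (e.injective h)
  rw [← f.map_adj_iff]
  show (match f x with
    | .inl _ => .inl (e x)
    | .inr (.inl _) => .inr (.inl (e x))
    | .inr (.inr j) => .inr (.inr j) : Fin (Nat.card W) ⊕ Fin (Nat.card W) ⊕ Fin 4) ≠
    (match f y with
    | .inl _ => .inl (e y)
    | .inr (.inl _) => .inr (.inl (e y))
    | .inr (.inr j) => .inr (.inr j)) ∧
    ((F1 (Nat.card W)).Adj (match f x with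
    | .inl _ => .inl (e x)
    | .inr (.inl _) => .inr (.inl (e x))
    | .inr (.inr j) => .inr (.inr j)) (match f y with
    | .inl _ => .inl (e y)
    | .inr (.inl _) => .inr (.inl (e y))
    | .inr (.inr j) => .inr (.inr j)) ↔ _)
  generalize f x = u at hf ⊢
  generalize f y = v at hf ⊢
  rcases u with u | u | u <;> rcases v with v | v | v <;>
    simp_all [F1, SimpleGraph.fromRel_adj]

theorem small2 {W : Type} [Finite W] {H : SimpleGraph W} {r : ℕ} (h : H.IsIndContained (F2 r)) :
    H.IsIndContained (F2 (Nat.card W)) := by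
  obtain ⟨f⟩ := h
  let e := Finite.equivFin W
  let g : W → Fin (Nat.card W) ⊕ Fin (Nat.card W) ⊕ Fin 3 := fun x =>
    match f x with
    | .inl _ => .inl (e x)
    | .inr (.inl _) => .inr (.inl (e x))
    | .inr (.inr j) => .inr (.inr j)
  apply mkEmb H g
  intro x y hxy
  have hf : f x ≠ f y := fun h => hxy (f.injective h)
  have he : e x ≠ e y := fun h => hxy (e.injective h)
  rw [← f.map_adj_iff]
  show (match f x with
    | .inl _ => .inl (e x)
    | .inr (.inl _) => .inr (.inl (e x))
    | .inr (.inr j) => .inr (.inr j) : Fin (Nat.card W) ⊕ Fin (Nat.card W) ⊕ Fin 3) ≠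
    (match f y with
    | .inl _ => .inl (e y)
    | .inr (.inl _) => .inr (.inl (e y))
    | .inr (.inr j) => .inr (.inr j)) ∧
    ((F2 (Nat.card W)).Adj (match f x with
    | .inl _ => .inl (e x)
    | .inr (.inl _) => .inr (.inl (e x))
    | .inr (.inr j) => .inr (.inr j)) (match f y with
    | .inl _ => .inl (e y)
    | .inr (.inl _) => .inr (.inl (e y))
    | .inr (.inr j) => .inr (.inr j)) ↔ _)
  generalize f x = u at hf ⊢
  generalize f y = v at hf ⊢
  rcases u with u | u | u <;> rcases v with v | v | v <;>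
    simp_all [F2, SimpleGraph.fromRel_adj]

theorem bounded_of_ind {W : Type} {H : SimpleGraph W} {r : ℕ}
    (h : H.IsIndContained (F1 r) ∨ H.IsIndContained (F2 r)) : BoundedCw H := by
  rcases h with h | h
  · obtain ⟨K, hK⟩ := suff1 r
    refine ⟨K, fun V _ G hG hfree => ?_⟩
    by_cases hV : Nonempty V
    · rw [cliqueWidth_le_iff]
      exact hK V G hG fun h' => hfree (h.trans h')
    · rw [cliqueWidth_empty hV]
      exact Nat.zero_le _
  · obtain ⟨K, hK⟩ := suff2 r
    refine ⟨K, fun V _ G hG hfree => ?_⟩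
    by_cases hV : Nonempty V
    · rw [cliqueWidth_le_iff]
      exact hK V G hG fun h' => hfree (h.trans h')
    · rw [cliqueWidth_empty hV]
      exact Nat.zero_le _

theorem ind_of_bounded {W : Type} [Finite W] {H : SimpleGraph W} (h : BoundedCw H) :
    ∃ r, H.IsIndContained (F1 r) ∨ H.IsIndContained (F2 r) := by
  obtain ⟨c, hc⟩ := h
  have key : ∀ (V : Type) (_ : Finite V) (_ : Nonempty V) (G : SimpleGraph V),
      IsIntervalGraph G → ¬ CwLE G c → H.IsIndContained G := by
    intro V _ _ G hG hcw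
    by_contra hcon
    have := hc V G hG hcon
    rw [cliqueWidth_le_iff] at this
    exact hcw this
  apply necessity
  · obtain ⟨V, i1, i2, G, h1, h2, h3⟩ := famU c
    exact h2.of_ind (key V i1 i2 G h1 h3)
  · obtain ⟨V, i1, i2, G, h1, h2, h3⟩ := famXii c
    exact h2.of_ind (key V i1 i2 G h1 h3)
  · obtain ⟨V, i1, i2, G, h1, h2, h3⟩ := famXcc c
    exact h2.of_ind (key V i1 i2 G h1 h3)
  · obtain ⟨V, i1, i2, G, h1, h2, h3⟩ := Pool.Agent.H375R2.IvM.famM c
    exact h2.of_ind (key V i1 i2 G h1 h3)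

theorem classification {W : Type} [Finite W] (H : SimpleGraph W) :
    (BoundedCw H ↔ ∃ r, H.IsIndContained (F1 r) ∨ H.IsIndContained (F2 r)) ∧
    (BoundedCw H ↔
      H.IsIndContained (F1 (Nat.card W)) ∨ H.IsIndContained (F2 (Nat.card W))) := by
  refine ⟨⟨ind_of_bounded, fun ⟨_, h⟩ => bounded_of_ind h⟩, ⟨fun h => ?_, bounded_of_ind⟩⟩
  obtain ⟨r, h | h⟩ := ind_of_bounded h
  · exact Or.inl (small1 h)
  · exact Or.inr (small2 h)

end Pool.Agent.H73R2.Iv
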