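import Pool.Agent.H73R2.Iv.S2d

set_option autoImplicit false
set_option linter.unusedSectionVars false

/-! Sufficiency for `F1`: the pattern. -/

namespace Pool.Agent.H73R2.Iv

open Finset Classical Pool.Agent.H175R2

variable {V : Type} [Fintype V] {G : SimpleGraph V} {l r : V → ℕ} {m : ℕ}

/-- the pattern for `F1`. -/
lemma pat1 (hR : ∀ u v, u ≠ v → (G.Adj u v ↔ l u ≤ r v ∧ l v ≤ r u)) (hle : ∀ v, l v ≤ r v)
    {p a b z : V} {s t : ℕ} {O Q : Finset V}
    (hp1 : l p ≤ s) (hp2 : r p < t) (ha : r a = s) (hb : l b = t)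
    (hO : ∀ y ∈ O, l y ≤ s ∧ t ≤ r y)
    (hQ : ∀ y ∈ Q, s < l y ∧ l y ≤ r p ∧ t ≤ r y)
    (hz : (r z < l a ∧ r z < l p ∧ ∀ y ∈ O, r z < l y) ∨
      (r b < l z ∧ (∀ y ∈ O, r y < l z) ∧ ∀ y ∈ Q, r y < l z))
    (hOc : m ≤ O.card) (hQc : m ≤ Q.card) (hm : 1 ≤ m) : (F1 m).IsIndContained G := by
  obtain ⟨O', hO', hOc'⟩ := Finset.exists_subset_card_eq hOc
  obtain ⟨Q', hQ', hQc'⟩ := Finset.exists_subset_card_eq hQc
  let fo : Fin m → V := fun i => (O'.equivFinOfCardEq hOc').symm i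
  let fq : Fin m → V := fun i => (Q'.equivFinOfCardEq hQc').symm i
  have hfo : Function.Injective fo := fun i j h => by
    have := Subtype.ext h
    exact (O'.equivFinOfCardEq hOc').symm.injective this
  have hfq : Function.Injective fq := fun i j h => by
    have := Subtype.ext h
    exact (Q'.equivFinOfCardEq hQc').symm.injective this
  have ho : ∀ i, l (fo i) ≤ s ∧ t ≤ r (fo i) := fun i =>
    hO _ (hO' ((O'.equivFinOfCardEq hOc').symm i).2)
  have hq : ∀ i, s < l (fq i) ∧ l (fq i) ≤ r p ∧ t ≤ r (fq i) := fun i =>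
    hQ _ (hQ' ((Q'.equivFinOfCardEq hQc').symm i).2)
  have hq0 := hq ⟨0, hm⟩
  have ho0 := ho ⟨0, hm⟩
  have hz' : (r z < l a ∧ r z < l p ∧ ∀ i, r z < l (fo i)) ∨
      (r b < l z ∧ (∀ i, r (fo i) < l z) ∧ ∀ i, r (fq i) < l z) := by
    rcases hz with h | h
    · exact Or.inl ⟨h.1, h.2.1, fun i => h.2.2 _ (hO' ((O'.equivFinOfCardEq hOc').symm i).2)⟩
    · exact Or.inr ⟨h.1, fun i => h.2.1 _ (hO' ((O'.equivFinOfCardEq hOc').symm i).2),
        fun i => h.2.2 _ (hQ' ((Q'.equivFinOfCardEq hQc').symm i).2)⟩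
  have hz0 : (r z < l a ∧ r z < l p ∧ r z < l (fo ⟨0, hm⟩)) ∨
      (r b < l z ∧ r (fo ⟨0, hm⟩) < l z ∧ r (fq ⟨0, hm⟩) < l z) := by
    rcases hz' with h | h
    · exact Or.inl ⟨h.1, h.2.1, h.2.2 _⟩
    · exact Or.inr ⟨h.1, h.2.1 _, h.2.2 _⟩
  have hla := hle a
  have hlb := hle b
  have hlz := hle z
  have ne_of : ∀ u v : V, (l u ≠ l v ∨ r u ≠ r v) → u ≠ v := by
    rintro u v h rfl
    simp at h
  let f : Fin m ⊕ Fin m ⊕ Fin 4 → V := fun w =>
    match w with
    | .inl i => fo i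
    | .inr (.inl i) => fq i
    | .inr (.inr j) => if j = 0 then p else if j = 1 then a else if j = 2 then b else z
  have key : ∀ u v : V, ∀ P : Prop, (l u ≠ l v ∨ r u ≠ r v) → ((l u ≤ r v ∧ l v ≤ r u) ↔ P) →
      u ≠ v ∧ (G.Adj u v ↔ P) := by
    intro u v P h1 h2
    exact ⟨ne_of u v h1, (hR u v (ne_of u v h1)).trans h2⟩
  have key' : ∀ u v : V, ∀ P : Prop, u ≠ v → ((l u ≤ r v ∧ l v ≤ r u) ↔ P) →
      u ≠ v ∧ (G.Adj u v ↔ P) := by
    intro u v P h1 h2
    exact ⟨h1, (hR u v h1).trans h2⟩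
  apply mkEmb (F1 m) f
  have T1 : ∀ i j : Fin m, i ≠ j → f (.inl i) ≠ f (.inl j) ∧
      (G.Adj (f (.inl i)) (f (.inl j)) ↔ (F1 m).Adj (.inl i) (.inl j)) := by
    intro i j hij
    have h5 := ho i
    have h6 := ho j
    refine key' _ _ _ (fun h => hij (hfo h)) ?_
    show (l (fo i) ≤ r (fo j) ∧ l (fo j) ≤ r (fo i)) ↔ _
    simp only [F1, SimpleGraph.fromRel_adj]
    refine iff_of_true (by omega) ⟨by simpa using hij, Or.inl trivial⟩
  have T2 : ∀ i j : Fin m, f (.inl i) ≠ f (.inr (.inl j)) ∧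
      (G.Adj (f (.inl i)) (f (.inr (.inl j))) ↔ (F1 m).Adj (.inl i) (.inr (.inl j))) := by
    intro i j
    have h5 := ho i
    have h6 := hq j
    show fo i ≠ fq j ∧ (G.Adj (fo i) (fq j) ↔ _)
    refine key _ _ _ (by omega) ?_
    simp only [F1, SimpleGraph.fromRel_adj]
    refine iff_of_true (by omega) ⟨by simp, Or.inl trivial⟩
  have T3 : ∀ i j : Fin m, i ≠ j → f (.inr (.inl i)) ≠ f (.inr (.inl j)) ∧
      (G.Adj (f (.inr (.inl i))) (f (.inr (.inl j))) ↔
        (F1 m).Adj (.inr (.inl i)) (.inr (.inl j))) := by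
    intro i j hij
    have h5 := hq i
    have h6 := hq j
    refine key' _ _ _ (fun h => hij (hfq h)) ?_
    show (l (fq i) ≤ r (fq j) ∧ l (fq j) ≤ r (fq i)) ↔ _
    simp only [F1, SimpleGraph.fromRel_adj]
    refine iff_of_true (by omega) ⟨by simpa using hij, Or.inl trivial⟩
  have T4 : ∀ (i : Fin m) (j : Fin 4), f (.inl i) ≠ f (.inr (.inr j)) ∧
      (G.Adj (f (.inl i)) (f (.inr (.inr j))) ↔ (F1 m).Adj (.inl i) (.inr (.inr j))) := by
    intro i j
    have h5 := ho i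
    have h6 : (r z < l (fo i)) ∨ (r (fo i) < l z) := by
      rcases hz' with h | h
      · exact Or.inl (h.2.2 i)
      · exact Or.inr (h.2.1 i)
    fin_cases j
    · show fo i ≠ p ∧ (G.Adj (fo i) p ↔ (F1 m).Adj (.inl i) (.inr (.inr 0)))
      refine key _ _ _ (by omega) ?_
      simp only [F1, SimpleGraph.fromRel_adj]
      refine iff_of_true (by omega) ⟨by simp, by simp⟩
    · show fo i ≠ a ∧ (G.Adj (fo i) a ↔ (F1 m).Adj (.inl i) (.inr (.inr 1)))
      refine key _ _ _ (by omega) ?_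
      simp only [F1, SimpleGraph.fromRel_adj]
      refine iff_of_true (by omega) ⟨by simp, by simp⟩
    · show fo i ≠ b ∧ (G.Adj (fo i) b ↔ (F1 m).Adj (.inl i) (.inr (.inr 2)))
      refine key _ _ _ (by omega) ?_
      simp only [F1, SimpleGraph.fromRel_adj]
      refine iff_of_true (by omega) ⟨by simp, by simp⟩
    · show fo i ≠ z ∧ (G.Adj (fo i) z ↔ (F1 m).Adj (.inl i) (.inr (.inr 3)))
      refine key _ _ _ (by omega) ?_
      simp only [F1, SimpleGraph.fromRel_adj]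
      refine iff_of_false (by omega) (by simp)
  have T5 : ∀ (i : Fin m) (j : Fin 4), f (.inr (.inl i)) ≠ f (.inr (.inr j)) ∧
      (G.Adj (f (.inr (.inl i))) (f (.inr (.inr j))) ↔
        (F1 m).Adj (.inr (.inl i)) (.inr (.inr j))) := by
    intro i j
    have h5 := hq i
    have h6 : (r z < l (fq i)) ∨ (r (fq i) < l z) := by
      rcases hz' with h | h
      · left; have := h.2.1; omega
      · exact Or.inr (h.2.2 i)
    fin_cases j
    · show fq i ≠ p ∧ (G.Adj (fq i) p ↔ (F1 m).Adj (.inr (.inl i)) (.inr (.inr 0)))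
      refine key _ _ _ (by omega) ?_
      simp only [F1, SimpleGraph.fromRel_adj]
      refine iff_of_true (by omega) ⟨by simp, by simp⟩
    · show fq i ≠ a ∧ (G.Adj (fq i) a ↔ (F1 m).Adj (.inr (.inl i)) (.inr (.inr 1)))
      refine key _ _ _ (by omega) ?_
      simp only [F1, SimpleGraph.fromRel_adj]
      refine iff_of_false (by omega) (by simp)
    · show fq i ≠ b ∧ (G.Adj (fq i) b ↔ (F1 m).Adj (.inr (.inl i)) (.inr (.inr 2)))
      refine key _ _ _ (by omega) ?_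
      simp only [F1, SimpleGraph.fromRel_adj]
      refine iff_of_true (by omega) ⟨by simp, by simp⟩
    · show fq i ≠ z ∧ (G.Adj (fq i) z ↔ (F1 m).Adj (.inr (.inl i)) (.inr (.inr 3)))
      refine key _ _ _ (by omega) ?_
      simp only [F1, SimpleGraph.fromRel_adj]
      refine iff_of_false (by omega) (by simp)
  have T6 : ∀ (i j : Fin 4), i < j → f (.inr (.inr i)) ≠ f (.inr (.inr j)) ∧
      (G.Adj (f (.inr (.inr i))) (f (.inr (.inr j))) ↔
        (F1 m).Adj (.inr (.inr i)) (.inr (.inr j))) := by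
    intro i j hij
    fin_cases i <;> fin_cases j <;> first | (exact absurd hij (by decide)) | skip
    · show p ≠ a ∧ (G.Adj p a ↔ (F1 m).Adj (.inr (.inr 0)) (.inr (.inr 1)))
      refine key _ _ _ (by omega) ?_
      simp only [F1, SimpleGraph.fromRel_adj]
      refine iff_of_true (by omega) ⟨by simp, by simp⟩
    · show p ≠ b ∧ (G.Adj p b ↔ (F1 m).Adj (.inr (.inr 0)) (.inr (.inr 2)))
      refine key _ _ _ (by omega) ?_
      simp only [F1, SimpleGraph.fromRel_adj]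
      refine iff_of_false (by omega) (by simp)
    · show p ≠ z ∧ (G.Adj p z ↔ (F1 m).Adj (.inr (.inr 0)) (.inr (.inr 3)))
      refine key _ _ _ (by omega) ?_
      simp only [F1, SimpleGraph.fromRel_adj]
      refine iff_of_false (by omega) (by simp)
    · show a ≠ b ∧ (G.Adj a b ↔ (F1 m).Adj (.inr (.inr 1)) (.inr (.inr 2)))
      refine key _ _ _ (by omega) ?_
      simp only [F1, SimpleGraph.fromRel_adj]
      refine iff_of_false (by omega) (by simp)
    · show a ≠ z ∧ (G.Adj a z ↔ (F1 m).Adj (.inr (.inr 1)) (.inr (.inr 3)))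
      refine key _ _ _ (by omega) ?_
      simp only [F1, SimpleGraph.fromRel_adj]
      refine iff_of_false (by omega) (by simp)
    · show b ≠ z ∧ (G.Adj b z ↔ (F1 m).Adj (.inr (.inr 2)) (.inr (.inr 3)))
      refine key _ _ _ (by omega) ?_
      simp only [F1, SimpleGraph.fromRel_adj]
      refine iff_of_false (by omega) (by simp)
  have sw : ∀ x y, (f x ≠ f y ∧ (G.Adj (f x) (f y) ↔ (F1 m).Adj x y)) →
      (f y ≠ f x ∧ (G.Adj (f y) (f x) ↔ (F1 m).Adj y x)) := by
    intro x y h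
    rw [G.adj_comm, (F1 m).adj_comm]
    exact ⟨h.1.symm, h.2⟩
  rintro (i | i | i) (j | j | j) hxy
  · exact T1 i j (fun h => hxy (by rw [h]))
  · exact T2 i j
  · exact T4 i j
  · exact sw (.inl j) (.inr (.inl i)) (T2 j i)
  · exact T3 i j (fun h => hxy (by rw [h]))
  · exact T5 i j
  · exact sw (.inl j) (.inr (.inr i)) (T4 j i)
  · exact sw (.inr (.inl j)) (.inr (.inr i)) (T5 j i)
  · rcases lt_trichotomy i j with h | h | h
    · exact T6 i j h
    · exact absurd (by rw [h]) hxy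
    · exact sw (.inr (.inr j)) (.inr (.inr i)) (T6 j i h)

end Pool.Agent.H73R2.Iv
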