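import Pool.Agent.H73R2.Iv.S1a

set_option autoImplicit false
set_option linter.unusedSectionVars false

/-! Sufficiency for `F1`: consequences of freeness. -/

namespace Pool.Agent.H73R2.Iv

open Finset Classical Pool.Agent.H175R2

variable {V : Type} [Fintype V] {G : SimpleGraph V} {l r : V → ℕ} {m p0 p1 : ℕ}

/-- covers of `y` extending to the right -/
noncomputable def RDs (l r : V → ℕ) (p0 p1 : ℕ) (y : V) : Finset V :=
  univ.filter fun o => p0 < l o ∧ r o < p1 ∧ l o ≤ l y ∧ r y < r o

/-- covers of `y` extending to the left -/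
noncomputable def LDs (l r : V → ℕ) (p0 p1 : ℕ) (y : V) : Finset V :=
  univ.filter fun o => p0 < l o ∧ r o < p1 ∧ l o < l y ∧ r y ≤ r o

structure H1 (l r : V → ℕ) (p0 p1 m : ℕ) : Prop where
  le : ∀ v, l v ≤ r v
  pos : 1 ≤ m
  lo : ∀ v, p0 ≤ l v
  hi : ∀ v, r v ≤ p1
  ER : ∀ e a, p0 < l e → p0 < l a → l e ≤ r a → m ≤ (RDs l r p0 p1 e).card →
    (univ.filter fun z => r a < l z ∧ l z ≤ r e ∧ r e < r z).card < m
  EL : ∀ e a, r e < p1 → r a < p1 → l a ≤ r e → m ≤ (LDs l r p0 p1 e).card →
    (univ.filter fun z => r z < l a ∧ l e ≤ r z ∧ l z < l e).card < m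
  VR : ∀ (c : ℕ) (B : Finset V), (∀ y ∈ B, p0 < l y ∧ r y < p1 ∧ l y ≤ c ∧ c ≤ r y ∧
    (RDs l r p0 p1 y).card < m) → (B.image r).card ≤ 3 * m * m
  VL : ∀ (c : ℕ) (B : Finset V), (∀ y ∈ B, p0 < l y ∧ r y < p1 ∧ l y ≤ c ∧ c ≤ r y ∧
    (LDs l r p0 p1 y).card < m) → (B.image l).card ≤ 3 * m * m

/-- next left end after `q` -/
lemma exists_next (hr : Rep G l r) {q : ℕ} {y0 : V} (hy0 : q < r y0) :
    ∃ b, q < l b ∧ ∀ y, q < r y → l b ≤ r y := by
  obtain ⟨w0, hw0⟩ := hr.tr y0
  obtain ⟨b, hb, hbmin⟩ := Finset.exists_min_image (univ.filter fun w => q < l w) l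
    ⟨w0, by rw [mem_filter]; exact ⟨mem_univ _, by omega⟩⟩
  simp only [mem_filter, mem_univ, true_and] at hb
  refine ⟨b, hb, fun y hy => ?_⟩
  obtain ⟨w, hw⟩ := hr.tr y
  have := hbmin w (by rw [mem_filter]; exact ⟨mem_univ _, by omega⟩)
  omega

lemma ER_of_free (hr : Rep G l r) (hfree : ¬ (F1 m).IsIndContained G) (hm : 1 ≤ m)
    {v0 : V} (hv0 : r v0 = p0) :
    ∀ e a, p0 < l e → p0 < l a → l e ≤ r a → m ≤ (RDs l r p0 p1 e).card →
    (univ.filter fun z => r a < l z ∧ l z ≤ r e ∧ r e < r z).card < m := by
  intro e a he ha hea hRD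
  by_contra hcon
  push Not at hcon
  obtain ⟨o, ho⟩ := card_pos.1 (show 0 < (RDs l r p0 p1 e).card by omega)
  simp only [RDs, mem_filter, mem_univ, true_and] at ho
  obtain ⟨b, hb1, hb2⟩ := exists_next hr (q := r e) (y0 := o) ho.2.2.2
  apply hfree
  refine pat1 (G := G) hr.adj hr.le (p := e) (a := a) (b := b) (z := v0) (s := r a) (t := l b)
    hea hb1 rfl rfl ?_ ?_ (Or.inl ⟨by omega, by omega, ?_⟩) hRD hcon hm
  · intro y hy
    simp only [RDs, mem_filter, mem_univ, true_and] at hy
    exact ⟨by omega, hb2 y hy.2.2.2⟩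
  · intro y hy
    simp only [mem_filter, mem_univ, true_and] at hy
    exact ⟨hy.1, hy.2.1, hb2 y hy.2.2⟩
  · intro y hy
    simp only [RDs, mem_filter, mem_univ, true_and] at hy
    omega

/-- no long chains -/
lemma no_chain (hr : Rep G l r) (hfree : ¬ (F1 m).IsIndContained G) (hm : 1 ≤ m)
    {v0 w0 : V} (hv0 : r v0 = p0) (hw0 : l w0 = p1) (hhi : ∀ v, r v ≤ p1)
    (y : ℕ → V) (hmid : ∀ i ≤ 3 * m, p0 < l (y i) ∧ r (y i) < p1)
    (hch : ∀ i j, i < j → j ≤ 3 * m → l (y i) < l (y j) ∧ r (y i) < r (y j))
    (hc : l (y (3 * m)) ≤ r (y 0)) : False := by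
  have hchl : ∀ i j, i ≤ j → j ≤ 3 * m → l (y i) ≤ l (y j) ∧ r (y i) ≤ r (y j) := by
    intro i j hij hj
    rcases hij.eq_or_lt with h | h
    · subst h; exact ⟨le_rfl, le_rfl⟩
    · have := hch i j h hj
      exact ⟨this.1.le, this.2.le⟩
  have hinj : ∀ i j, i ≤ 3 * m → j ≤ 3 * m → y i = y j → i = j := by
    intro i j hi hj h
    rcases lt_trichotomy i j with h1 | h1 | h1
    · have := hch i j h1 hj
      rw [h] at this
      omega
    · exact h1
    · have := hch j i h1 hi
      rw [h] at this
      omega
  by_cases hA : ∃ i ≤ m, ∃ b, r b < p1 ∧ r (y i) < l b ∧ l b ≤ r (y (i + 1))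
  · obtain ⟨i, hi, b, hb1, hb2, hb3⟩ := hA
    obtain ⟨a, ha⟩ := hr.tl (y (i + m))
    apply hfree
    refine pat1 (G := G) hr.adj hr.le (p := y i) (a := a) (b := b) (z := w0)
      (s := l (y (i + m))) (t := l b) (O := (range m).image fun j => y (i + 1 + j))
      (Q := (range m).image fun j => y (i + m + 1 + j))
      (hchl i (i + m) (by omega) (by omega)).1 hb2 ha rfl ?_ ?_
      (Or.inr ⟨by omega, ?_, ?_⟩) ?_ ?_ hm
    · intro z hz
      rw [mem_image] at hz
      obtain ⟨j, hj, rfl⟩ := hz
      rw [mem_range] at hj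
      have h1 := hchl (i + 1 + j) (i + m) (by omega) (by omega)
      have h2 := hchl (i + 1) (i + 1 + j) (by omega) (by omega)
      omega
    · intro z hz
      rw [mem_image] at hz
      obtain ⟨j, hj, rfl⟩ := hz
      rw [mem_range] at hj
      have h1 := hch (i + m) (i + m + 1 + j) (by omega) (by omega)
      have h2 := hchl (i + 1) (i + m + 1 + j) (by omega) (by omega)
      have h3 := hchl (i + m + 1 + j) (3 * m) (by omega) (by omega)
      have h4 := hchl 0 i (by omega) (by omega)
      omega
    · intro z hz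
      rw [mem_image] at hz
      obtain ⟨j, hj, rfl⟩ := hz
      rw [mem_range] at hj
      have := hmid (i + 1 + j) (by omega)
      omega
    · intro z hz
      rw [mem_image] at hz
      obtain ⟨j, hj, rfl⟩ := hz
      rw [mem_range] at hj
      have := hmid (i + m + 1 + j) (by omega)
      omega
    · rw [card_image_of_injOn, card_range]
      intro j hj j' hj' h
      simp only [coe_range, Set.mem_Iio] at hj hj'
      have := hinj _ _ (by omega) (by omega) h
      omega
    · rw [card_image_of_injOn, card_range]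
      intro j hj j' hj' h
      simp only [coe_range, Set.mem_Iio] at hj hj'
      have := hinj _ _ (by omega) (by omega) h
      omega
  · push Not at hA
    have hB : ∀ i, ∃ b, l b = r (y (i + 1)) := fun i => hr.tr _
    choose b hb using hB
    have hb1 : ∀ i ≤ m, r (b i) = p1 := by
      intro i hi
      have h1 := hhi (b i)
      have h2 := hch i (i + 1) (by omega) (by omega)
      by_contra hne
      have := hA i hi (b i) (by omega) (by rw [hb]; exact h2.2)
      rw [hb] at this
      omega
    apply hfree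
    refine pat1 (G := G) hr.adj hr.le (p := y m) (a := y 0) (b := b m) (z := v0)
      (s := r (y 0)) (t := r (y (m + 1))) (O := (range m).image fun j => y (m + 1 + j))
      (Q := (range m).image b)
      ?_ (hch m (m + 1) (by omega) (by omega)).2 rfl (hb m) ?_ ?_
      (Or.inl ⟨?_, ?_, ?_⟩) ?_ ?_ hm
    · have := hchl m (3 * m) (by omega) (by omega)
      omega
    · intro z hz
      rw [mem_image] at hz
      obtain ⟨j, hj, rfl⟩ := hz
      rw [mem_range] at hj
      have h1 := hchl (m + 1 + j) (3 * m) (by omega) (by omega)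
      have h2 := hchl (m + 1) (m + 1 + j) (by omega) (by omega)
      omega
    · intro z hz
      rw [mem_image] at hz
      obtain ⟨j, hj, rfl⟩ := hz
      rw [mem_range] at hj
      have h1 := hch 0 (j + 1) (by omega) (by omega)
      have h2 := hchl (j + 1) m (by omega) (by omega)
      have h3 := hb1 j (by omega)
      have h4 := hhi (y (m + 1))
      rw [hb]
      omega
    · have := hmid 0 (by omega)
      omega
    · have := hmid m (by omega)
      omega
    · intro z hz
      rw [mem_image] at hz
      obtain ⟨j, hj, rfl⟩ := hz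
      rw [mem_range] at hj
      have := hmid (m + 1 + j) (by omega)
      omega
    · rw [card_image_of_injOn, card_range]
      intro j hj j' hj' h
      simp only [coe_range, Set.mem_Iio] at hj hj'
      have := hinj _ _ (by omega) (by omega) h
      omega
    · rw [card_image_of_injOn, card_range]
      intro j hj j' hj' h
      simp only [coe_range, Set.mem_Iio] at hj hj'
      have h1 : l (b j) = l (b j') := by rw [h]
      rw [hb, hb] at h1
      rcases lt_trichotomy j j' with h2 | h2 | h2
      · have := hch (j + 1) (j' + 1) (by omega) (by omega)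
        omega
      · exact h2
      · have := hch (j' + 1) (j + 1) (by omega) (by omega)
        omega

/-- extracting chains -/
lemma extract (n : ℕ) : ∀ B : Finset V, (∀ y ∈ B, p0 < l y ∧ r y < p1 ∧
    (RDs l r p0 p1 y).card < m) → n * m < (B.image r).card →
    ∃ y : ℕ → V, (∀ i ≤ n, y i ∈ B) ∧
      ∀ i j, i < j → j ≤ n → l (y i) < l (y j) ∧ r (y i) < r (y j) := by
  induction n with
  | zero =>
    intro B _ hc
    obtain ⟨v, hv⟩ := card_pos.1 (show 0 < (B.image r).card by omega)
    rw [mem_image] at hv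
    obtain ⟨y, hy, _⟩ := hv
    exact ⟨fun _ => y, fun _ _ => hy, fun i j h1 h2 => by omega⟩
  | succ n ih =>
    intro B hB hc
    have hne : B.Nonempty := by
      rw [← Finset.image_nonempty (f := r)]
      exact card_pos.1 (by omega)
    obtain ⟨y, hy, hmin⟩ := B.exists_min_image r hne
    set B' := B.filter fun z => r y < r z ∧ l y < l z with hB'
    have hs : B.image r ⊆ insert (r y) (B'.image r ∪ (RDs l r p0 p1 y).image r) := by
      intro v hv
      rw [mem_image] at hv
      obtain ⟨z, hz, rfl⟩ := hv
      rcases (hmin z hz).eq_or_lt with h | h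
      · rw [← h]; exact mem_insert_self _ _
      · apply mem_insert_of_mem
        rw [mem_union]
        by_cases h1 : l y < l z
        · left
          exact mem_image_of_mem _ (by rw [hB', mem_filter]; exact ⟨hz, h, h1⟩)
        · right
          apply mem_image_of_mem
          simp only [RDs, mem_filter, mem_univ, true_and]
          have := hB z hz
          exact ⟨this.1, this.2.1, by omega, h⟩
    have h1 := card_le_card hs
    have h2 := card_insert_le (r y) (B'.image r ∪ (RDs l r p0 p1 y).image r)
    have h3 := card_union_le (B'.image r) ((RDs l r p0 p1 y).image r)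
    have h4 := card_image_le (s := RDs l r p0 p1 y) (f := r)
    have h5 := (hB y hy).2.2
    have h6 : (n + 1) * m = n * m + m := by ring
    obtain ⟨f, hf1, hf2⟩ := ih B' (fun z hz => hB z (filter_subset _ _ hz)) (by omega)
    have hfB : ∀ i ≤ n, f i ∈ B ∧ r y < r (f i) ∧ l y < l (f i) := by
      intro i hi
      have := hf1 i hi
      rw [hB', mem_filter] at this
      exact this
    refine ⟨fun i => if i = 0 then y else f (i - 1), ?_, ?_⟩
    · intro i hi
      by_cases h0 : i = 0
      · simp [h0, hy]
      · simp only [h0, if_false]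
        exact (hfB (i - 1) (by omega)).1
    · intro i j hij hj
      have hj0 : j ≠ 0 := by omega
      by_cases h0 : i = 0
      · simp only [h0, hj0, if_true, if_false]
        have := hfB (j - 1) (by omega)
        exact ⟨this.2.2, this.2.1⟩
      · simp only [h0, hj0, if_false]
        exact hf2 (i - 1) (j - 1) (by omega) (by omega)

lemma VR_of_free (hr : Rep G l r) (hfree : ¬ (F1 m).IsIndContained G) (hm : 1 ≤ m)
    {v0 w0 : V} (hv0 : r v0 = p0) (hw0 : l w0 = p1) (hhi : ∀ v, r v ≤ p1) :
    ∀ (c : ℕ) (B : Finset V), (∀ y ∈ B, p0 < l y ∧ r y < p1 ∧ l y ≤ c ∧ c ≤ r y ∧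
      (RDs l r p0 p1 y).card < m) → (B.image r).card ≤ 3 * m * m := by
  intro c B hB
  by_contra hcon
  push Not at hcon
  obtain ⟨y, hy1, hy2⟩ := extract (l := l) (r := r) (p0 := p0) (p1 := p1) (m := m) (3 * m) B
    (fun z hz => ⟨(hB z hz).1, (hB z hz).2.1, (hB z hz).2.2.2.2⟩) hcon
  refine no_chain hr hfree hm hv0 hw0 hhi y (fun i hi => ?_) hy2 ?_
  · have := hB _ (hy1 i hi)
    exact ⟨this.1, this.2.1⟩
  · have h1 := hB _ (hy1 (3 * m) le_rfl)
    have h2 := hB _ (hy1 0 (by omega))
    omega

lemma h1_of_free [Nonempty V] (hr : Rep G l r) (hfree : ¬ (F1 m).IsIndContained G)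
    (hm : 1 ≤ m) : ∃ p0 p1, H1 l r p0 p1 m := by
  obtain ⟨u0, _, hu0⟩ := Finset.exists_min_image (univ : Finset V) l univ_nonempty
  obtain ⟨u1, _, hu1⟩ := Finset.exists_max_image (univ : Finset V) r univ_nonempty
  obtain ⟨v0, hv0⟩ := hr.tl u0
  obtain ⟨w0, hw0⟩ := hr.tr u1
  have hlo : ∀ v, l u0 ≤ l v := fun v => hu0 v (mem_univ _)
  have hhi : ∀ v, r v ≤ r u1 := fun v => hu1 v (mem_univ _)
  refine ⟨l u0, r u1, hr.le, hm, hlo, hhi, ER_of_free hr hfree hm hv0, ?_,
    VR_of_free hr hfree hm hv0 hw0 hhi, ?_⟩
  · intro e a he ha hae hLD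
    set M := r u1 with hM
    have hr' := hr.reflect (M := M) hhi
    have h := ER_of_free (p0 := M - M) (p1 := M - l u0) hr' hfree hm (v0 := w0)
      (by show M - l w0 = M - M; rw [hw0]) e a
      (by show M - M < M - r e; omega) (by show M - M < M - r a; omega)
      (by show M - r e ≤ M - l a; omega) (by
        refine hLD.trans (card_le_card ?_)
        intro o ho
        simp only [LDs, RDs, mem_filter, mem_univ, true_and] at ho ⊢
        have h1 := hhi o
        have h2 := hlo o
        have h3 := hr.le o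
        have h4 := hlo e
        have h5 := hr.le e
        omega)
    refine lt_of_le_of_lt (card_le_card ?_) h
    intro z hz
    simp only [mem_filter, mem_univ, true_and] at hz ⊢
    have h1 := hhi z
    have h2 := hhi a
    have h3 := hhi e
    have h4 := hr.le e
    have h5 := hr.le a
    have h6 := hr.le z
    omega
  · intro c B hB
    set M := r u1 with hM
    have hr' := hr.reflect (M := M) hhi
    have hhi' : ∀ v, (fun v => M - l v) v ≤ M - l u0 := by
      intro v
      have := hlo v
      show M - l v ≤ M - l u0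
      omega
    have h := VR_of_free (p0 := M - M) (p1 := M - l u0) hr' hfree hm (v0 := w0) (w0 := v0)
      (by show M - l w0 = M - M; rw [hw0]) (by show M - r v0 = M - l u0; rw [hv0]) hhi'
      (M - c) B (by
        intro y hy
        have h1 := hB y hy
        have h2 := hhi y
        have h3 := hlo y
        refine ⟨by omega, by omega, by omega, by omega, lt_of_le_of_lt (card_le_card ?_)
          h1.2.2.2.2⟩
        intro o ho
        simp only [LDs, RDs, mem_filter, mem_univ, true_and] at ho ⊢
        have h4 := hhi o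
        have h5 := hlo o
        have h6 := hr.le o
        have h7 := hr.le y
        omega)
    have e : B.image (fun v => M - l v) = (B.image l).image (fun x => M - x) := by
      rw [image_image]; rfl
    rw [e, card_image_of_injOn] at h
    · exact h
    · intro x hx x' hx' hxx
      simp only [coe_image, Set.mem_image, mem_coe] at hx hx'
      obtain ⟨y, hy, rfl⟩ := hx
      obtain ⟨y', hy', rfl⟩ := hx'
      have h1 := hhi y
      have h2 := hhi y'
      have h3 := hr.le y
      have h4 := hr.le y'
      simp only at hxx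
      omega

end Pool.Agent.H73R2.Iv
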