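import Pool.Agent.H73R2.Iv.S1b

set_option autoImplicit false
set_option linter.unusedSectionVars false

/-! Sufficiency for `F1`: deep elements. -/

namespace Pool.Agent.H73R2.Iv

open Finset Classical Pool.Agent.H175R2

variable {V : Type} [Fintype V] {G : SimpleGraph V} {l r : V → ℕ} {m p0 p1 : ℕ}

def Deep (l r : V → ℕ) (p0 p1 m : ℕ) (e : V) : Prop :=
  p0 < l e ∧ r e < p1 ∧ m ≤ (RDs l r p0 p1 e).card ∧ m ≤ (LDs l r p0 p1 e).card

lemma Deep.sub {e y : V} (h : Deep l r p0 p1 m e) (h1 : l e ≤ l y) (h2 : r y ≤ r e) :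
    Deep l r p0 p1 m y := by
  refine ⟨lt_of_lt_of_le h.1 h1, lt_of_le_of_lt h2 h.2.1, h.2.2.1.trans (card_le_card ?_),
    h.2.2.2.trans (card_le_card ?_)⟩
  · intro o ho
    simp only [RDs, mem_filter, mem_univ, true_and] at ho ⊢
    omega
  · intro o ho
    simp only [LDs, mem_filter, mem_univ, true_and] at ho ⊢
    omega

/-- middle elements inside `e` -/
noncomputable def Dn (l r : V → ℕ) (p0 p1 : ℕ) (e : V) : Finset V :=
  univ.filter fun y => p0 < l y ∧ r y < p1 ∧ l e ≤ l y ∧ r y ≤ r e

lemma exists_mu (hH : H1 l r p0 p1 m) {e : V} (hd : Deep l r p0 p1 m e) :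
    ∃ (μ : ℕ) (E : Finset V), E.card ≤ m ∧ (∀ y, p0 < l y → l e ≤ r y → μ ≤ r y) ∧
      ∀ z, μ < l z → l z ≤ r e → r e < r z → z ∈ E := by
  obtain ⟨a, ha, hmin⟩ := Finset.exists_min_image (univ.filter fun a => p0 < l a ∧ l e ≤ r a) r
    ⟨e, by rw [mem_filter]; exact ⟨mem_univ _, hd.1, hH.le e⟩⟩
  simp only [mem_filter, mem_univ, true_and] at ha
  refine ⟨r a, _, (hH.ER e a hd.1 ha.1 ha.2 hd.2.2.1).le, ?_, ?_⟩
  · intro y h1 h2
    exact hmin y (by rw [mem_filter]; exact ⟨mem_univ _, h1, h2⟩)
  · intro z h1 h2 h3
    simp only [mem_filter, mem_univ, true_and]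
    exact ⟨h1, h2, h3⟩

lemma exists_nu (hH : H1 l r p0 p1 m) {e : V} (hd : Deep l r p0 p1 m e) :
    ∃ (ν : ℕ) (E : Finset V), E.card ≤ m ∧ (∀ y, r y < p1 → l y ≤ r e → l y ≤ ν) ∧
      ∀ z, r z < ν → l e ≤ r z → l z < l e → z ∈ E := by
  obtain ⟨a, ha, hmax⟩ := Finset.exists_max_image (univ.filter fun a => r a < p1 ∧ l a ≤ r e) l
    ⟨e, by rw [mem_filter]; exact ⟨mem_univ _, hd.2.1, hH.le e⟩⟩
  simp only [mem_filter, mem_univ, true_and] at ha
  refine ⟨l a, _, (hH.EL e a hd.2.1 ha.1 ha.2 hd.2.2.2).le, ?_, ?_⟩
  · intro y h1 h2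
    exact hmax y (by rw [mem_filter]; exact ⟨mem_univ _, h1, h2⟩)
  · intro z h1 h2 h3
    simp only [mem_filter, mem_univ, true_and]
    exact ⟨h1, h2, h3⟩

lemma tr_le_card {A Z : Finset V} : tr G A Z ≤ A.card := card_image_le

lemma DU (hR : ∀ u v, u ≠ v → (G.Adj u v ↔ l u ≤ r v ∧ l v ≤ r u)) (hH : H1 l r p0 p1 m)
    {e : V} (hd : Deep l r p0 p1 m e) {X Z : Finset V} (hX : X ⊆ Dn l r p0 p1 e)
    (hZ : ∀ z ∈ Z, z ∉ Dn l r p0 p1 e) :
    tr G X Z ≤ 2 ^ (2 * m) := by
  obtain ⟨μ, E, hE, h1, h2⟩ := exists_mu hH hd
  obtain ⟨ν, E', hE', h3, h4⟩ := exists_nu hH hd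
  have h5 : tr G X Z ≤ 2 ^ (2 * m) * 1 := by
    refine tr_split (A := E ∪ E') (B := Z \ (E ∪ E')) ?_ (tr_le_pow' ?_) (tr_le_one ?_)
    · intro z hz
      rw [mem_union, mem_sdiff]
      tauto
    · have := card_union_le E E'
      omega
    · have key : ∀ z ∈ Z \ (E ∪ E'), (∀ y ∈ X, G.Adj y z) ∨ (∀ y ∈ X, ¬ G.Adj y z) := by
        intro z hz
        rw [mem_sdiff, mem_union, not_or] at hz
        obtain ⟨hz1, hzE, hzE'⟩ := hz
        have hzD := hZ z hz1
        have hne : ∀ y ∈ X, y ≠ z := by
          rintro y hy rfl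
          exact hzD (hX hy)
        by_cases hint : l z ≤ r e ∧ l e ≤ r z
        · left
          intro y hy
          rw [hR y z (hne y hy)]
          have hy' := hX hy
          simp only [Dn, mem_filter, mem_univ, true_and] at hy' hzD
          have hyle := hH.le y
          have hzlo := hH.lo z
          have hzhi := hH.hi z
          have d1 := hd.1
          have d2 := hd.2.1
          constructor
          · -- l y ≤ r z
            by_cases h6 : r e ≤ r z
            · omega
            · have h7 : l z < l e := by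
                by_contra h7
                exact hzD ⟨by omega, by omega, by omega, by omega⟩
              have h8 : ¬ r z < ν := fun h8 => hzE' (h4 z h8 hint.2 h7)
              have h9 := h3 y hy'.2.1 (by omega)
              omega
          · by_cases h6 : l z ≤ l e
            · omega
            · have h7 : r e < r z := by
                by_contra h7
                exact hzD ⟨by omega, by omega, by omega, by omega⟩
              have h8 : ¬ μ < l z := fun h8 => hzE (h2 z h8 hint.1 h7)
              have h9 := h1 y hy'.1 (by omega)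
              omega
        · right
          intro y hy
          rw [hR y z (hne y hy)]
          have hy' := hX hy
          simp only [Dn, mem_filter, mem_univ, true_and] at hy'
          omega
      intro y hy y' hy' z hz
      rcases key z hz with h6 | h6
      · exact iff_of_true (h6 y hy) (h6 y' hy')
      · exact iff_of_false (h6 y hy) (h6 y' hy')
  simpa using h5

/-- truncated sets -/
noncomputable def TT (l r : V → ℕ) (p0 p1 : ℕ) (e : V) (ρ : ℕ) : Finset V :=
  (Dn l r p0 p1 e).filter fun y => ρ < r y

def Rc (l r : V → ℕ) (p0 p1 m : ℕ) (e : V) (ρ : ℕ) : Prop :=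
  ρ = 0 ∨ ∃ e', Deep l r p0 p1 m e' ∧ l e' < l e ∧ r e' = ρ

lemma Tout (hR : ∀ u v, u ≠ v → (G.Adj u v ↔ l u ≤ r v ∧ l v ≤ r u)) (hH : H1 l r p0 p1 m)
    {e : V} (hd : Deep l r p0 p1 m e) {ρ : ℕ} (hc : Rc l r p0 p1 m e ρ) {X : Finset V}
    (hX : X ⊆ TT l r p0 p1 e ρ) :
    tr G X (univ \ TT l r p0 p1 e ρ) ≤ 2 ^ (2 * m) * (m + 2) := by
  refine tr_split (A := univ \ Dn l r p0 p1 e)
    (B := (Dn l r p0 p1 e).filter fun z => r z ≤ ρ) ?_
    (DU hR hH hd (hX.trans (filter_subset _ _)) (fun z hz => (mem_sdiff.1 hz).2)) ?_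
  · intro z hz
    simp only [TT, mem_sdiff, mem_union, mem_filter, mem_univ, true_and] at hz ⊢
    by_cases h : z ∈ Dn l r p0 p1 e
    · right
      exact ⟨h, by_contra fun h1 => hz ⟨h, by omega⟩⟩
    · exact Or.inl h
  · rcases hc with hc | ⟨e', hd', he', hr'⟩
    · subst hc
      refine (tr_le_one ?_).trans (by omega)
      intro y _ y' _ z hz
      exfalso
      simp only [Dn, mem_filter, mem_univ, true_and] at hz
      have := hH.le z
      omega
    · obtain ⟨μ, E, hE, h1, h2⟩ := exists_mu hH hd'
      set Z := (Dn l r p0 p1 e).filter fun z => r z ≤ ρ with hZ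
      have hXy : ∀ y ∈ X, p0 < l y ∧ r y < p1 ∧ l e ≤ l y ∧ r y ≤ r e ∧ ρ < r y := by
        intro y hy
        have := hX hy
        simp only [TT, Dn, mem_filter, mem_univ, true_and] at this
        tauto
      have hZz : ∀ z ∈ Z, p0 < l z ∧ r z < p1 ∧ l e ≤ l z ∧ r z ≤ r e ∧ r z ≤ ρ := by
        intro z hz
        simp only [hZ, Dn, mem_filter, mem_univ, true_and] at hz
        tauto
      have hne : ∀ y ∈ X, ∀ z ∈ Z, y ≠ z := by
        rintro y hy z hz rfl
        have := hXy y hy
        have := hZz y hz
        omega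
      have e1 : X ⊆ (X.filter (fun y => ρ < l y) ∪ X.filter (fun y => l y ≤ μ ∧ l y ≤ ρ)) ∪
          X.filter (fun y => μ < l y ∧ l y ≤ ρ) := by
        intro y hy
        simp only [mem_union, mem_filter]
        by_cases h3 : ρ < l y
        · exact Or.inl (Or.inl ⟨hy, h3⟩)
        · by_cases h4 : l y ≤ μ
          · exact Or.inl (Or.inr ⟨hy, h4, by omega⟩)
          · exact Or.inr ⟨hy, by omega, by omega⟩
      have t1 : tr G (X.filter fun y => ρ < l y) Z ≤ 1 := by
        apply tr_le_one
        have key : ∀ y ∈ X.filter (fun y => ρ < l y), ∀ z ∈ Z, ¬ G.Adj y z := by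
          intro y hy z hz
          rw [mem_filter] at hy
          rw [hR y z (hne y hy.1 z hz)]
          have := hZz z hz
          omega
        intro y hy y' hy' z hz
        exact iff_of_false (key y hy z hz) (key y' hy' z hz)
      have t2 : tr G (X.filter fun y => l y ≤ μ ∧ l y ≤ ρ) Z ≤ 1 := by
        apply tr_le_one
        have key : ∀ y ∈ X.filter (fun y => l y ≤ μ ∧ l y ≤ ρ), ∀ z ∈ Z, G.Adj y z := by
          intro y hy z hz
          rw [mem_filter] at hy
          rw [hR y z (hne y hy.1 z hz)]
          have h3 := hZz z hz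
          have h4 := hXy y hy.1
          have h5 := h1 z h3.1 (by have := hH.le z; omega)
          have h6 := hH.le z
          omega
        intro y hy y' hy' z hz
        exact iff_of_true (key y hy z hz) (key y' hy' z hz)
      have t3 : tr G (X.filter fun y => μ < l y ∧ l y ≤ ρ) Z ≤ m := by
        refine tr_le_card.trans ((card_le_card ?_).trans hE)
        intro y hy
        rw [mem_filter] at hy
        have h4 := hXy y hy.1
        exact h2 y hy.2.1 (by omega) (by omega)
      have t4 := tr_mono_left (G := G) (Z := Z) e1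
      have t5 := tr_union_left (G := G)
        (A := X.filter (fun y => ρ < l y) ∪ X.filter (fun y => l y ≤ μ ∧ l y ≤ ρ))
        (B := X.filter (fun y => μ < l y ∧ l y ≤ ρ)) (Z := Z)
      have t6 := tr_union_left (G := G)
        (A := X.filter (fun y => ρ < l y)) (B := X.filter (fun y => l y ≤ μ ∧ l y ≤ ρ)) (Z := Z)
      omega

/-- bound for the deep part -/
def K2 (m : ℕ) : ℕ := 2 ^ (2 * m) * (m + 2) * (1 * (2 ^ m * 2))

/-- the part of a set of deep elements inserted before `c` -/
noncomputable def PS (l r : V → ℕ) (S : Finset V) (c : ℕ) : Finset V :=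
  S.filter fun y => ∃ e ∈ S, l e < c ∧ r y ≤ r e

/-- new elements form a truncated set -/
lemma batch (hH : H1 l r p0 p1 m) {S : Finset V} {ρ c : ℕ}
    (hS : ∀ y ∈ S, Deep l r p0 p1 m y ∧ ρ < r y)
    (hS2 : ∀ e ∈ S, ∀ y, l e ≤ l y → r y ≤ r e → ρ < r y → y ∈ S)
    (hρ : ∀ e ∈ S, Rc l r p0 p1 m e ρ)
    (hne : (PS l r S (c + 1) \ PS l r S c).Nonempty) :
    ∃ e1 ∈ S, ∃ ρ1, l e1 = c ∧ Rc l r p0 p1 m e1 ρ1 ∧
      PS l r S (c + 1) \ PS l r S c = TT l r p0 p1 e1 ρ1 ∧
      (∀ y ∈ PS l r S (c + 1), r y ≤ r e1) := by
  obtain ⟨y0, hy0⟩ := hne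
  have hw : ∀ y ∈ PS l r S (c + 1) \ PS l r S c, ∃ e ∈ S, l e = c ∧ r y ≤ r e := by
    intro y hy
    simp only [PS, mem_sdiff, mem_filter, not_and, not_exists] at hy
    obtain ⟨⟨hyS, e, he, h1, h2⟩, h3⟩ := hy
    refine ⟨e, he, ?_, h2⟩
    by_contra h4
    exact (h3 hyS e he) (by omega) h2
  obtain ⟨e0, he0, hec, _⟩ := hw y0 hy0
  obtain ⟨e1, he1, hmax⟩ := (S.filter fun e => l e = c).exists_max_image r
    ⟨e0, by rw [mem_filter]; exact ⟨he0, hec⟩⟩
  rw [mem_filter] at he1
  have hmax' : ∀ e ∈ S, l e = c → r e ≤ r e1 := fun e he h =>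
    hmax e (by rw [mem_filter]; exact ⟨he, h⟩)
  have hy0' : ∀ e ∈ S, l e < c → r e < r y0 := by
    intro e he h
    simp only [PS, mem_sdiff, mem_filter, not_and, not_exists] at hy0
    by_contra h1
    exact hy0.2 hy0.1.1 e he h (by omega)
  have hy01 : r y0 ≤ r e1 := by
    obtain ⟨e, he, h1, h2⟩ := hw y0 hy0
    exact h2.trans (hmax' e he h1)
  have hall : ∀ y ∈ PS l r S (c + 1), r y ≤ r e1 := by
    intro y hy
    simp only [PS, mem_filter] at hy
    obtain ⟨_, e, he, h1, h2⟩ := hy
    rcases Nat.lt_succ_iff_lt_or_eq.1 h1 with h3 | h3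
    · have := hy0' e he h3; omega
    · exact h2.trans (hmax' e he h3)
  have hd1 := hS e1 he1.1
  by_cases hex : ∃ e ∈ S, l e < c
  · obtain ⟨e2, he2, he2c⟩ := hex
    obtain ⟨e3, he3, hmax3⟩ := (S.filter fun e => l e < c).exists_max_image r
      ⟨e2, by rw [mem_filter]; exact ⟨he2, he2c⟩⟩
    rw [mem_filter] at he3
    have hmax3' : ∀ e ∈ S, l e < c → r e ≤ r e3 := fun e he h =>
      hmax3 e (by rw [mem_filter]; exact ⟨he, h⟩)
    refine ⟨e1, he1.1, r e3, he1.2, Or.inr ⟨e3, (hS e3 he3.1).1, by omega, rfl⟩, ?_, hall⟩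
    ext y
    constructor
    · intro hy
      have hyr := hall y (sdiff_subset hy)
      simp only [PS, mem_sdiff, mem_filter, not_and, not_exists] at hy
      obtain ⟨⟨hyS, _⟩, h3⟩ := hy
      have h4 := (hS y hyS).1
      simp only [TT, Dn, mem_filter, mem_univ, true_and]
      have h5 : ¬ l y < c := fun h5 => h3 hyS y hyS h5 le_rfl
      have h6 : ¬ r y ≤ r e3 := fun h6 => h3 hyS e3 he3.1 he3.2 h6
      exact ⟨⟨h4.1, h4.2.1, by omega, hyr⟩, by omega⟩
    · intro hy
      simp only [TT, Dn, mem_filter, mem_univ, true_and] at hy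
      have h7 := (hS e3 he3.1).2
      have hyS : y ∈ S := hS2 e1 he1.1 y hy.1.2.2.1 hy.1.2.2.2 (by omega)
      simp only [PS, mem_sdiff, mem_filter, not_and, not_exists]
      refine ⟨⟨hyS, e1, he1.1, by omega, hy.1.2.2.2⟩, fun _ e he h8 h9 => ?_⟩
      have := hmax3' e he h8
      omega
  · refine ⟨e1, he1.1, ρ, he1.2, hρ e1 he1.1, ?_, hall⟩
    push Not at hex
    ext y
    constructor
    · intro hy
      have hyr := hall y (sdiff_subset hy)
      simp only [PS, mem_sdiff, mem_filter, not_and, not_exists] at hy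
      obtain ⟨⟨hyS, _⟩, h3⟩ := hy
      have h4 := (hS y hyS).1
      simp only [TT, Dn, mem_filter, mem_univ, true_and]
      have h5 := hex y hyS
      exact ⟨⟨h4.1, h4.2.1, by omega, hyr⟩, (hS y hyS).2⟩
    · intro hy
      simp only [TT, Dn, mem_filter, mem_univ, true_and] at hy
      have hyS : y ∈ S := hS2 e1 he1.1 y hy.1.2.2.1 hy.1.2.2.2 (by omega)
      simp only [PS, mem_sdiff, mem_filter, not_and, not_exists]
      refine ⟨⟨hyS, e1, he1.1, by omega, hy.1.2.2.2⟩, fun _ e he h8 h9 => ?_⟩
      have := hex e he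
      omega

theorem dt_T (hR : ∀ u v, u ≠ v → (G.Adj u v ↔ l u ≤ r v ∧ l v ≤ r u)) (hH : H1 l r p0 p1 m)
    (n : ℕ) : ∀ (e : V) (ρ : ℕ), Deep l r p0 p1 m e → Rc l r p0 p1 m e ρ → r e - l e = n →
      DT0 G (K2 m) (TT l r p0 p1 e ρ) := by
  induction n using Nat.strong_induction_on with
  | _ n ih =>
    intro e ρ hd hc hn
    set S := (TT l r p0 p1 e ρ).filter fun y => ¬ (l y = l e ∧ r y = r e) with hS
    have memS : ∀ y, y ∈ S ↔ (p0 < l y ∧ r y < p1 ∧ l e ≤ l y ∧ r y ≤ r e) ∧ ρ < r y ∧
        ¬ (l y = l e ∧ r y = r e) := by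
      intro y
      simp only [hS, TT, Dn, mem_filter, mem_univ, true_and, and_assoc]
    have hS1 : ∀ y ∈ S, Deep l r p0 p1 m y ∧ ρ < r y := by
      intro y hy
      rw [memS] at hy
      exact ⟨hd.sub hy.1.2.2.1 hy.1.2.2.2, hy.2.1⟩
    have hS2 : ∀ e' ∈ S, ∀ y, l e' ≤ l y → r y ≤ r e' → ρ < r y → y ∈ S := by
      intro e' he' y h1 h2 h3
      rw [memS] at he' ⊢
      omega
    have hρ : ∀ e' ∈ S, Rc l r p0 p1 m e' ρ := by
      intro e' he'
      rw [memS] at he'
      rcases hc with hc | ⟨e2, h1, h2, h3⟩
      · exact Or.inl hc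
      · exact Or.inr ⟨e2, h1, by omega, h3⟩
    have hmono : ∀ c, PS l r S c ⊆ PS l r S (c + 1) := by
      intro c y hy
      simp only [PS, mem_filter] at hy ⊢
      obtain ⟨h1, e', he', h2, h3⟩ := hy
      exact ⟨h1, e', he', by omega, h3⟩
    have hSle : ∀ y ∈ S, l y ≤ r y := fun y _ => hH.le y
    have hall : ∀ c, DT0 G (K2 m) (PS l r S c) := by
      intro c
      induction c with
      | zero =>
        left
        rw [PS, filter_eq_empty_iff]
        rintro y _ ⟨e', _, h, _⟩
        omega
      | succ c ihc =>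
        by_cases hne : (PS l r S (c + 1) \ PS l r S c).Nonempty
        · obtain ⟨e1, he1, ρ1, h1, h2, h3, h4⟩ := batch hH hS1 hS2 hρ hne
          have he1' := (memS e1).1 he1
          have hd1 := (hS1 e1 he1).1
          have hB : DT0 G (K2 m) (PS l r S (c + 1) \ PS l r S c) := by
            rw [h3]
            exact ih (r e1 - l e1) (by have := hH.le e1; omega) e1 ρ1 hd1 h2 rfl
          rw [← union_sdiff_of_subset (hmono c)]
          refine DT0.union disjoint_sdiff ihc hB ?_
          rw [union_sdiff_of_subset (hmono c)]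
          set X := PS l r S (c + 1) with hX
          have hXS : X ⊆ S := filter_subset _ _
          have hXT : X ⊆ TT l r p0 p1 e ρ := hXS.trans (filter_subset _ _)
          obtain ⟨μ, E, hE, hmu1, hmu2⟩ := exists_mu hH hd1
          unfold K2
          refine tr_split (A := univ \ TT l r p0 p1 e ρ)
            (B := (TT l r p0 p1 e ρ).filter (fun z => l z = l e ∧ r z = r e) ∪ (S \ X)) ?_
            (Tout hR hH hd hc hXT) (tr_split (Subset.refl _) (tr_le_one ?_) ?_)
          · intro z hz
            simp only [mem_union, mem_sdiff, mem_univ, true_and, mem_filter] at hz ⊢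
            by_cases h5 : z ∈ TT l r p0 p1 e ρ
            · by_cases h6 : l z = l e ∧ r z = r e
              · exact Or.inr (Or.inl ⟨h5, h6⟩)
              · exact Or.inr (Or.inr ⟨by rw [hS, mem_filter]; exact ⟨h5, h6⟩, hz⟩)
            · exact Or.inl h5
          · have key : ∀ y ∈ X, ∀ z ∈ (TT l r p0 p1 e ρ).filter (fun z => l z = l e ∧ r z = r e),
                G.Adj y z := by
              intro y hy z hz
              rw [mem_filter] at hz
              have h5 := (memS y).1 (hXS hy)
              have hyz : y ≠ z := by rintro rfl; exact h5.2.2 hz.2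
              rw [hR y z hyz]
              have := hH.le y
              omega
            intro y hy y' hy' z hz
            exact iff_of_true (key y hy z hz) (key y' hy' z hz)
          · -- the rest of `S`
            have hout : ∀ z ∈ S \ X, c < l z ∧ r e1 < r z := by
              intro z hz
              obtain ⟨hzS, hzX⟩ := mem_sdiff.1 hz
              constructor
              · by_contra h6
                exact hzX (by rw [hX, PS, mem_filter]; exact ⟨hzS, z, hzS, by omega, le_rfl⟩)
              · by_contra h6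
                exact hzX (by rw [hX, PS, mem_filter]; exact ⟨hzS, e1, he1, by omega, by omega⟩)
            refine tr_split (A := E) (B := (S \ X) \ E) ?_ (tr_le_pow' hE) ?_
            · intro z hz
              rw [mem_union, mem_sdiff]
              tauto
            · have hsp : X = X.filter (fun y => r y < l e1) ∪ X.filter (fun y => ¬ r y < l e1) :=
                (filter_union_filter_not_eq _ _).symm
              have t1 : tr G (X.filter fun y => r y < l e1) ((S \ X) \ E) ≤ 1 := by
                apply tr_le_one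
                have key : ∀ y ∈ X.filter (fun y => r y < l e1), ∀ z ∈ (S \ X) \ E,
                    ¬ G.Adj y z := by
                  intro y hy z hz
                  rw [mem_filter] at hy
                  rw [mem_sdiff] at hz
                  have h5 := hout z hz.1
                  have hyz : y ≠ z := by
                    rintro rfl; exact (mem_sdiff.1 hz.1).2 hy.1
                  rw [hR y z hyz]
                  omega
                intro y hy y' hy' z hz
                exact iff_of_false (key y hy z hz) (key y' hy' z hz)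
              have t2 : tr G (X.filter fun y => ¬ r y < l e1) ((S \ X) \ E) ≤ 1 := by
                apply tr_le_one
                have key : ∀ z ∈ (S \ X) \ E,
                    (∀ y ∈ X.filter (fun y => ¬ r y < l e1), G.Adj y z) ∨
                    (∀ y ∈ X.filter (fun y => ¬ r y < l e1), ¬ G.Adj y z) := by
                  intro z hz
                  rw [mem_sdiff] at hz
                  have h5 := hout z hz.1
                  by_cases h6 : l z ≤ r e1
                  · left
                    intro y hy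
                    rw [mem_filter] at hy
                    have hyz : y ≠ z := by
                      rintro rfl; exact (mem_sdiff.1 hz.1).2 hy.1
                    rw [hR y z hyz]
                    have h7 : ¬ μ < l z := fun h7 => hz.2 (hmu2 z h7 h6 h5.2)
                    have h8 := (memS y).1 (hXS hy.1)
                    have h9 := hmu1 y h8.1.1 (by omega)
                    have h10 := h4 y hy.1
                    have h11 := hH.le y
                    omega
                  · right
                    intro y hy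
                    rw [mem_filter] at hy
                    have hyz : y ≠ z := by
                      rintro rfl; exact (mem_sdiff.1 hz.1).2 hy.1
                    rw [hR y z hyz]
                    have h10 := h4 y hy.1
                    omega
                intro y hy y' hy' z hz
                rcases key z hz with h6 | h6
                · exact iff_of_true (h6 y hy) (h6 y' hy')
                · exact iff_of_false (h6 y hy) (h6 y' hy')
              have t3 := tr_union_left (G := G) (A := X.filter fun y => r y < l e1)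
                (B := X.filter fun y => ¬ r y < l e1) (Z := (S \ X) \ E)
              rw [← hsp] at t3
              omega
        · rw [not_nonempty_iff_eq_empty, sdiff_eq_empty_iff_subset] at hne
          rw [subset_antisymm hne (hmono c)]
          exact ihc
    have hfull : PS l r S (r e + 1) = S := by
      rw [PS, filter_eq_self]
      intro y hy
      refine ⟨y, hy, ?_, le_rfl⟩
      have := (memS y).1 hy
      have := hH.le y
      omega
    have h1 := hall (r e + 1)
    rw [hfull] at h1
    have e1 : TT l r p0 p1 e ρ = S ∪ (TT l r p0 p1 e ρ).filter fun z => l z = l e ∧ r z = r e := by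
      rw [hS, union_comm]
      exact (filter_union_filter_not_eq _ _).symm
    rw [e1]
    refine DT0.singles ?_ h1 ?_
    · rw [hS, disjoint_comm]
      exact disjoint_filter_filter_not _ _ _
    · intro U hU _
      have hs : S ∪ U ⊆ TT l r p0 p1 e ρ := by
        apply union_subset
        · exact filter_subset _ _
        · exact hU.trans (filter_subset _ _)
      unfold K2
      refine tr_split (A := univ \ TT l r p0 p1 e ρ)
        (B := (TT l r p0 p1 e ρ).filter (fun z => l z = l e ∧ r z = r e) \ U) ?_
        (Tout hR hH hd hc hs) ((tr_le_one ?_).trans ?_)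
      · intro z hz
        simp only [mem_union, mem_sdiff, mem_univ, true_and, mem_filter, not_or] at hz ⊢
        by_cases h5 : z ∈ TT l r p0 p1 e ρ
        · by_cases h6 : l z = l e ∧ r z = r e
          · exact Or.inr ⟨⟨h5, h6⟩, hz.2⟩
          · exact absurd (by rw [hS, mem_filter]; exact ⟨h5, h6⟩) hz.1
        · exact Or.inl h5
      · have key : ∀ y ∈ S ∪ U,
            ∀ z ∈ (TT l r p0 p1 e ρ).filter (fun z => l z = l e ∧ r z = r e) \ U, G.Adj y z := by
          intro y hy z hz
          rw [mem_sdiff, mem_filter] at hz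
          have hyT := hs hy
          have hyz : y ≠ z := by
            rintro rfl
            rcases mem_union.1 hy with h5 | h5
            · exact ((memS y).1 h5).2.2 hz.1.2
            · exact hz.2 h5
          rw [hR y z hyz]
          simp only [TT, Dn, mem_filter, mem_univ, true_and] at hyT
          have := hH.le y
          omega
        intro y hy y' hy' z hz
        exact iff_of_true (key y hy z hz) (key y' hy' z hz)
      · have : 0 < 2 ^ m := by positivity
        omega

end Pool.Agent.H73R2.Iv
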