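import Pool.Agent.H73R2.Iv.S1c

set_option autoImplicit false
set_option linter.unusedSectionVars false

/-! Sufficiency for `F1`: top level. -/

namespace Pool.Agent.H73R2.Iv

open Finset Classical Pool.Agent.H175R2

variable {V : Type} [Fintype V] {G : SimpleGraph V} {l r : V → ℕ} {m p0 p1 : ℕ}

/-- inserted at the left end -/
def Sh1 (l r : V → ℕ) (p0 p1 m : ℕ) (y : V) : Prop :=
  (p0 < l y ∧ r y < p1 ∧ (RDs l r p0 p1 y).card < m) ∨ (p0 < l y ∧ r y = p1)

/-- inserted at the right end -/
def Sh2 (l r : V → ℕ) (p0 p1 m : ℕ) (y : V) : Prop :=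
  (p0 < l y ∧ r y < p1 ∧ m ≤ (RDs l r p0 p1 y).card ∧ (LDs l r p0 p1 y).card < m) ∨
    (l y = p0 ∧ r y < p1)

def Ins1 (l r : V → ℕ) (p0 p1 m c : ℕ) (y : V) : Prop :=
  (Sh1 l r p0 p1 m y ∧ l y < c) ∨ (Sh2 l r p0 p1 m y ∧ r y < c) ∨
    (Deep l r p0 p1 m y ∧ ∃ e, Deep l r p0 p1 m e ∧ l e < c ∧ r y ≤ r e)

lemma trichotomy (hH : H1 l r p0 p1 m) (y : V) : Sh1 l r p0 p1 m y ∨ Sh2 l r p0 p1 m y ∨
    Deep l r p0 p1 m y ∨ (l y = p0 ∧ r y = p1) := by
  have h1 := hH.lo y
  have h2 := hH.hi y
  unfold Sh1 Sh2 Deep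
  omega

noncomputable def QQ (l r : V → ℕ) (p0 p1 m c : ℕ) : Finset V :=
  univ.filter fun y => Ins1 l r p0 p1 m c y

/-- all deep elements -/
noncomputable def DD (l r : V → ℕ) (p0 p1 m : ℕ) : Finset V :=
  univ.filter fun y => Deep l r p0 p1 m y

def K3 (m : ℕ) : ℕ :=
  1 * (((3 * m * m + 3) + 1 + 2 ^ (2 * m)) * (1 + ((3 * m * m + 2) + 2 ^ m) + 2 ^ (2 * m)))

lemma tr_le_sum3 {X A B C Z : Finset V} {a b c : ℕ} (h : X ⊆ A ∪ B ∪ C) (hA : tr G A Z ≤ a)
    (hB : tr G B Z ≤ b) (hC : tr G C Z ≤ c) : tr G X Z ≤ a + b + c := by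
  have h1 := tr_mono_left (G := G) (Z := Z) h
  have h2 := tr_union_left (G := G) (A := A ∪ B) (B := C) (Z := Z)
  have h3 := tr_union_left (G := G) (A := A) (B := B) (Z := Z)
  omega

lemma top_thin (hR : ∀ u v, u ≠ v → (G.Adj u v ↔ l u ≤ r v ∧ l v ≤ r u))
    (hH : H1 l r p0 p1 m) {c : ℕ} {X : Finset V}
    (hX1 : ∀ z, Ins1 l r p0 p1 m c z → z ∈ X)
    (hX2 : ∀ z ∈ X, Ins1 l r p0 p1 m (c + 1) z)
    (hX3 : ∀ z, Deep l r p0 p1 m z → Ins1 l r p0 p1 m (c + 1) z → z ∈ X) :
    tr G X (univ \ X) ≤ K3 m := by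
  set Zi := (univ \ X).filter fun z => ¬ (l z = p0 ∧ r z = p1) ∧ l z ≤ c with hZi
  set Zj := (univ \ X).filter fun z => ¬ (l z = p0 ∧ r z = p1) ∧ c < l z with hZj
  set ZD := (univ \ X).filter fun z => l z = p0 ∧ r z = p1 with hZD
  have hne : ∀ y ∈ X, ∀ z ∈ univ \ X, y ≠ z := by
    rintro y hy z hz rfl
    exact (mem_sdiff.1 hz).2 hy
  -- facts about the elements of `X`
  have hXs : ∀ y ∈ X, c < l y → Deep l r p0 p1 m y ∧ ∃ e, Deep l r p0 p1 m e ∧ l e < c + 1 ∧
      r y ≤ r e := by
    intro y hy hc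
    rcases hX2 y hy with h | h | h
    · omega
    · have := hH.le y
      omega
    · exact h
  -- facts about `Zi`
  have hZi1 : ∀ z ∈ Zi, l z ≤ c ∧ c ≤ r z ∧ (l z = c ∨ l z = p0 ∨
      (p0 < l z ∧ r z < p1 ∧ l z ≤ c ∧ c ≤ r z ∧ (LDs l r p0 p1 z).card < m)) := by
    intro z hz
    simp only [hZi, mem_filter, mem_sdiff, mem_univ, true_and] at hz
    obtain ⟨hzX, hzD, hzc⟩ := hz
    rcases trichotomy hH z with h | h | h | h
    · have h1 : l z = c := by
        by_contra h1
        exact hzX (hX1 z (Or.inl ⟨h, by omega⟩))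
      have := hH.le z
      exact ⟨hzc, by omega, Or.inl h1⟩
    · have h1 : c ≤ r z := by
        by_contra h1
        exact hzX (hX1 z (Or.inr (Or.inl ⟨h, by omega⟩)))
      refine ⟨hzc, h1, ?_⟩
      rcases h with h | h
      · exact Or.inr (Or.inr ⟨h.1, h.2.1, hzc, h1, h.2.2.2⟩)
      · exact Or.inr (Or.inl h.1)
    · exfalso
      exact hzX (hX3 z h (Or.inr (Or.inr ⟨h, z, h, by omega, le_rfl⟩)))
    · exact absurd h hzD
  have hsplit : X ⊆ (X.filter (fun y => r y < c) ∪ X.filter (fun y => l y ≤ c ∧ c ≤ r y)) ∪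
      X.filter (fun y => c < l y) := by
    intro y hy
    simp only [mem_union, mem_filter]
    by_cases h1 : r y < c
    · exact Or.inl (Or.inl ⟨hy, h1⟩)
    · by_cases h2 : l y ≤ c
      · exact Or.inl (Or.inr ⟨hy, h2, by omega⟩)
      · exact Or.inr ⟨hy, by omega⟩
  -- deep elements starting after `c`
  have hgamma : ∀ Z ⊆ univ \ X, tr G (X.filter fun y => c < l y) Z ≤ 2 ^ (2 * m) := by
    intro Z hZ
    rcases (X.filter fun y => c < l y).eq_empty_or_nonempty with h0 | ⟨y0, hy0⟩
    · rw [h0]; unfold tr; simp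
    · rw [mem_filter] at hy0
      obtain ⟨_, e0, he0, he0c, _⟩ := hXs y0 hy0.1 hy0.2
      obtain ⟨e, he, hmax⟩ := (univ.filter fun e => Deep l r p0 p1 m e ∧ l e < c + 1).exists_max_image
        r ⟨e0, by rw [mem_filter]; exact ⟨mem_univ _, he0, he0c⟩⟩
      simp only [mem_filter, mem_univ, true_and] at he
      apply DU hR hH he.1
      · intro y hy
        rw [mem_filter] at hy
        obtain ⟨hd, e1, he1, h1, h2⟩ := hXs y hy.1 hy.2
        have h3 := hmax e1 (by rw [mem_filter]; exact ⟨mem_univ _, he1, h1⟩)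
        simp only [Dn, mem_filter, mem_univ, true_and]
        exact ⟨hd.1, hd.2.1, by omega, by omega⟩
      · intro z hz hzD
        simp only [Dn, mem_filter, mem_univ, true_and] at hzD
        have hd := he.1.sub hzD.2.2.1 hzD.2.2.2
        exact (mem_sdiff.1 (hZ hz)).2 (hX3 z hd (Or.inr (Or.inr ⟨hd, e, he.1, he.2, hzD.2.2.2⟩)))
  unfold K3
  refine tr_split (A := ZD) (B := Zi ∪ Zj) ?_ (tr_le_one ?_)
    (tr_split (Subset.refl _) (tr_le_sum3 hsplit ?_ ?_ (hgamma Zi (filter_subset _ _)))
      (tr_le_sum3 hsplit ?_ ?_ (hgamma Zj (filter_subset _ _))))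
  · intro z hz
    simp only [hZD, hZi, hZj, mem_union, mem_filter]
    by_cases h1 : l z = p0 ∧ r z = p1
    · exact Or.inl ⟨hz, h1⟩
    · by_cases h2 : l z ≤ c
      · exact Or.inr (Or.inl ⟨hz, h1, h2⟩)
      · exact Or.inr (Or.inr ⟨hz, h1, by omega⟩)
  · -- dominating
    have key : ∀ y ∈ X, ∀ z ∈ ZD, G.Adj y z := by
      intro y hy z hz
      rw [hZD, mem_filter] at hz
      rw [hR y z (hne y hy z hz.1)]
      have := hH.lo y
      have := hH.hi y
      have := hH.le y
      omega
    intro y hy y' hy' z hz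
    exact iff_of_true (key y hy z hz) (key y' hy' z hz)
  · -- alpha, Zi
    have h0 : tr G (X.filter fun y => r y < c) Zi ≤ (3 * m * m + 2) + 1 := by
      apply tr_le_lvals l r
      · have hs : Zi.image l ⊆ insert c (insert p0 ((univ.filter fun z => p0 < l z ∧ r z < p1 ∧
            l z ≤ c ∧ c ≤ r z ∧ (LDs l r p0 p1 z).card < m).image l)) := by
          intro v hv
          rw [mem_image] at hv
          obtain ⟨z, hz, rfl⟩ := hv
          rw [mem_insert, mem_insert]
          rcases (hZi1 z hz).2.2 with h | h | h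
          · exact Or.inl h
          · exact Or.inr (Or.inl h)
          · exact Or.inr (Or.inr (mem_image_of_mem _ (by
              rw [mem_filter]; exact ⟨mem_univ _, h⟩)))
        have h1 := card_le_card hs
        have h2 := card_insert_le c (insert p0 ((univ.filter fun z => p0 < l z ∧ r z < p1 ∧
            l z ≤ c ∧ c ≤ r z ∧ (LDs l r p0 p1 z).card < m).image l))
        have h3 := card_insert_le p0 ((univ.filter fun z => p0 < l z ∧ r z < p1 ∧
            l z ≤ c ∧ c ≤ r z ∧ (LDs l r p0 p1 z).card < m).image l)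
        have h4 := hH.VL c (univ.filter fun z => p0 < l z ∧ r z < p1 ∧
            l z ≤ c ∧ c ≤ r z ∧ (LDs l r p0 p1 z).card < m) (fun y hy => (mem_filter.1 hy).2)
        omega
      · intro y hy z hz
        rw [mem_filter] at hy
        have h1 := hZi1 z hz
        rw [hR y z (hne y hy.1 z (filter_subset _ _ hz))]
        have := hH.le y
        constructor
        · intro h; exact h.2
        · intro h; exact ⟨by omega, h⟩
    omega
  · -- beta, Zi
    apply tr_le_one
    have key : ∀ y ∈ X.filter (fun y => l y ≤ c ∧ c ≤ r y), ∀ z ∈ Zi, G.Adj y z := by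
      intro y hy z hz
      rw [mem_filter] at hy
      have h1 := hZi1 z hz
      rw [hR y z (hne y hy.1 z (filter_subset _ _ hz))]
      omega
    intro y hy y' hy' z hz
    exact iff_of_true (key y hy z hz) (key y' hy' z hz)
  · -- alpha, Zj
    apply tr_le_one
    have key : ∀ y ∈ X.filter (fun y => r y < c), ∀ z ∈ Zj, ¬ G.Adj y z := by
      intro y hy z hz
      rw [mem_filter] at hy
      have hz' := hz
      rw [hZj, mem_filter] at hz'
      rw [hR y z (hne y hy.1 z hz'.1)]
      omega
    intro y hy y' hy' z hz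
    exact iff_of_false (key y hy z hz) (key y' hy' z hz)
  · -- beta, Zj
    have hsp : X.filter (fun y => l y ≤ c ∧ c ≤ r y) ⊆
        (X.filter fun y => (l y ≤ c ∧ c ≤ r y) ∧ ¬ Deep l r p0 p1 m y) ∪
        (X.filter fun y => (l y ≤ c ∧ c ≤ r y) ∧ Deep l r p0 p1 m y) := by
      intro y hy
      simp only [mem_union, mem_filter] at hy ⊢
      tauto
    have hZj1 : ∀ z ∈ Zj, c < l z ∧ z ∈ univ \ X := by
      intro z hz
      rw [hZj, mem_filter] at hz
      exact ⟨hz.2.2, hz.1⟩
    have t1 : tr G (X.filter fun y => (l y ≤ c ∧ c ≤ r y) ∧ ¬ Deep l r p0 p1 m y) Zj ≤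
        3 * m * m + 2 := by
      apply tr_le_rvals r
      · have hs : (X.filter fun y => (l y ≤ c ∧ c ≤ r y) ∧ ¬ Deep l r p0 p1 m y).image r ⊆
            insert c (insert p1 ((univ.filter fun z => p0 < l z ∧ r z < p1 ∧
            l z ≤ c ∧ c ≤ r z ∧ (RDs l r p0 p1 z).card < m).image r)) := by
          intro v hv
          rw [mem_image] at hv
          obtain ⟨y, hy, rfl⟩ := hv
          rw [mem_filter] at hy
          rw [mem_insert, mem_insert]
          rcases hX2 y hy.1 with h | h | h
          · rcases h.1 with h1 | h1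
            · exact Or.inr (Or.inr (mem_image_of_mem _ (by
                rw [mem_filter]; exact ⟨mem_univ _, h1.1, h1.2.1, hy.2.1.1, hy.2.1.2, h1.2.2⟩)))
            · exact Or.inr (Or.inl h1.2)
          · left; omega
          · exact absurd h.1 hy.2.2
        have h1 := card_le_card hs
        have h2 := card_insert_le c (insert p1 ((univ.filter fun z => p0 < l z ∧ r z < p1 ∧
            l z ≤ c ∧ c ≤ r z ∧ (RDs l r p0 p1 z).card < m).image r))
        have h3 := card_insert_le p1 ((univ.filter fun z => p0 < l z ∧ r z < p1 ∧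
            l z ≤ c ∧ c ≤ r z ∧ (RDs l r p0 p1 z).card < m).image r)
        have h4 := hH.VR c (univ.filter fun z => p0 < l z ∧ r z < p1 ∧
            l z ≤ c ∧ c ≤ r z ∧ (RDs l r p0 p1 z).card < m) (fun y hy => (mem_filter.1 hy).2)
        omega
      · intro y hy y' hy' hr z hz
        rw [mem_filter] at hy hy'
        have h1 := hZj1 z hz
        rw [hR y z (hne y hy.1 z h1.2), hR y' z (hne y' hy'.1 z h1.2), hr]
        have h3 := hH.le z
        constructor
        · intro h; exact ⟨by omega, h.2⟩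
        · intro h; exact ⟨by omega, h.2⟩
    have t2 : tr G (X.filter fun y => (l y ≤ c ∧ c ≤ r y) ∧ Deep l r p0 p1 m y) Zj ≤ 2 ^ m := by
      rcases (X.filter fun y => (l y ≤ c ∧ c ≤ r y) ∧ Deep l r p0 p1 m y).eq_empty_or_nonempty
        with h0 | ⟨y0, hy0⟩
      · rw [h0]; unfold tr; simp
      · rw [mem_filter] at hy0
        obtain ⟨e, he, hmax⟩ :=
          (univ.filter fun e => Deep l r p0 p1 m e ∧ l e < c + 1).exists_max_image
          r ⟨y0, by rw [mem_filter]; exact ⟨mem_univ _, hy0.2.2, by omega⟩⟩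
        simp only [mem_filter, mem_univ, true_and] at he
        obtain ⟨μ, E, hE, hmu1, hmu2⟩ := exists_mu hH he.1
        have h5 : tr G (X.filter fun y => (l y ≤ c ∧ c ≤ r y) ∧ Deep l r p0 p1 m y) Zj ≤
            2 ^ m * 1 := by
          refine tr_split (A := E) (B := Zj \ E) ?_ (tr_le_pow' hE) (tr_le_one ?_)
          · intro z hz
            rw [mem_union, mem_sdiff]
            tauto
          · have key : ∀ z ∈ Zj \ E,
                (∀ y ∈ X.filter (fun y => (l y ≤ c ∧ c ≤ r y) ∧ Deep l r p0 p1 m y), G.Adj y z) ∨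
                (∀ y ∈ X.filter (fun y => (l y ≤ c ∧ c ≤ r y) ∧ Deep l r p0 p1 m y),
                  ¬ G.Adj y z) := by
              intro z hz
              rw [mem_sdiff] at hz
              have h6 := hZj1 z hz.1
              have hrz : r e < r z := by
                by_contra h7
                have hd := he.1.sub (y := z) (by omega) (by omega)
                exact (mem_sdiff.1 h6.2).2
                  (hX3 z hd (Or.inr (Or.inr ⟨hd, e, he.1, he.2, by omega⟩)))
              by_cases h8 : l z ≤ r e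
              · left
                intro y hy
                rw [mem_filter] at hy
                rw [hR y z (hne y hy.1 z h6.2)]
                have h9 : ¬ μ < l z := fun h9 => hz.2 (hmu2 z h9 h8 hrz)
                have h10 := hmu1 y hy.2.2.1 (by omega)
                have h11 := hH.le z
                omega
              · right
                intro y hy
                rw [mem_filter] at hy
                rw [hR y z (hne y hy.1 z h6.2)]
                have h9 := hmax y (by rw [mem_filter]; exact ⟨mem_univ _, hy.2.2, by omega⟩)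
                omega
            intro y hy y' hy' z hz
            rcases key z hz with h6 | h6
            · exact iff_of_true (h6 y hy) (h6 y' hy')
            · exact iff_of_false (h6 y hy) (h6 y' hy')
        simpa using h5
    have t3 := tr_mono_left (G := G) (Z := Zj) hsp
    have t4 := tr_union_left (G := G)
      (A := X.filter fun y => (l y ≤ c ∧ c ≤ r y) ∧ ¬ Deep l r p0 p1 m y)
      (B := X.filter fun y => (l y ≤ c ∧ c ≤ r y) ∧ Deep l r p0 p1 m y) (Z := Zj)
    omega

lemma DT0.mono {K K' : ℕ} {A : Finset V} (h : DT0 G K A) (hK : K ≤ K') : DT0 G K' A := by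
  rcases h with h | h
  · exact Or.inl h
  · exact Or.inr (h.mono hK)

theorem dt_top (hR : ∀ u v, u ≠ v → (G.Adj u v ↔ l u ≤ r v ∧ l v ≤ r u))
    (hH : H1 l r p0 p1 m) : DT0 G (K2 m + K3 m) univ := by
  have hmono : ∀ c, QQ l r p0 p1 m c ⊆ QQ l r p0 p1 m (c + 1) := by
    intro c y hy
    simp only [QQ, mem_filter, mem_univ, true_and] at hy ⊢
    rcases hy with h | h | ⟨h, e, he, h1, h2⟩
    · exact Or.inl ⟨h.1, by omega⟩
    · exact Or.inr (Or.inl ⟨h.1, by omega⟩)
    · exact Or.inr (Or.inr ⟨h, e, he, by omega, h2⟩)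
  have hdisj : ∀ y, Deep l r p0 p1 m y → ¬ Sh1 l r p0 p1 m y ∧ ¬ Sh2 l r p0 p1 m y := by
    intro y hy
    unfold Deep at hy
    unfold Sh1 Sh2
    omega
  have hdeep : ∀ c y, Deep l r p0 p1 m y → (Ins1 l r p0 p1 m c y ↔
      y ∈ PS l r (DD l r p0 p1 m) c) := by
    intro c y hy
    simp only [PS, DD, mem_filter, mem_univ, true_and]
    constructor
    · rintro (h | h | ⟨_, e, he, h1, h2⟩)
      · exact absurd h.1 (hdisj y hy).1
      · exact absurd h.1 (hdisj y hy).2
      · exact ⟨hy, e, he, h1, h2⟩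
    · rintro ⟨_, e, he, h1, h2⟩
      exact Or.inr (Or.inr ⟨hy, e, he, h1, h2⟩)
  have hall : ∀ c, DT0 G (K2 m + K3 m) (QQ l r p0 p1 m c) := by
    intro c
    induction c with
    | zero =>
      left
      rw [QQ, filter_eq_empty_iff]
      rintro y _ (h | h | ⟨_, e, _, h, _⟩) <;> omega
    | succ c ihc =>
      set B := PS l r (DD l r p0 p1 m) (c + 1) \ PS l r (DD l r p0 p1 m) c with hB
      have hBdeep : ∀ y ∈ B, Deep l r p0 p1 m y := by
        intro y hy
        rw [hB, mem_sdiff, PS, mem_filter, DD, mem_filter] at hy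
        exact hy.1.1.2
      have hDTB : DT0 G (K2 m + K3 m) B := by
        rcases B.eq_empty_or_nonempty with h0 | h0
        · exact Or.inl h0
        · obtain ⟨e1, he1, ρ1, h1, h2, h3, h4⟩ := batch (S := DD l r p0 p1 m) (ρ := 0) (c := c) hH
            (by
              intro y hy
              simp only [DD, mem_filter, mem_univ, true_and] at hy
              have := hy.1
              have := hH.le y
              exact ⟨hy, by omega⟩)
            (by
              intro e he y h1 h2 _
              simp only [DD, mem_filter, mem_univ, true_and] at he ⊢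
              exact he.sub h1 h2)
            (fun e _ => Or.inl rfl) h0
          rw [hB, h3]
          simp only [DD, mem_filter, mem_univ, true_and] at he1
          exact (dt_T hR hH _ e1 ρ1 he1 h2 rfl).mono (by omega)
      have hBQ : B ⊆ QQ l r p0 p1 m (c + 1) := by
        intro y hy
        have hd := hBdeep y hy
        rw [hB, mem_sdiff] at hy
        rw [QQ, mem_filter]
        exact ⟨mem_univ _, (hdeep (c + 1) y hd).2 hy.1⟩
      have hBd : Disjoint (QQ l r p0 p1 m c) B := by
        rw [disjoint_left]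
        intro y hy hy'
        have hd := hBdeep y hy'
        rw [hB, mem_sdiff] at hy'
        rw [QQ, mem_filter] at hy
        exact hy'.2 ((hdeep c y hd).1 hy.2)
      have hthin : ∀ X, QQ l r p0 p1 m c ∪ B ⊆ X → X ⊆ QQ l r p0 p1 m (c + 1) →
          tr G X (univ \ X) ≤ K2 m + K3 m := by
        intro X h1 h2
        refine (top_thin hR hH (c := c) ?_ ?_ ?_).trans (Nat.le_add_left _ _)
        · intro z hz
          exact h1 (mem_union_left _ (by rw [QQ, mem_filter]; exact ⟨mem_univ _, hz⟩))
        · intro z hz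
          have := h2 hz
          rw [QQ, mem_filter] at this
          exact this.2
        · intro z hd hz
          apply h1
          by_cases h3 : Ins1 l r p0 p1 m c z
          · exact mem_union_left _ (by rw [QQ, mem_filter]; exact ⟨mem_univ _, h3⟩)
          · apply mem_union_right
            rw [hB, mem_sdiff, ← hdeep (c + 1) z hd, ← hdeep c z hd]
            exact ⟨hz, h3⟩
      have h1 : DT0 G (K2 m + K3 m) (QQ l r p0 p1 m c ∪ B) :=
        DT0.union hBd ihc hDTB (hthin _ (Subset.refl _) (union_subset (hmono c) hBQ))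
      rw [← union_sdiff_of_subset (union_subset (hmono c) hBQ)]
      refine DT0.singles disjoint_sdiff h1 ?_
      intro U hU _
      exact hthin _ subset_union_left
        (union_subset (union_subset (hmono c) hBQ) (hU.trans sdiff_subset))
  have h1 := hall (p1 + 1)
  have hQ : ∀ y, y ∈ QQ l r p0 p1 m (p1 + 1) ↔ ¬ (l y = p0 ∧ r y = p1) := by
    intro y
    rw [QQ, mem_filter]
    have h2 := hH.le y
    have h3 := hH.hi y
    constructor
    · rintro ⟨_, h | h | h⟩ h4
      · have := h.1
        unfold Sh1 at this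
        omega
      · have := h.1
        unfold Sh2 at this
        omega
      · have := h.1.1
        omega
    · intro h4
      refine ⟨mem_univ _, ?_⟩
      rcases trichotomy hH y with h | h | h | h
      · exact Or.inl ⟨h, by omega⟩
      · exact Or.inr (Or.inl ⟨h, by omega⟩)
      · exact Or.inr (Or.inr ⟨h, y, h, by omega, le_rfl⟩)
      · exact absurd h h4
  rw [← union_sdiff_of_subset (subset_univ (QQ l r p0 p1 m (p1 + 1)))]
  refine DT0.singles disjoint_sdiff h1 ?_
  intro U hU _
  have h2 : tr G (QQ l r p0 p1 m (p1 + 1) ∪ U) (univ \ (QQ l r p0 p1 m (p1 + 1) ∪ U)) ≤ 1 := by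
    apply tr_le_one
    have key : ∀ y ∈ QQ l r p0 p1 m (p1 + 1) ∪ U,
        ∀ z ∈ univ \ (QQ l r p0 p1 m (p1 + 1) ∪ U), G.Adj y z := by
      intro y hy z hz
      have hyz : y ≠ z := by rintro rfl; exact (mem_sdiff.1 hz).2 hy
      rw [hR y z hyz]
      rw [mem_sdiff, mem_union, not_or, hQ, not_not] at hz
      have h3 := hH.le y
      have h4 := hH.hi y
      have h5 := hH.lo y
      omega
    intro y hy y' hy' z hz
    exact iff_of_true (key y hy z hz) (key y' hy' z hz)
  have h3 : 1 ≤ K2 m := by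
    unfold K2
    have : 0 < 2 ^ (2 * m) * (m + 2) * (1 * (2 ^ m * 2)) := by positivity
    omega
  omega

theorem suff1 (m : ℕ) : ∃ K : ℕ, ∀ (V : Type) [Finite V] [Nonempty V] (G : SimpleGraph V),
    IsIntervalGraph G → ¬ (F1 m).IsIndContained G → CwLE G K := by
  refine ⟨3 * (K2 (m + 1) + K3 (m + 1) + 1), ?_⟩
  intro V _ _ G hG hfree
  have := Fintype.ofFinite V
  obtain ⟨l, r, hr⟩ := exists_rep hG
  have hfree' : ¬ (F1 (m + 1)).IsIndContained G := by
    intro h
    apply hfree
    refine SimpleGraph.IsIndContained.trans ?_ h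
    have hc := Fin.castSucc_injective m
    apply mkEmb (F1 m) (fun w => match w with
      | .inl i => .inl i.castSucc
      | .inr (.inl i) => .inr (.inl i.castSucc)
      | .inr (.inr j) => .inr (.inr j))
    rintro (i | i | i) (j | j | j) hxy <;>
      simp [F1, SimpleGraph.fromRel_adj] at hxy ⊢ <;> tauto
  obtain ⟨p0, p1, hH⟩ := h1_of_free hr hfree' (by omega)
  rcases dt_top hr.adj hH with h1 | h1
  · exfalso
    exact Finset.univ_nonempty.ne_empty h1
  · exact cwLE_of_dt h1

end Pool.Agent.H73R2.Iv
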