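import Pool.Agent.H73R2.Iv.Defs

set_option autoImplicit false
set_option linter.unusedSectionVars false

namespace Pool.Agent.H73R2.Iv

open Finset Classical

variable {V : Type} [Fintype V] {G : SimpleGraph V}

/-- integer interval representation in which left and right end points take the same values -/
structure Rep (G : SimpleGraph V) (l r : V → ℕ) : Prop where
  le : ∀ v, l v ≤ r v
  adj : ∀ u v, u ≠ v → (G.Adj u v ↔ l u ≤ r v ∧ l v ≤ r u)
  tl : ∀ v, ∃ w, r w = l v
  tr : ∀ v, ∃ w, l w = r v

lemma exists_real_rep (h : IsIntervalGraph G) : ∃ L R : V → ℝ, (∀ v, L v ≤ R v) ∧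
    ∀ u v, u ≠ v → (G.Adj u v ↔ L u ≤ R v ∧ L v ≤ R u) := by
  obtain ⟨I, h1, h2⟩ := h
  have hp : ∀ u v : V, ∃ p : ℝ, (I u ∩ I v).Nonempty → p ∈ I u ∩ I v := by
    intro u v
    by_cases hn : (I u ∩ I v).Nonempty
    · exact ⟨hn.some, fun _ => hn.some_mem⟩
    · exact ⟨0, fun h => absurd h hn⟩
  choose p hp using hp
  let P : V → Finset ℝ := fun v =>
    ((univ : Finset (V × V)).filter fun e => (e.1 = v ∨ e.2 = v) ∧ (I e.1 ∩ I e.2).Nonempty).image
      fun e => p e.1 e.2
  have hP : ∀ v, (P v).Nonempty := by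
    intro v
    refine ⟨p v v, ?_⟩
    simp only [P, mem_image, mem_filter, mem_univ, true_and]
    refine ⟨(v, v), ⟨Or.inl rfl, ?_⟩, rfl⟩
    rw [Set.inter_self]
    exact (h1 v).2
  have hPI : ∀ v, ∀ x ∈ P v, x ∈ I v := by
    intro v x hx
    simp only [P, mem_image, mem_filter, mem_univ, true_and] at hx
    obtain ⟨⟨a, b⟩, ⟨h3, h4⟩, rfl⟩ := hx
    rcases h3 with h3 | h3
    · simp only at h3; subst h3; exact (hp _ _ h4).1
    · simp only at h3; subst h3; exact (hp _ _ h4).2
  refine ⟨fun v => (P v).min' (hP v), fun v => (P v).max' (hP v), fun v => min'_le_max' _ _, ?_⟩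
  intro u v huv
  rw [h2 u v huv]
  constructor
  · intro hn
    have a1 : p u v ∈ P u := by
      simp only [P, mem_image, mem_filter, mem_univ, true_and]
      exact ⟨(u, v), ⟨Or.inl rfl, hn⟩, rfl⟩
    have a2 : p u v ∈ P v := by
      simp only [P, mem_image, mem_filter, mem_univ, true_and]
      exact ⟨(u, v), ⟨Or.inr rfl, hn⟩, rfl⟩
    exact ⟨(min'_le _ _ a1).trans (le_max' _ _ a2), (min'_le _ _ a2).trans (le_max' _ _ a1)⟩
  · rintro ⟨h3, h4⟩
    refine ⟨max ((P u).min' (hP u)) ((P v).min' (hP v)), ?_, ?_⟩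
    · apply (h1 u).1.out (hPI u _ (min'_mem _ _)) (hPI u _ (max'_mem _ (hP u)))
      exact ⟨le_max_left _ _, max_le (min'_le_max' _ _) h4⟩
    · apply (h1 v).1.out (hPI v _ (min'_mem _ _)) (hPI v _ (max'_mem _ (hP v)))
      exact ⟨le_max_right _ _, max_le h3 (min'_le_max' _ _)⟩

theorem exists_rep (h : IsIntervalGraph G) : ∃ l r : V → ℕ, Rep G l r := by
  obtain ⟨L, R, h1, h2⟩ := exists_real_rep h
  let l : V → ℕ := fun v => (univ.filter fun w => R w < L v).card
  let r : V → ℕ := fun v => (univ.filter fun w => L w ≤ R v).sup l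
  have key : ∀ u v, l u ≤ r v ↔ L u ≤ R v := by
    intro u v
    constructor
    · intro h3
      by_contra h4
      push Not at h4
      have : r v < l u := by
        have hpos : 0 < l u := card_pos.2 ⟨v, by simp [h4]⟩
        rw [Finset.sup_lt_iff (by simpa using hpos)]
        intro w hw
        rw [mem_filter] at hw
        apply card_lt_card
        refine ⟨?_, ?_⟩
        · intro x hx
          rw [mem_filter] at hx ⊢
          exact ⟨mem_univ _, by linarith [hx.2, hw.2]⟩
        · intro h5
          have : v ∈ univ.filter fun w' => R w' < L w := h5 (by simp [h4])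
          rw [mem_filter] at this
          linarith [this.2, hw.2]
      omega
    · intro h3
      exact Finset.le_sup (f := l) (by simp [h3])
  refine ⟨l, r, ?_, ?_, ?_, ?_⟩
  · intro v
    rw [key]
    exact h1 v
  · intro u v huv
    rw [h2 u v huv, key, key]
  · intro u
    obtain ⟨w, hw, hmin⟩ := Finset.exists_min_image (univ.filter fun w => L u ≤ R w) R
      ⟨u, by simp [h1 u]⟩
    rw [mem_filter] at hw
    refine ⟨w, le_antisymm ?_ ?_⟩
    · apply Finset.sup_le
      intro x hx
      rw [mem_filter] at hx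
      apply card_le_card
      intro y hy
      rw [mem_filter] at hy ⊢
      refine ⟨mem_univ _, ?_⟩
      by_contra h3
      push Not at h3
      have := hmin y (by simp [h3])
      linarith [hy.2, hx.2]
    · rw [key]
      exact hw.2
  · intro v
    obtain ⟨w, _, hw⟩ := Finset.exists_mem_eq_sup (univ.filter fun w => L w ≤ R v)
      ⟨v, by simp [h1 v]⟩ l
    exact ⟨w, hw.symm⟩

end Pool.Agent.H73R2.Iv
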