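import Pool.Agent.H73R2.Iv.Tr
import Pool.Agent.H73R2.Iv.Tight

set_option autoImplicit false
set_option linter.unusedSectionVars false

/-! Sufficiency for `F2`: windows. -/

namespace Pool.Agent.H73R2.Iv

open Finset Classical

variable {V : Type} [Fintype V]

/-- left-crossers of `[a, d]` -/
noncomputable def LC (l r : V → ℕ) (a d : ℕ) : Finset V :=
  univ.filter fun z => l z < a ∧ a ≤ r z ∧ r z < d

/-- right-crossers of `[a, d]` -/
noncomputable def RC (l r : V → ℕ) (a d : ℕ) : Finset V :=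
  univ.filter fun z => a < l z ∧ l z ≤ d ∧ d < r z

/-- intervals inside `[a, d]` -/
noncomputable def In (l r : V → ℕ) (a d : ℕ) : Finset V :=
  univ.filter fun z => a ≤ l z ∧ r z ≤ d

noncomputable def Nx (l r : V → ℕ) (e : V) (x : ℕ) : Finset V :=
  univ.filter fun y => l e < l y ∧ r y < r e ∧ l y ≤ x ∧ x ≤ r y

noncomputable def Row (l r : V → ℕ) (e : V) : Finset V :=
  univ.filter fun y => l y = l e ∧ r y < r e

noncomputable def Col (l r : V → ℕ) (e : V) : Finset V :=
  univ.filter fun y => r y = r e ∧ l e < l y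

structure Hyp (l r : V → ℕ) (m : ℕ) : Prop where
  le : ∀ v, l v ≤ r v
  pos : 1 ≤ m
  R1 : ∀ e x q, l e ≤ x → x ≤ r e → r e ≤ q →
    (univ.filter fun y => l y ≤ x ∧ x ≤ r y ∧ l e < l y ∧ q < r y).card < m ∨
    (univ.filter fun y => l y ≤ x ∧ x ≤ r y ∧ l e < l y ∧ r y ≤ q).card < m
  L1 : ∀ e x p, l e ≤ x → x ≤ r e → p ≤ l e →
    (univ.filter fun y => l y ≤ x ∧ x ≤ r y ∧ r y < r e ∧ l y < p).card < m ∨
    (univ.filter fun y => l y ≤ x ∧ x ≤ r y ∧ r y < r e ∧ p ≤ l y).card < m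

variable {l r : V → ℕ} {m : ℕ}

/-- weak windows -/
def WW (l r : V → ℕ) (m : ℕ) (e : V) (a d : ℕ) : Prop :=
  l e ≤ a ∧ a ≤ d ∧ d ≤ r e ∧ (m ≤ (Row l r e).card ∨ m ≤ (Nx l r e a).card) ∧
    (m ≤ (Col l r e).card ∨ m ≤ (Nx l r e d).card)

lemma Nx_bounds (h : 1 ≤ m) {e : V} {x : ℕ} (hx : m ≤ (Nx l r e x).card) :
    l e < x ∧ x < r e := by
  have : 0 < (Nx l r e x).card := by omega
  obtain ⟨y, hy⟩ := card_pos.1 this
  simp only [Nx, mem_filter, mem_univ, true_and] at hy
  omega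

lemma WW_point (h : 1 ≤ m) {e : V} {x : ℕ} (hx : m ≤ (Nx l r e x).card) : WW l r m e x x := by
  have := Nx_bounds h hx
  exact ⟨by omega, le_rfl, by omega, Or.inr hx, Or.inr hx⟩

/-- the greedy window at `c` -/
structure Gr (l r : V → ℕ) (m : ℕ) (S : Finset V) (c : ℕ) (e : V) (a d : ℕ) : Prop where
  mem : e ∈ S
  ww : WW l r m e a d
  ac : a ≤ c
  cd : c ≤ d
  M1 : ∀ e1 ∈ S, ∀ a1 d1, WW l r m e1 a1 d1 → a1 ≤ c → c ≤ d1 → d1 ≤ d
  M2 : ∀ e1 ∈ S, ∀ a1, WW l r m e1 a1 d → a1 ≤ c → r e1 - l e1 ≤ r e - l e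
  M3 : ∀ a1, WW l r m e a1 d → a1 ≤ c → a ≤ a1

lemma exists_gr {S : Finset V} {c : ℕ}
    (h : ∃ e ∈ S, ∃ a d, WW l r m e a d ∧ a ≤ c ∧ c ≤ d) :
    ∃ e a d, Gr l r m S c e a d := by
  obtain ⟨e0, he0, a0, d0, hw0, hac0, hcd0⟩ := h
  let B := univ.sup r + 1
  let T : Finset (V × ℕ × ℕ) := (S ×ˢ (range (c + 1) ×ˢ range B)).filter fun t =>
    WW l r m t.1 t.2.1 t.2.2 ∧ c ≤ t.2.2
  have memT : ∀ e a d, (e, a, d) ∈ T ↔ e ∈ S ∧ WW l r m e a d ∧ a ≤ c ∧ c ≤ d := by
    intro e a d
    simp only [T, mem_filter, mem_product, mem_range, B]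
    constructor
    · rintro ⟨⟨h1, h2, h3⟩, h4, h5⟩; exact ⟨h1, h4, by omega, h5⟩
    · rintro ⟨h1, h2, h3, h4⟩
      refine ⟨⟨h1, by omega, ?_⟩, h2, h4⟩
      have := Finset.le_sup (f := r) (mem_univ e)
      have := h2.2.2.1
      omega
  obtain ⟨⟨e1, a1, d1⟩, h1, h1m⟩ := T.exists_max_image (fun t => t.2.2)
    ⟨(e0, a0, d0), (memT _ _ _).2 ⟨he0, hw0, hac0, hcd0⟩⟩
  obtain ⟨⟨e2, a2, d2⟩, h2, h2m⟩ := (T.filter fun t => t.2.2 = d1).exists_max_image
    (fun t => r t.1 - l t.1) ⟨(e1, a1, d1), by simp [h1]⟩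
  rw [mem_filter] at h2
  obtain ⟨h2, h2d⟩ := h2
  simp only at h2d
  subst h2d
  obtain ⟨⟨e3, a3, d3⟩, h3, h3m⟩ := (T.filter fun t => t.2.2 = d2 ∧ t.1 = e2).exists_min_image
    (fun t => t.2.1) ⟨(e2, a2, d2), by simp [h2]⟩
  rw [mem_filter] at h3
  obtain ⟨h3, h3d, h3e⟩ := h3
  simp only at h3d h3e
  subst h3d; subst h3e
  rw [memT] at h3
  refine ⟨e3, a3, d3, h3.1, h3.2.1, h3.2.2.1, h3.2.2.2, ?_, ?_, ?_⟩
  · intro e he a d hw hac hcd
    exact h1m (e, a, d) ((memT _ _ _).2 ⟨he, hw, hac, hcd⟩)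
  · intro e he a hw hac
    exact h2m (e, a, d3) (by
      rw [mem_filter]
      exact ⟨(memT _ _ _).2 ⟨he, hw, hac, h3.2.2.2⟩, rfl⟩)
  · intro a hw hac
    exact h3m (e3, a, d3) (by
      rw [mem_filter]
      exact ⟨(memT _ _ _).2 ⟨h3.1, hw, hac, h3.2.2.2⟩, rfl, rfl⟩)

namespace Gr

variable {S : Finset V} {c : ℕ} {e : V} {a d : ℕ}

lemma g1 (h : Gr l r m S c e a d) (h1 : m ≤ (Row l r e).card) : a = l e := by
  obtain ⟨h2, h3, h4, _, h6⟩ := h.ww
  have := h.M3 (l e) ⟨le_rfl, h2.trans h3, h4, Or.inl h1, h6⟩ (h2.trans h.ac)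
  omega

lemma g2 (hm : 1 ≤ m) (h : Gr l r m S c e a d) {x : ℕ} (hx : x < a) :
    (Nx l r e x).card < m := by
  by_contra hcon
  push Not at hcon
  have hb := Nx_bounds hm hcon
  obtain ⟨h2, h3, h4, _, h6⟩ := h.ww
  have := h.M3 x ⟨hb.1.le, by omega, h4, Or.inr hcon, h6⟩ (by have := h.ac; omega)
  omega

lemma g3 (h : Gr l r m S c e a d) (h1 : m ≤ (Col l r e).card) : d = r e := by
  obtain ⟨h2, h3, h4, h5, _⟩ := h.ww
  have := h.M1 e h.mem a (r e) ⟨h2, h3.trans h4, le_rfl, h5, Or.inl h1⟩ h.ac (h.cd.trans h4)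
  omega

lemma g4 (hm : 1 ≤ m) (h : Gr l r m S c e a d) {x : ℕ} (hx : d < x) :
    (Nx l r e x).card < m := by
  by_contra hcon
  push Not at hcon
  have hb := Nx_bounds hm hcon
  obtain ⟨h2, h3, h4, h5, _⟩ := h.ww
  have := h.M1 e h.mem a x ⟨h2, by omega, by omega, h5, Or.inr hcon⟩ h.ac
    (by have := h.cd; omega)
  omega

lemma g5 (hH : Hyp l r m) (h : Gr l r m S c e a d) {y : V} (hy : y ∈ S) (h1 : l y ≤ l e)
    (h2 : r e ≤ r y) : l y = l e ∧ r y = r e := by
  by_contra hcon
  obtain ⟨h3, h4, h5, h6, h7⟩ := h.ww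
  have hNx : ∀ x, (Nx l r e x).card ≤ (Nx l r y x).card := by
    intro x
    apply card_le_card
    intro z hz
    simp only [Nx, mem_filter, mem_univ, true_and] at hz ⊢
    omega
  have hw : WW l r m y a d := by
    refine ⟨h1.trans h3, h4, h5.trans h2, ?_, ?_⟩
    · rcases h6 with h6 | h6
      · have ha := h.g1 h6
        rcases h1.lt_or_eq with h8 | h8
        · right
          refine h6.trans (card_le_card ?_)
          intro z hz
          simp only [Nx, Row, mem_filter, mem_univ, true_and] at hz ⊢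
          have := hH.le z
          omega
        · left
          refine h6.trans (card_le_card ?_)
          intro z hz
          simp only [Row, mem_filter, mem_univ, true_and] at hz ⊢
          omega
      · exact Or.inr (h6.trans (hNx a))
    · rcases h7 with h7 | h7
      · have ha := h.g3 h7
        rcases h2.lt_or_eq with h8 | h8
        · right
          refine h7.trans (card_le_card ?_)
          intro z hz
          simp only [Nx, Col, mem_filter, mem_univ, true_and] at hz ⊢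
          have := hH.le z
          omega
        · left
          refine h7.trans (card_le_card ?_)
          intro z hz
          simp only [Col, mem_filter, mem_univ, true_and] at hz ⊢
          omega
      · exact Or.inr (h7.trans (hNx d))
  have := h.M2 y hy a hw h.ac
  have := hH.le e
  omega

/-- few right stickers -/
lemma rs (hH : Hyp l r m) (h : Gr l r m S c e a d) :
    (univ.filter fun y => l y ≤ d ∧ d ≤ r y ∧ l e < l y ∧ r e < r y).card < m := by
  obtain ⟨h3, h4, h5, h6, h7⟩ := h.ww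
  rcases hH.R1 e d (r e) (h3.trans h4) h5 le_rfl with h8 | h8
  · exact h8
  · exfalso
    rcases h7 with h7 | h7
    · have hd := h.g3 h7
      have : (Col l r e).card ≤ (univ.filter fun y => l y ≤ d ∧ d ≤ r y ∧ l e < l y ∧
          r y ≤ r e).card := by
        apply card_le_card
        intro z hz
        simp only [Col, mem_filter, mem_univ, true_and] at hz ⊢
        have := hH.le z
        omega
      omega
    · have : (Nx l r e d).card ≤ (univ.filter fun y => l y ≤ d ∧ d ≤ r y ∧ l e < l y ∧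
          r y ≤ r e).card := by
        apply card_le_card
        intro z hz
        simp only [Nx, mem_filter, mem_univ, true_and] at hz ⊢
        omega
      omega

/-- few left stickers -/
lemma ls (hH : Hyp l r m) (h : Gr l r m S c e a d) :
    (univ.filter fun y => l y ≤ a ∧ a ≤ r y ∧ r y < r e ∧ l y < l e).card < m := by
  obtain ⟨h3, h4, h5, h6, h7⟩ := h.ww
  rcases hH.L1 e a (l e) h3 (h4.trans h5) le_rfl with h8 | h8
  · exact h8
  · exfalso
    rcases h6 with h6 | h6
    · have hd := h.g1 h6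
      have : (Row l r e).card ≤ (univ.filter fun y => l y ≤ a ∧ a ≤ r y ∧ r y < r e ∧
          l e ≤ l y).card := by
        apply card_le_card
        intro z hz
        simp only [Row, mem_filter, mem_univ, true_and] at hz ⊢
        have := hH.le z
        omega
      omega
    · have : (Nx l r e a).card ≤ (univ.filter fun y => l y ≤ a ∧ a ≤ r y ∧ r y < r e ∧
          l e ≤ l y).card := by
        apply card_le_card
        intro z hz
        simp only [Nx, mem_filter, mem_univ, true_and] at hz ⊢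
        omega
      omega

lemma card3 {A B C D : Finset V} {m : ℕ} (h : D ⊆ A ∪ B ∪ C) (hA : A.card ≤ m) (hB : B.card ≤ m)
    (hC : C.card ≤ m) : D.card ≤ 3 * m := by
  have h1 := card_le_card h
  have h2 := card_union_le (A ∪ B) C
  have h3 := card_union_le A B
  omega

lemma lc (hH : Hyp l r m) (h : Gr l r m S c e a d) : (LC l r a d).card ≤ 3 * m := by
  obtain ⟨h3, h4, h5, h6, h7⟩ := h.ww
  by_cases ha : a = l e
  · have hs : LC l r a d ⊆ univ.filter fun y => l y ≤ a ∧ a ≤ r y ∧ r y < r e ∧ l y < l e := by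
      intro z hz
      simp only [LC, mem_filter, mem_univ, true_and] at hz ⊢
      omega
    have := card_le_card hs
    have := h.ls hH
    omega
  · have hrow : (Row l r e).card < m := by
      by_contra hcon
      exact ha (h.g1 (by omega))
    have hnx : (Nx l r e (a - 1)).card < m := h.g2 hH.pos (by omega)
    apply card3 (A := univ.filter fun y => l y ≤ a ∧ a ≤ r y ∧ r y < r e ∧ l y < l e)
      (B := Row l r e) (C := Nx l r e (a - 1)) ?_ (h.ls hH).le hrow.le hnx.le
    intro z hz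
    simp only [LC, Row, Nx, mem_union, mem_filter, mem_univ, true_and] at hz ⊢
    omega

lemma rc (hH : Hyp l r m) (h : Gr l r m S c e a d) : (RC l r a d).card ≤ 3 * m := by
  obtain ⟨h3, h4, h5, h6, h7⟩ := h.ww
  by_cases hd : d = r e
  · have hs : RC l r a d ⊆ univ.filter fun y => l y ≤ d ∧ d ≤ r y ∧ l e < l y ∧ r e < r y := by
      intro z hz
      simp only [RC, mem_filter, mem_univ, true_and] at hz ⊢
      omega
    have := card_le_card hs
    have := h.rs hH
    omega
  · have hcol : (Col l r e).card < m := by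
      by_contra hcon
      exact hd (h.g3 (by omega))
    have hnx : (Nx l r e (d + 1)).card < m := h.g4 hH.pos (by omega)
    apply card3 (A := univ.filter fun y => l y ≤ d ∧ d ≤ r y ∧ l e < l y ∧ r e < r y)
      (B := Col l r e) (C := Nx l r e (d + 1)) ?_ (h.rs hH).le hcol.le hnx.le
    intro z hz
    simp only [RC, Col, Nx, mem_union, mem_filter, mem_univ, true_and] at hz ⊢
    omega

end Gr

end Pool.Agent.H73R2.Iv
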