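import Pool.Agent.H73R2.Iv.S2a

set_option autoImplicit false
set_option linter.unusedSectionVars false

/-! Sufficiency for `F2`: boundaries. -/

namespace Pool.Agent.H73R2.Iv

open Finset Classical

variable {V : Type} [Fintype V] {l r : V → ℕ} {m : ℕ}

/-- `z` is inserted before time `c` -/
def Ins (l r : V → ℕ) (m c : ℕ) (z : V) : Prop :=
  l z < c ∧ (univ.filter fun w => l w = l z ∧ c ≤ r w ∧ r w < r z).card < m

lemma Ins.mono {c c' : ℕ} (hc : c ≤ c') {z : V} (h : Ins l r m c z) : Ins l r m c' z := by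
  refine ⟨lt_of_lt_of_le h.1 hc, lt_of_le_of_lt (card_le_card ?_) h.2⟩
  intro w hw
  simp only [mem_filter, mem_univ, true_and] at hw ⊢
  omega

lemma ins_of_lt (hH : Hyp l r m) {c : ℕ} {z : V} (h : r z < c) : Ins l r m c z := by
  refine ⟨lt_of_le_of_lt (hH.le z) h, ?_⟩
  have : (univ.filter fun w => l w = l z ∧ c ≤ r w ∧ r w < r z) = ∅ := by
    apply filter_eq_empty_iff.2
    intro w _ hw
    omega
  rw [this, card_empty]
  exact hH.pos

structure Bd (l r : V → ℕ) (m : ℕ) (S : Finset V) (c : ℕ) : Prop where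
  F1 : ((S.filter fun z => l z < c ∧ c ≤ r z ∧ ¬ Ins l r m c z).image l).card ≤ 5 * m + 1
  F2 : ((S.filter fun z => l z < c ∧ c ≤ r z ∧ Ins l r m c z).image r).card ≤ 5 * m + 1
  F3 : ∀ e ∈ S, ∀ a d, WW l r m e a d → a < c → c ≤ d →
    (univ.filter fun z => a ≤ l z ∧ l z < c ∧ c ≤ r z).card ≤ 3 * m

lemma conc (hH : Hyp l r m) {e : V} {x : ℕ} (h1 : l e ≤ x) (h2 : x ≤ r e)
    (hN : (Nx l r e x).card < m) :
    ∃ R, (univ.filter fun y => l y ≤ x ∧ x ≤ r y ∧ l e < l y ∧ r y ≠ R).card ≤ 2 * m := by
  have hex : ∃ q, r e ≤ q ∧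
      (univ.filter fun y => l y ≤ x ∧ x ≤ r y ∧ l e < l y ∧ q < r y).card < m := by
    refine ⟨univ.sup r, Finset.le_sup (mem_univ e), ?_⟩
    have : (univ.filter fun y => l y ≤ x ∧ x ≤ r y ∧ l e < l y ∧ univ.sup r < r y) = ∅ := by
      apply filter_eq_empty_iff.2
      intro y _ hy
      have := Finset.le_sup (f := r) (mem_univ y)
      omega
    rw [this, card_empty]
    exact hH.pos
  let q := Nat.find hex
  obtain ⟨hq1, hq2⟩ : r e ≤ q ∧
      (univ.filter fun y => l y ≤ x ∧ x ≤ r y ∧ l e < l y ∧ q < r y).card < m := Nat.find_spec hex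
  refine ⟨q, ?_⟩
  rcases hq1.eq_or_lt with hq | hq
  · have hs : (univ.filter fun y => l y ≤ x ∧ x ≤ r y ∧ l e < l y ∧ r y ≠ q) ⊆
        (univ.filter fun y => l y ≤ x ∧ x ≤ r y ∧ l e < l y ∧ q < r y) ∪ Nx l r e x := by
      intro y hy
      simp only [Nx, mem_union, mem_filter, mem_univ, true_and] at hy ⊢
      omega
    have h3 := card_le_card hs
    have h4 := card_union_le
      (univ.filter fun y => l y ≤ x ∧ x ≤ r y ∧ l e < l y ∧ q < r y) (Nx l r e x)
    omega
  · have hmin := Nat.find_min hex (m := q - 1) (show q - 1 < q by omega)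
    have h5 : (univ.filter fun y => l y ≤ x ∧ x ≤ r y ∧ l e < l y ∧ r y ≤ q - 1).card < m := by
      rcases hH.R1 e x (q - 1) h1 h2 (by omega) with h6 | h6
      · exact absurd ⟨by omega, h6⟩ hmin
      · exact h6
    have hs : (univ.filter fun y => l y ≤ x ∧ x ≤ r y ∧ l e < l y ∧ r y ≠ q) ⊆
        (univ.filter fun y => l y ≤ x ∧ x ≤ r y ∧ l e < l y ∧ q < r y) ∪
        (univ.filter fun y => l y ≤ x ∧ x ≤ r y ∧ l e < l y ∧ r y ≤ q - 1) := by
      intro y hy
      simp only [mem_union, mem_filter, mem_univ, true_and] at hy ⊢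
      omega
    have h3 := card_le_card hs
    have h4 := card_union_le
      (univ.filter fun y => l y ≤ x ∧ x ≤ r y ∧ l e < l y ∧ q < r y)
      (univ.filter fun y => l y ≤ x ∧ x ≤ r y ∧ l e < l y ∧ r y ≤ q - 1)
    omega

lemma conc' (hH : Hyp l r m) {e : V} {x : ℕ} (h1 : l e ≤ x) (h2 : x ≤ r e)
    (hN : (Nx l r e x).card < m) :
    ∃ L, (univ.filter fun y => l y ≤ x ∧ x ≤ r y ∧ r y < r e ∧ l y ≠ L).card ≤ 2 * m := by
  let P : ℕ → Prop := fun p =>
    (univ.filter fun y => l y ≤ x ∧ x ≤ r y ∧ r y < r e ∧ l y < p).card < m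
  have h0 : P 0 := by
    have : (univ.filter fun y => l y ≤ x ∧ x ≤ r y ∧ r y < r e ∧ l y < 0) = ∅ := by
      apply filter_eq_empty_iff.2
      intro y _ hy
      omega
    show (univ.filter fun y => l y ≤ x ∧ x ≤ r y ∧ r y < r e ∧ l y < 0).card < m
    rw [this, card_empty]
    exact hH.pos
  let p := Nat.findGreatest P (l e)
  have hp1 : p ≤ l e := Nat.findGreatest_le _
  have hp2 : P p := Nat.findGreatest_spec (Nat.zero_le _) h0
  have hp2' : (univ.filter fun y => l y ≤ x ∧ x ≤ r y ∧ r y < r e ∧ l y < p).card < m := hp2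
  refine ⟨p, ?_⟩
  rcases hp1.eq_or_lt with hp | hp
  · have hs : (univ.filter fun y => l y ≤ x ∧ x ≤ r y ∧ r y < r e ∧ l y ≠ p) ⊆
        (univ.filter fun y => l y ≤ x ∧ x ≤ r y ∧ r y < r e ∧ l y < p) ∪ Nx l r e x := by
      intro y hy
      simp only [Nx, mem_union, mem_filter, mem_univ, true_and] at hy ⊢
      omega
    have h3 := card_le_card hs
    have h4 := card_union_le
      (univ.filter fun y => l y ≤ x ∧ x ≤ r y ∧ r y < r e ∧ l y < p) (Nx l r e x)
    omega
  · have hmin : ¬ P (p + 1) := by
      intro hcon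
      have := Nat.le_findGreatest (P := P) (m := p + 1) (n := l e) (by omega) hcon
      exact absurd this (by show ¬ (p + 1 ≤ p); omega)
    have h5 : (univ.filter fun y => l y ≤ x ∧ x ≤ r y ∧ r y < r e ∧ p + 1 ≤ l y).card < m := by
      rcases hH.L1 e x (p + 1) h1 h2 (by omega) with h6 | h6
      · exact absurd h6 hmin
      · exact h6
    have hs : (univ.filter fun y => l y ≤ x ∧ x ≤ r y ∧ r y < r e ∧ l y ≠ p) ⊆
        (univ.filter fun y => l y ≤ x ∧ x ≤ r y ∧ r y < r e ∧ l y < p) ∪
        (univ.filter fun y => l y ≤ x ∧ x ≤ r y ∧ r y < r e ∧ p + 1 ≤ l y) := by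
      intro y hy
      simp only [mem_union, mem_filter, mem_univ, true_and] at hy ⊢
      omega
    have h3 := card_le_card hs
    have h4 := card_union_le
      (univ.filter fun y => l y ≤ x ∧ x ≤ r y ∧ r y < r e ∧ l y < p)
      (univ.filter fun y => l y ≤ x ∧ x ≤ r y ∧ r y < r e ∧ p + 1 ≤ l y)
    omega

/-- inserted crossing elements of one row have few right ends -/
lemma row_rvals {B : Finset V} {L c : ℕ} (hm : 1 ≤ m)
    (h : ∀ z ∈ B, l z = L ∧ c ≤ r z ∧ Ins l r m c z) : (B.image r).card ≤ m := by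
  rcases B.eq_empty_or_nonempty with rfl | hB
  · simp
  obtain ⟨z0, hz0, hmax⟩ := B.exists_max_image r hB
  have hs : B.image r ⊆ insert (r z0)
      ((univ.filter fun w => l w = l z0 ∧ c ≤ r w ∧ r w < r z0).image r) := by
    intro v hv
    rw [mem_image] at hv
    obtain ⟨z, hz, rfl⟩ := hv
    rcases (hmax z hz).eq_or_lt with h1 | h1
    · rw [h1]; exact mem_insert_self _ _
    · apply mem_insert_of_mem
      apply mem_image_of_mem
      simp only [mem_filter, mem_univ, true_and]
      exact ⟨by rw [(h z hz).1, (h z0 hz0).1], (h z hz).2.1, h1⟩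
  have h1 := card_le_card hs
  have h2 := card_insert_le (r z0)
    ((univ.filter fun w => l w = l z0 ∧ c ≤ r w ∧ r w < r z0).image r)
  have h3 := card_image_le (s := univ.filter fun w => l w = l z0 ∧ c ≤ r w ∧ r w < r z0) (f := r)
  have h4 := (h z0 hz0).2.2.2
  omega

lemma Bd.step_non (hH : Hyp l r m) {S : Finset V} {c : ℕ}
    (hno : ¬ ∃ e ∈ S, ∃ a d, WW l r m e a d ∧ a ≤ c ∧ c ≤ d) : Bd l r m S (c + 1) := by
  have hN : ∀ y ∈ S, (Nx l r y c).card < m := by
    intro y hy
    by_contra hcon
    exact hno ⟨y, hy, c, c, WW_point hH.pos (by omega), le_rfl, le_rfl⟩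
  refine ⟨?_, ?_, ?_⟩
  · set T := S.filter fun z => l z < c + 1 ∧ c + 1 ≤ r z ∧ ¬ Ins l r m (c + 1) z with hT
    rcases T.eq_empty_or_nonempty with hTe | hTn
    · rw [hTe]; simp
    obtain ⟨z1, hz1, hmin⟩ := T.exists_min_image l hTn
    have hz1' := hz1
    simp only [hT, mem_filter] at hz1'
    obtain ⟨R, hR⟩ := conc hH (e := z1) (x := c) (by omega) (by omega) (hN z1 hz1'.1)
    set E := univ.filter fun y => l y ≤ c ∧ c ≤ r y ∧ l z1 < l y ∧ r y ≠ R with hE
    have hs : T.image l ⊆ insert (l z1) (E.image l) := by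
      intro v hv
      rw [mem_image] at hv
      obtain ⟨z, hz, rfl⟩ := hv
      rcases (hmin z hz).eq_or_lt with h1 | h1
      · rw [h1]; exact mem_insert_self _ _
      · apply mem_insert_of_mem
        simp only [hT, mem_filter] at hz
        by_cases hr : r z = R
        · have hcard : m ≤ (univ.filter fun w => l w = l z ∧ c + 1 ≤ r w ∧ r w < r z).card := by
            by_contra hcon
            exact hz.2.2.2 ⟨hz.2.1, by omega⟩
          have hpos : 0 < (univ.filter fun w => l w = l z ∧ c + 1 ≤ r w ∧ r w < r z).card := by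
            have := hH.pos; omega
          obtain ⟨w, hw⟩ := card_pos.1 hpos
          simp only [mem_filter, mem_univ, true_and] at hw
          rw [← hw.1]
          apply mem_image_of_mem
          simp only [hE, mem_filter, mem_univ, true_and]
          omega
        · apply mem_image_of_mem
          simp only [hE, mem_filter, mem_univ, true_and]
          exact ⟨by omega, by omega, h1, hr⟩
    have h1 := card_le_card hs
    have h2 := card_insert_le (l z1) (E.image l)
    have h3 := card_image_le (s := E) (f := l)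
    omega
  · set T := S.filter fun z => l z < c + 1 ∧ c + 1 ≤ r z ∧ Ins l r m (c + 1) z with hT
    rcases T.eq_empty_or_nonempty with hTe | hTn
    · rw [hTe]; simp
    obtain ⟨e, he, hmax⟩ := T.exists_max_image r hTn
    have he' := he
    simp only [hT, mem_filter] at he'
    obtain ⟨L, hL⟩ := conc' hH (e := e) (x := c) (by omega) (by omega) (hN e he'.1)
    set E := univ.filter fun y => l y ≤ c ∧ c ≤ r y ∧ r y < r e ∧ l y ≠ L with hE
    set B := T.filter fun z => l z = L with hB
    have hBr : (B.image r).card ≤ m := by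
      apply row_rvals (L := L) (c := c + 1) hH.pos
      intro z hz
      simp only [hB, hT, mem_filter] at hz
      exact ⟨hz.2, hz.1.2.2.1, hz.1.2.2.2⟩
    have hs : T.image r ⊆ insert (r e) (E.image r ∪ B.image r) := by
      intro v hv
      rw [mem_image] at hv
      obtain ⟨z, hz, rfl⟩ := hv
      rcases (hmax z hz).eq_or_lt with h1 | h1
      · rw [h1]; exact mem_insert_self _ _
      · apply mem_insert_of_mem
        rw [mem_union]
        by_cases hl : l z = L
        · right
          exact mem_image_of_mem _ (by rw [hB, mem_filter]; exact ⟨hz, hl⟩)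
        · left
          apply mem_image_of_mem
          simp only [hT, mem_filter] at hz
          simp only [hE, mem_filter, mem_univ, true_and]
          exact ⟨by omega, by omega, h1, hl⟩
    have h1 := card_le_card hs
    have h2 := card_insert_le (r e) (E.image r ∪ B.image r)
    have h3 := card_image_le (s := E) (f := r)
    have h4 := card_union_le (E.image r) (B.image r)
    have := hH.pos
    omega
  · intro e he a d hw h1 h2
    exact absurd ⟨e, he, a, d, hw, by omega, by omega⟩ hno

lemma Bd.step_win (hH : Hyp l r m) {S : Finset V} {c : ℕ} {e : V} {a d : ℕ}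
    (h : Gr l r m S c e a d) : Bd l r m S (d + 1) := by
  obtain ⟨w1, w2, w3, w4, w5⟩ := h.ww
  -- exceptional elements
  have hex : ∃ E : Finset V, E.card ≤ 4 * m ∧ ∀ z ∈ S, l z < d + 1 → d + 1 ≤ r z →
      z ∈ E ∨ (l z = l e ∧ r z ≤ r e) := by
    by_cases hd : d = r e
    · refine ⟨univ.filter fun y => l y ≤ d ∧ d ≤ r y ∧ l e < l y ∧ r e < r y, ?_, ?_⟩
      · have := h.rs hH; omega
      · intro z hz h1 h2
        left
        simp only [mem_filter, mem_univ, true_and]
        refine ⟨by omega, by omega, ?_, by omega⟩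
        by_contra h3
        have := h.g5 hH hz (by omega) (by omega)
        omega
    · have hcol : (Col l r e).card < m := by
        by_contra hcon
        exact hd (h.g3 (by omega))
      have hnx : (Nx l r e (d + 1)).card < m := h.g4 hH.pos (by omega)
      refine ⟨((univ.filter fun y => l y ≤ d ∧ d ≤ r y ∧ l e < l y ∧ r e < r y) ∪
        (univ.filter fun y => l y ≤ a ∧ a ≤ r y ∧ r y < r e ∧ l y < l e)) ∪
        (Col l r e ∪ Nx l r e (d + 1)), ?_, ?_⟩
      · have h1 := h.rs hH
        have h2 := h.ls hH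
        have h3 := card_union_le ((univ.filter fun y => l y ≤ d ∧ d ≤ r y ∧ l e < l y ∧ r e < r y) ∪
          (univ.filter fun y => l y ≤ a ∧ a ≤ r y ∧ r y < r e ∧ l y < l e))
          (Col l r e ∪ Nx l r e (d + 1))
        have h4 := card_union_le (univ.filter fun y => l y ≤ d ∧ d ≤ r y ∧ l e < l y ∧ r e < r y)
          (univ.filter fun y => l y ≤ a ∧ a ≤ r y ∧ r y < r e ∧ l y < l e)
        have h5 := card_union_le (Col l r e) (Nx l r e (d + 1))
        omega
      · intro z hz h1 h2
        by_cases h3 : l z ≤ l e ∧ r e ≤ r z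
        · right
          have := h.g5 hH hz h3.1 h3.2
          omega
        · by_cases h4 : l z = l e
          · right; omega
          · left
            simp only [Nx, Col, mem_union, mem_filter, mem_univ, true_and]
            omega
  obtain ⟨E, hE, hE2⟩ := hex
  refine ⟨?_, ?_, ?_⟩
  · set T := S.filter fun z => l z < d + 1 ∧ d + 1 ≤ r z ∧ ¬ Ins l r m (d + 1) z with hT
    have hs : T.image l ⊆ insert (l e) (E.image l) := by
      intro v hv
      rw [mem_image] at hv
      obtain ⟨z, hz, rfl⟩ := hv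
      simp only [hT, mem_filter] at hz
      rcases hE2 z hz.1 hz.2.1 hz.2.2.1 with h1 | h1
      · exact mem_insert_of_mem (mem_image_of_mem _ h1)
      · rw [h1.1]; exact mem_insert_self _ _
    have h1 := card_le_card hs
    have h2 := card_insert_le (l e) (E.image l)
    have h3 := card_image_le (s := E) (f := l)
    omega
  · set T := S.filter fun z => l z < d + 1 ∧ d + 1 ≤ r z ∧ Ins l r m (d + 1) z with hT
    set B := T.filter fun z => l z = l e with hB
    have hBr : (B.image r).card ≤ m := by
      apply row_rvals (L := l e) (c := d + 1) hH.pos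
      intro z hz
      simp only [hB, hT, mem_filter] at hz
      exact ⟨hz.2, hz.1.2.2.1, hz.1.2.2.2⟩
    have hs : T.image r ⊆ E.image r ∪ B.image r := by
      intro v hv
      rw [mem_image] at hv
      obtain ⟨z, hz, rfl⟩ := hv
      have hz' := hz
      simp only [hT, mem_filter] at hz'
      rw [mem_union]
      rcases hE2 z hz'.1 hz'.2.1 hz'.2.2.1 with h1 | h1
      · exact Or.inl (mem_image_of_mem _ h1)
      · exact Or.inr (mem_image_of_mem _ (by rw [hB, mem_filter]; exact ⟨hz, h1.1⟩))
    have h1 := card_le_card hs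
    have h3 := card_image_le (s := E) (f := r)
    have h4 := card_union_le (E.image r) (B.image r)
    omega
  · intro e1 he1 a1 d1 hw h1 h2
    have ha1 : c < a1 := by
      by_contra hcon
      have := h.M1 e1 he1 a1 d1 hw (by omega) (by have := h.cd; omega)
      omega
    have hs : (univ.filter fun z => a1 ≤ l z ∧ l z < d + 1 ∧ d + 1 ≤ r z) ⊆ RC l r a d := by
      intro z hz
      have := h.ac
      simp only [RC, mem_filter, mem_univ, true_and] at hz ⊢
      omega
    exact (card_le_card hs).trans (h.rc hH)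

lemma Bd.start {S : Finset V} {A : ℕ} (h : ∀ z ∈ S, A ≤ l z) : Bd l r m S A := by
  refine ⟨?_, ?_, ?_⟩
  · have : (S.filter fun z => l z < A ∧ A ≤ r z ∧ ¬ Ins l r m A z) = ∅ := by
      apply filter_eq_empty_iff.2
      intro z hz h1
      have := h z hz
      omega
    rw [this]; simp
  · have : (S.filter fun z => l z < A ∧ A ≤ r z ∧ Ins l r m A z) = ∅ := by
      apply filter_eq_empty_iff.2
      intro z hz h1
      have := h z hz
      omega
    rw [this]; simp
  · intro e he a d hw h1 h2
    have := h e he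
    have := hw.1
    omega

end Pool.Agent.H73R2.Iv
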