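import Pool.Agent.H73R2.Iv.S2b

set_option autoImplicit false
set_option linter.unusedSectionVars false

/-! Sufficiency for `F2`: decomposition tree. -/

namespace Pool.Agent.H73R2.Iv

open Finset Classical

variable {V : Type} [Fintype V] {G : SimpleGraph V} {l r : V → ℕ} {m : ℕ}

lemma tr_split {X Z A B : Finset V} {a b : ℕ} (h : Z ⊆ A ∪ B) (hA : tr G X A ≤ a)
    (hB : tr G X B ≤ b) : tr G X Z ≤ a * b :=
  (tr_mono_right h).trans (tr_union_right.trans (Nat.mul_le_mul hA hB))

lemma thin (hR : ∀ u v, u ≠ v → (G.Adj u v ↔ l u ≤ r v ∧ l v ≤ r u)) (hH : Hyp l r m)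
    {S X O : Finset V} {c d k o : ℕ} (hcd : c ≤ d)
    (hB1 : ((S.filter fun z => l z < c ∧ c ≤ r z ∧ ¬ Ins l r m c z).image l).card ≤ k)
    (hB2 : ((S.filter fun z => l z < d + 1 ∧ d + 1 ≤ r z ∧ Ins l r m (d + 1) z).image r).card ≤ k)
    (hX1 : ∀ z ∈ S, Ins l r m c z → z ∈ X) (hX2 : ∀ z ∈ X, z ∈ S ∧ Ins l r m (d + 1) z)
    (hO : O.card ≤ o) (hXO : ∀ z ∈ S, z ∉ X → l z ≤ d → z ∈ O ∨ (l z ≤ c ∧ d ≤ r z)) :
    tr G X (S \ X) ≤ 2 ^ o * ((k + 3) * (k + 1)) := by
  set Zc := (S \ X).filter fun z => l z ≤ c ∧ d ≤ r z with hZc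
  set Zr := (S \ X).filter fun z => d < l z with hZr
  have hne : ∀ y ∈ X, ∀ z ∈ S \ X, y ≠ z := by
    rintro y hy z hz rfl
    exact (mem_sdiff.1 hz).2 hy
  have hXl : ∀ y ∈ X, l y ≤ d := by
    intro y hy
    have := (hX2 y hy).2.1
    omega
  refine tr_split (A := O) (B := Zc ∪ Zr) ?_ (tr_le_pow' hO) (tr_split (Subset.refl _) ?_ ?_)
  · intro z hz
    rw [mem_union, mem_union]
    have hz' := mem_sdiff.1 hz
    by_cases h1 : l z ≤ d
    · rcases hXO z hz'.1 hz'.2 h1 with h2 | h2
      · exact Or.inl h2
      · exact Or.inr (Or.inl (by rw [hZc, mem_filter]; exact ⟨hz, h2⟩))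
    · exact Or.inr (Or.inr (by rw [hZr, mem_filter]; exact ⟨hz, by omega⟩))
  · -- full covers
    have e : X = X.filter (fun y => c ≤ r y) ∪ X.filter (fun y => ¬ c ≤ r y) :=
      (filter_union_filter_not_eq _ _).symm
    have h1 : tr G (X.filter fun y => c ≤ r y) Zc ≤ 1 := by
      apply tr_le_one
      have key : ∀ y ∈ X.filter (fun y => c ≤ r y), ∀ z ∈ Zc, G.Adj y z := by
        intro y hy z hz
        rw [mem_filter] at hy
        rw [hZc, mem_filter] at hz
        rw [hR y z (hne y hy.1 z hz.1)]
        have := hXl y hy.1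
        omega
      intro y hy y' hy' z hz
      exact iff_of_true (key y hy z hz) (key y' hy' z hz)
    have h2 : tr G (X.filter fun y => ¬ c ≤ r y) Zc ≤ (k + 1) + 1 := by
      apply tr_le_lvals l r
      · have hs : Zc.image l ⊆ insert c
            ((S.filter fun z => l z < c ∧ c ≤ r z ∧ ¬ Ins l r m c z).image l) := by
          intro v hv
          rw [mem_image] at hv
          obtain ⟨z, hz, rfl⟩ := hv
          rw [hZc, mem_filter, mem_sdiff] at hz
          rcases hz.2.1.eq_or_lt with h3 | h3
          · rw [h3]; exact mem_insert_self _ _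
          · apply mem_insert_of_mem
            apply mem_image_of_mem
            rw [mem_filter]
            exact ⟨hz.1.1, h3, by omega, fun h => hz.1.2 (hX1 z hz.1.1 h)⟩
        have h3 := card_le_card hs
        have h4 := card_insert_le c
          ((S.filter fun z => l z < c ∧ c ≤ r z ∧ ¬ Ins l r m c z).image l)
        omega
      · intro y hy z hz
        rw [mem_filter] at hy
        rw [hZc, mem_filter] at hz
        rw [hR y z (hne y hy.1 z hz.1)]
        have := hH.le y
        constructor
        · intro h; exact h.2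
        · intro h; exact ⟨by omega, h⟩
    have h3 := tr_union_left (G := G) (A := X.filter fun y => c ≤ r y)
      (B := X.filter fun y => ¬ c ≤ r y) (Z := Zc)
    rw [← e] at h3
    omega
  · have e : X = X.filter (fun y => d < r y) ∪ X.filter (fun y => ¬ d < r y) :=
      (filter_union_filter_not_eq _ _).symm
    have h1 : tr G (X.filter fun y => ¬ d < r y) Zr ≤ 1 := by
      apply tr_le_one
      have key : ∀ y ∈ X.filter (fun y => ¬ d < r y), ∀ z ∈ Zr, ¬ G.Adj y z := by
        intro y hy z hz
        rw [mem_filter] at hy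
        rw [hZr, mem_filter] at hz
        rw [hR y z (hne y hy.1 z hz.1)]
        omega
      intro y hy y' hy' z hz
      exact iff_of_false (key y hy z hz) (key y' hy' z hz)
    have h2 : tr G (X.filter fun y => d < r y) Zr ≤ k := by
      apply tr_le_rvals r
      · refine le_trans (card_le_card ?_) hB2
        intro v hv
        rw [mem_image] at hv
        obtain ⟨z, hz, rfl⟩ := hv
        rw [mem_filter] at hz
        apply mem_image_of_mem
        rw [mem_filter]
        have := hX2 z hz.1
        exact ⟨this.1, this.2.1, by omega, this.2⟩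
      · intro y hy y' hy' hr z hz
        rw [mem_filter] at hy hy'
        rw [hZr, mem_filter] at hz
        rw [hR y z (hne y hy.1 z hz.1), hR y' z (hne y' hy'.1 z hz.1), hr]
        have h3 := hXl y hy.1
        have h4 := hXl y' hy'.1
        have h5 := hH.le z
        constructor
        · intro h; exact ⟨by omega, h.2⟩
        · intro h; exact ⟨by omega, h.2⟩
    have h3 := tr_union_left (G := G) (A := X.filter fun y => d < r y)
      (B := X.filter fun y => ¬ d < r y) (Z := Zr)
    rw [← e] at h3
    omega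

lemma context (hR : ∀ u v, u ≠ v → (G.Adj u v ↔ l u ≤ r v ∧ l v ≤ r u)) (hH : Hyp l r m)
    {A D : ℕ} (hL : (LC l r A D).card ≤ 6 * m) (hRC : (RC l r A D).card ≤ 6 * m)
    {X : Finset V} (hX : X ⊆ In l r A D) :
    tr G X (univ \ In l r A D) ≤ 2 ^ (12 * m) := by
  have h1 : tr G X (univ \ In l r A D) ≤ 2 ^ (12 * m) * 1 := by
    refine tr_split (A := LC l r A D ∪ RC l r A D)
      (B := (univ \ In l r A D) \ (LC l r A D ∪ RC l r A D)) ?_ (tr_le_pow' ?_) (tr_le_one ?_)
    · intro z hz
      rw [mem_union, mem_sdiff]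
      tauto
    · have := card_union_le (LC l r A D) (RC l r A D)
      omega
    · intro y hy y' hy' z hz
      have h1 := hX hy
      have h2 := hX hy'
      have h3 : y ≠ z := by
        rintro rfl
        exact (mem_sdiff.1 (mem_sdiff.1 hz).1).2 h1
      have h4 : y' ≠ z := by
        rintro rfl
        exact (mem_sdiff.1 (mem_sdiff.1 hz).1).2 h2
      rw [hR y z h3, hR y' z h4]
      simp only [In, LC, RC, mem_sdiff, mem_union, mem_filter, mem_univ, true_and] at h1 h2 hz
      have := hH.le y
      have := hH.le y'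
      have := hH.le z
      omega
  simpa using h1

/-- the bound -/
def KK (m : ℕ) : ℕ := 2 ^ (12 * m) * (1 * (2 ^ (12 * m) * ((5 * m + 1 + 3) * (5 * m + 1 + 1))))

section step

variable (hR : ∀ u v, u ≠ v → (G.Adj u v ↔ l u ≤ r v ∧ l v ≤ r u)) (hH : Hyp l r m)
  {A D : ℕ} (hL : (LC l r A D).card ≤ 6 * m) (hRC : (RC l r A D).card ≤ 6 * m)

/-- proper elements of the window -/
noncomputable def Pr (l r : V → ℕ) (A D : ℕ) : Finset V :=
  (In l r A D).filter fun z => ¬ (l z = A ∧ r z = D)

include hR hH hL hRC in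
lemma total {X : Finset V} (hX : X ⊆ In l r A D) {b : ℕ}
    (h : tr G X (Pr l r A D \ X) ≤ 2 ^ (12 * m) * ((5 * m + 1 + 3) * (5 * m + 1 + 1))) :
    tr G X (univ \ X) ≤ KK m := by
  unfold KK
  refine tr_split (A := univ \ In l r A D)
    (B := (((In l r A D).filter fun z => l z = A ∧ r z = D) \ X) ∪ (Pr l r A D \ X)) ?_
    (context hR hH hL hRC hX) (tr_split (Subset.refl _) (tr_le_one ?_) h)
  · intro z hz
    simp only [Pr, mem_union, mem_sdiff, mem_filter, mem_univ, true_and] at hz ⊢
    tauto
  · have key : ∀ y ∈ X, ∀ z ∈ ((In l r A D).filter fun z => l z = A ∧ r z = D) \ X, G.Adj y z := by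
      intro y hy z hz
      rw [mem_sdiff, mem_filter] at hz
      have hyz : y ≠ z := by rintro rfl; exact hz.2 hy
      rw [hR y z hyz]
      have := hX hy
      have h2 := hH.le y
      simp only [In, mem_filter, mem_univ, true_and] at this
      omega
    intro y hy y' hy' z hz
    exact iff_of_true (key y hy z hz) (key y' hy' z hz)

/-- inserted elements -/
noncomputable def PP (l r : V → ℕ) (m A D c : ℕ) : Finset V :=
  (Pr l r A D).filter fun z => Ins l r m c z

include hR hH hL hRC in
lemma step_non {c : ℕ} (hb : Bd l r m (Pr l r A D) c)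
    (hno : ¬ ∃ e ∈ Pr l r A D, ∃ a d, WW l r m e a d ∧ a ≤ c ∧ c ≤ d)
    (h : DT0 G (KK m) (PP l r m A D c)) : DT0 G (KK m) (PP l r m A D (c + 1)) := by
  have hb' := Bd.step_non hH hno
  have hsub : PP l r m A D c ⊆ PP l r m A D (c + 1) := by
    intro z hz
    simp only [PP, mem_filter] at hz ⊢
    exact ⟨hz.1, hz.2.mono (by omega)⟩
  have e : PP l r m A D (c + 1) = PP l r m A D c ∪ (PP l r m A D (c + 1) \ PP l r m A D c) := by
    rw [union_sdiff_of_subset hsub]
  rw [e]
  refine DT0.singles disjoint_sdiff h ?_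
  intro U hU _
  have hXs : PP l r m A D c ∪ U ⊆ PP l r m A D (c + 1) := by
    apply union_subset hsub
    exact hU.trans sdiff_subset
  have hin : PP l r m A D (c + 1) ⊆ In l r A D := by
    intro z hz
    simp only [PP, Pr, mem_filter] at hz
    exact hz.1.1
  refine total (b := 0) hR hH hL hRC (hXs.trans hin) ?_
  have := thin (S := Pr l r A D) (X := PP l r m A D c ∪ U) (O := ∅) (c := c) (d := c)
    (k := 5 * m + 1) (o := 12 * m) hR hH le_rfl hb.F1 hb'.F2 ?_ ?_ (by simp) ?_
  · exact this
  · intro z hz hi
    exact mem_union_left _ (by rw [PP, mem_filter]; exact ⟨hz, hi⟩)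
  · intro z hz
    have := hXs hz
    rw [PP, mem_filter] at this
    exact this
  · intro z hz hzX h1
    right
    refine ⟨h1, ?_⟩
    by_contra h2
    exact hzX (mem_union_left _ (by rw [PP, mem_filter]; exact ⟨hz, ins_of_lt hH (by omega)⟩))

include hR hH hL hRC in
lemma step_win {c : ℕ} (hb : Bd l r m (Pr l r A D) c) {e : V} {a d : ℕ}
    (hg : Gr l r m (Pr l r A D) c e a d)
    (hIH : ∀ A' D', A' ≤ D' → D' - A' < D - A → (LC l r A' D').card ≤ 6 * m →
      (RC l r A' D').card ≤ 6 * m → DT0 G (KK m) (In l r A' D'))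
    (h : DT0 G (KK m) (PP l r m A D c)) : DT0 G (KK m) (PP l r m A D (d + 1)) := by
  obtain ⟨w1, w2, w3, w4, w5⟩ := hg.ww
  have hac := hg.ac
  have hcd := hg.cd
  have he := hg.mem
  simp only [Pr, In, mem_filter, mem_univ, true_and] at he
  have hb' := Bd.step_win hH hg
  have hLC : (LC l r c d).card ≤ 6 * m := by
    have h1 : LC l r c d ⊆ LC l r a d ∪ univ.filter fun z => a ≤ l z ∧ l z < c ∧ c ≤ r z := by
      intro z hz
      simp only [LC, mem_union, mem_filter, mem_univ, true_and] at hz ⊢
      omega
    have h2 := card_le_card h1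
    have h3 := card_union_le (LC l r a d) (univ.filter fun z => a ≤ l z ∧ l z < c ∧ c ≤ r z)
    have h4 := hg.lc hH
    have h5 : (univ.filter fun z => a ≤ l z ∧ l z < c ∧ c ≤ r z).card ≤ 3 * m := by
      rcases hac.eq_or_lt with h6 | h6
      · have : (univ.filter fun z => a ≤ l z ∧ l z < c ∧ c ≤ r z) = ∅ := by
          apply filter_eq_empty_iff.2
          intro z _ hz
          omega
        rw [this]; simp
      · exact hb.F3 e hg.mem a d hg.ww h6 hcd
    omega
  have hRC' : (RC l r c d).card ≤ 3 * m := by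
    refine (card_le_card ?_).trans (hg.rc hH)
    intro z hz
    simp only [RC, mem_filter, mem_univ, true_and] at hz ⊢
    omega
  have hlen : d - c < D - A := by
    have := hH.le e
    omega
  have hI := hIH c d hcd hlen hLC (by omega)
  have hIn : In l r c d ⊆ Pr l r A D := by
    intro z hz
    simp only [Pr, In, mem_filter, mem_univ, true_and] at hz ⊢
    omega
  have hsub : PP l r m A D c ⊆ PP l r m A D (d + 1) := by
    intro z hz
    simp only [PP, mem_filter] at hz ⊢
    exact ⟨hz.1, hz.2.mono (by omega)⟩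
  have hInP : In l r c d ⊆ PP l r m A D (d + 1) := by
    intro z hz
    have h1 := hIn hz
    simp only [In, mem_filter, mem_univ, true_and] at hz
    rw [PP, mem_filter]
    exact ⟨h1, ins_of_lt hH (by omega)⟩
  have hdis : Disjoint (PP l r m A D c) (In l r c d) := by
    rw [disjoint_left]
    intro z hz hz'
    simp only [PP, mem_filter] at hz
    simp only [In, mem_filter, mem_univ, true_and] at hz'
    have := hz.2.1
    omega
  have hPin : PP l r m A D (d + 1) ⊆ In l r A D := by
    intro z hz
    simp only [PP, Pr, mem_filter] at hz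
    exact hz.1.1
  -- thinness of all intermediate sets
  have hthin : ∀ X, PP l r m A D c ∪ In l r c d ⊆ X → X ⊆ PP l r m A D (d + 1) →
      tr G X (univ \ X) ≤ KK m := by
    intro X hX1 hX2
    refine total (b := 0) hR hH hL hRC (hX2.trans hPin) ?_
    refine thin (S := Pr l r A D) (X := X) (O := LC l r c d ∪ RC l r c d) (c := c) (d := d)
      (k := 5 * m + 1) (o := 12 * m) hR hH hcd hb.F1 hb'.F2 ?_ ?_ ?_ ?_
    · intro z hz hi
      exact hX1 (mem_union_left _ (by rw [PP, mem_filter]; exact ⟨hz, hi⟩))
    · intro z hz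
      have := hX2 hz
      rw [PP, mem_filter] at this
      exact this
    · have := card_union_le (LC l r c d) (RC l r c d)
      omega
    · intro z hz hzX h1
      have h2 : c ≤ r z := by
        by_contra h2
        exact hzX (hX1 (mem_union_left _ (by
          rw [PP, mem_filter]; exact ⟨hz, ins_of_lt hH (by omega)⟩)))
      have h3 : z ∉ In l r c d := fun h => hzX (hX1 (mem_union_right _ h))
      simp only [In, LC, RC, mem_union, mem_filter, mem_univ, true_and] at h3 ⊢
      omega
  have h1 : DT0 G (KK m) (PP l r m A D c ∪ In l r c d) :=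
    DT0.union hdis h hI (hthin _ (Subset.refl _) (union_subset hsub hInP))
  have e : PP l r m A D (d + 1) = (PP l r m A D c ∪ In l r c d) ∪
      (PP l r m A D (d + 1) \ (PP l r m A D c ∪ In l r c d)) := by
    rw [union_sdiff_of_subset (union_subset hsub hInP)]
  rw [e]
  refine DT0.singles disjoint_sdiff h1 ?_
  intro U hU _
  exact hthin _ subset_union_left
    (union_subset (union_subset hsub hInP) (hU.trans sdiff_subset))

include hR hH hL hRC in
lemma run (hAD : A ≤ D)
    (hIH : ∀ A' D', A' ≤ D' → D' - A' < D - A → (LC l r A' D').card ≤ 6 * m →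
      (RC l r A' D').card ≤ 6 * m → DT0 G (KK m) (In l r A' D')) (j : ℕ) :
    ∀ c, c + j = D + 1 → Bd l r m (Pr l r A D) c → DT0 G (KK m) (PP l r m A D c) →
      DT0 G (KK m) (Pr l r A D) := by
  induction j using Nat.strong_induction_on with
  | _ j ih =>
    intro c hc hb h
    rcases Nat.eq_zero_or_pos j with hj | hj
    · have : PP l r m A D c = Pr l r A D := by
        rw [PP, filter_eq_self]
        intro z hz
        simp only [Pr, In, mem_filter, mem_univ, true_and] at hz
        exact ins_of_lt hH (by omega)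
      rwa [this] at h
    · by_cases hex : ∃ e ∈ Pr l r A D, ∃ a d, WW l r m e a d ∧ a ≤ c ∧ c ≤ d
      · obtain ⟨e, a, d, hg⟩ := exists_gr hex
        have h1 := step_win hR hH hL hRC hb hg hIH h
        have he := hg.mem
        simp only [Pr, In, mem_filter, mem_univ, true_and] at he
        have h2 := hg.ww.2.2.1
        have h3 := hg.cd
        exact ih (D + 1 - (d + 1)) (by omega) (d + 1) (by omega) (Bd.step_win hH hg) h1
      · have h1 := step_non hR hH hL hRC hb hex h
        exact ih (j - 1) (by omega) (c + 1) (by omega) (Bd.step_non hH hex) h1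

end step

theorem dt_In (hR : ∀ u v, u ≠ v → (G.Adj u v ↔ l u ≤ r v ∧ l v ≤ r u)) (hH : Hyp l r m)
    (n : ℕ) : ∀ A D, A ≤ D → D - A = n → (LC l r A D).card ≤ 6 * m →
      (RC l r A D).card ≤ 6 * m → DT0 G (KK m) (In l r A D) := by
  induction n using Nat.strong_induction_on with
  | _ n ih =>
    intro A D hAD hn hL hRC
    have h0 : DT0 G (KK m) (PP l r m A D A) := by
      left
      rw [PP, filter_eq_empty_iff]
      intro z hz hi
      simp only [Pr, In, mem_filter, mem_univ, true_and] at hz
      have := hi.1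
      omega
    have h1 := run hR hH hL hRC hAD
      (fun A' D' h1 h2 h3 h4 => ih (D' - A') (by omega) A' D' h1 rfl h3 h4) (D + 1 - A) A
      (by omega) (Bd.start fun z hz => by
        simp only [Pr, In, mem_filter, mem_univ, true_and] at hz
        exact hz.1.1) h0
    have e : In l r A D = Pr l r A D ∪ (In l r A D).filter fun z => l z = A ∧ r z = D := by
      rw [Pr, union_comm]
      exact (filter_union_filter_not_eq _ _).symm
    rw [e]
    refine DT0.singles ?_ h1 ?_
    · rw [Pr, disjoint_comm]
      exact disjoint_filter_filter_not _ _ _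
    · intro U hU _
      have hs : Pr l r A D ∪ U ⊆ In l r A D := by
        apply union_subset
        · exact filter_subset _ _
        · exact hU.trans (filter_subset _ _)
      refine total (b := 0) hR hH hL hRC hs ?_
      have : Pr l r A D \ (Pr l r A D ∪ U) = ∅ := by
        rw [sdiff_eq_empty_iff_subset]
        exact subset_union_left
      rw [this]
      refine (tr_le_pow' (n := 12 * m) (by simp)).trans ?_
      exact Nat.le_mul_of_pos_right _ (by positivity)

end Pool.Agent.H73R2.Iv
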