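import Pool.Agent.H73R2.Iv.S2c
import Pool.Agent.H175R2.Cw

set_option autoImplicit false
set_option linter.unusedSectionVars false

/-! Sufficiency for `F2`: the pattern. -/

namespace Pool.Agent.H73R2.Iv

open Finset Classical Pool.Agent.H175R2

variable {V : Type} [Fintype V] {G : SimpleGraph V} {l r : V → ℕ} {m : ℕ}

omit [Fintype V] in
lemma mkEmb {W : Type} (F : SimpleGraph W) (f : W → V)
    (h : ∀ x y, x ≠ y → f x ≠ f y ∧ (G.Adj (f x) (f y) ↔ F.Adj x y)) : F.IsIndContained G := by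
  refine ⟨⟨⟨f, ?_⟩, ?_⟩⟩
  · intro x y hxy
    by_contra hne
    exact (h x y hne).1 hxy
  · intro x y
    show G.Adj (f x) (f y) ↔ F.Adj x y
    by_cases hxy : x = y
    · subst hxy; simp
    · exact (h x y hxy).2

/-- the pattern for `F2`, given by thresholds: `p`, `a`, `b` and families `Q`, `N`. -/
lemma pat2 (hR : ∀ u v, u ≠ v → (G.Adj u v ↔ l u ≤ r v ∧ l v ≤ r u)) (hle : ∀ v, l v ≤ r v)
    {e a b : V} {x q : ℕ} {Q N : Finset V}
    (h1 : l e ≤ x) (h2 : x ≤ r e) (h3 : r e ≤ q) (ha : r a = l e) (hb : q < l b)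
    (hQ : ∀ y ∈ Q, l e < l y ∧ l y ≤ x ∧ l b ≤ r y)
    (hN : ∀ y ∈ N, l e < l y ∧ l y ≤ x ∧ x ≤ r y ∧ r y ≤ q)
    (hQc : m ≤ Q.card) (hNc : m ≤ N.card) (hm : 1 ≤ m) : (F2 m).IsIndContained G := by
  obtain ⟨Q', hQ', hQc'⟩ := Finset.exists_subset_card_eq hQc
  obtain ⟨N', hN', hNc'⟩ := Finset.exists_subset_card_eq hNc
  let fq : Fin m → V := fun i => (Q'.equivFinOfCardEq hQc').symm i
  let fn : Fin m → V := fun i => (N'.equivFinOfCardEq hNc').symm i
  have hfq : Function.Injective fq := fun i j h => by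
    have := Subtype.ext h
    exact (Q'.equivFinOfCardEq hQc').symm.injective this
  have hfn : Function.Injective fn := fun i j h => by
    have := Subtype.ext h
    exact (N'.equivFinOfCardEq hNc').symm.injective this
  have hq : ∀ i, l e < l (fq i) ∧ l (fq i) ≤ x ∧ l b ≤ r (fq i) := fun i =>
    hQ _ (hQ' ((Q'.equivFinOfCardEq hQc').symm i).2)
  have hn : ∀ i, l e < l (fn i) ∧ l (fn i) ≤ x ∧ x ≤ r (fn i) ∧ r (fn i) ≤ q := fun i =>
    hN _ (hN' ((N'.equivFinOfCardEq hNc').symm i).2)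
  have hex : l e < x := by
    have := hq ⟨0, hm⟩
    omega
  have hea := hle a
  have hbb := hle b
  have ne_of : ∀ u v : V, (l u ≠ l v ∨ r u ≠ r v) → u ≠ v := by
    rintro u v h rfl
    simp at h
  let f : Fin m ⊕ Fin m ⊕ Fin 3 → V := fun w =>
    match w with
    | .inl i => fq i
    | .inr (.inl i) => fn i
    | .inr (.inr j) => if j = 0 then e else if j = 1 then a else b
  have e0 : f (.inr (.inr 0)) = e := rfl
  have e1 : f (.inr (.inr 1)) = a := rfl
  have e2 : f (.inr (.inr 2)) = b := rfl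
  have eq' : ∀ i, f (.inl i) = fq i := fun _ => rfl
  have en : ∀ i, f (.inr (.inl i)) = fn i := fun _ => rfl
  -- unordered pairs
  have key : ∀ u v : V, ∀ P : Prop, (l u ≠ l v ∨ r u ≠ r v) → ((l u ≤ r v ∧ l v ≤ r u) ↔ P) →
      u ≠ v ∧ (G.Adj u v ↔ P) := by
    intro u v P h1 h2
    exact ⟨ne_of u v h1, (hR u v (ne_of u v h1)).trans h2⟩
  have key' : ∀ u v : V, ∀ P : Prop, u ≠ v → ((l u ≤ r v ∧ l v ≤ r u) ↔ P) →
      u ≠ v ∧ (G.Adj u v ↔ P) := by
    intro u v P h1 h2
    exact ⟨h1, (hR u v h1).trans h2⟩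
  apply mkEmb (F2 m) f
  have T1 : ∀ i j : Fin m, i ≠ j → f (.inl i) ≠ f (.inl j) ∧
      (G.Adj (f (.inl i)) (f (.inl j)) ↔ (F2 m).Adj (.inl i) (.inl j)) := by
    intro i j hij
    have h5 := hq i
    have h6 := hq j
    refine key' _ _ _ (fun h => hij (hfq h)) ?_
    rw [eq', eq']
    simp only [F2, SimpleGraph.fromRel_adj]
    refine iff_of_true (by omega) ⟨by simpa using hij, Or.inl trivial⟩
  have T2 : ∀ i j : Fin m, f (.inl i) ≠ f (.inr (.inl j)) ∧
      (G.Adj (f (.inl i)) (f (.inr (.inl j))) ↔ (F2 m).Adj (.inl i) (.inr (.inl j))) := by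
    intro i j
    have h5 := hq i
    have h6 := hn j
    rw [eq', en]
    refine key _ _ _ (by omega) ?_
    simp only [F2, SimpleGraph.fromRel_adj]
    refine iff_of_true (by omega) ⟨by simp, Or.inl trivial⟩
  have T3 : ∀ i j : Fin m, i ≠ j → f (.inr (.inl i)) ≠ f (.inr (.inl j)) ∧
      (G.Adj (f (.inr (.inl i))) (f (.inr (.inl j))) ↔
        (F2 m).Adj (.inr (.inl i)) (.inr (.inl j))) := by
    intro i j hij
    have h5 := hn i
    have h6 := hn j
    refine key' _ _ _ (fun h => hij (hfn h)) ?_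
    rw [en, en]
    simp only [F2, SimpleGraph.fromRel_adj]
    refine iff_of_true (by omega) ⟨by simpa using hij, Or.inl trivial⟩
  have T4 : ∀ (i : Fin m) (j : Fin 3), f (.inl i) ≠ f (.inr (.inr j)) ∧
      (G.Adj (f (.inl i)) (f (.inr (.inr j))) ↔ (F2 m).Adj (.inl i) (.inr (.inr j))) := by
    intro i j
    have h5 := hq i
    fin_cases j
    · show fq i ≠ e ∧ (G.Adj (fq i) e ↔ (F2 m).Adj (.inl i) (.inr (.inr 0)))
      refine key _ _ _ (by omega) ?_
      simp only [F2, SimpleGraph.fromRel_adj]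
      refine iff_of_true (by omega) ⟨by simp, by simp⟩
    · show fq i ≠ a ∧ (G.Adj (fq i) a ↔ (F2 m).Adj (.inl i) (.inr (.inr 1)))
      refine key _ _ _ (by omega) ?_
      simp only [F2, SimpleGraph.fromRel_adj]
      refine iff_of_false (by omega) (by simp)
    · show fq i ≠ b ∧ (G.Adj (fq i) b ↔ (F2 m).Adj (.inl i) (.inr (.inr 2)))
      refine key _ _ _ (by omega) ?_
      simp only [F2, SimpleGraph.fromRel_adj]
      refine iff_of_true (by omega) ⟨by simp, by simp⟩
  have T5 : ∀ (i : Fin m) (j : Fin 3), f (.inr (.inl i)) ≠ f (.inr (.inr j)) ∧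
      (G.Adj (f (.inr (.inl i))) (f (.inr (.inr j))) ↔
        (F2 m).Adj (.inr (.inl i)) (.inr (.inr j))) := by
    intro i j
    have h5 := hn i
    fin_cases j
    · show fn i ≠ e ∧ (G.Adj (fn i) e ↔ (F2 m).Adj (.inr (.inl i)) (.inr (.inr 0)))
      refine key _ _ _ (by omega) ?_
      simp only [F2, SimpleGraph.fromRel_adj]
      refine iff_of_true (by omega) ⟨by simp, by simp⟩
    · show fn i ≠ a ∧ (G.Adj (fn i) a ↔ (F2 m).Adj (.inr (.inl i)) (.inr (.inr 1)))
      refine key _ _ _ (by omega) ?_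
      simp only [F2, SimpleGraph.fromRel_adj]
      refine iff_of_false (by omega) (by simp)
    · show fn i ≠ b ∧ (G.Adj (fn i) b ↔ (F2 m).Adj (.inr (.inl i)) (.inr (.inr 2)))
      refine key _ _ _ (by omega) ?_
      simp only [F2, SimpleGraph.fromRel_adj]
      refine iff_of_false (by omega) (by simp)
  have T6 : ∀ (i j : Fin 3), i < j → f (.inr (.inr i)) ≠ f (.inr (.inr j)) ∧
      (G.Adj (f (.inr (.inr i))) (f (.inr (.inr j))) ↔
        (F2 m).Adj (.inr (.inr i)) (.inr (.inr j))) := by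
    intro i j hij
    fin_cases i <;> fin_cases j <;> first | (exact absurd hij (by decide)) | skip
    · show e ≠ a ∧ (G.Adj e a ↔ (F2 m).Adj (.inr (.inr 0)) (.inr (.inr 1)))
      refine key _ _ _ (by omega) ?_
      simp only [F2, SimpleGraph.fromRel_adj]
      refine iff_of_true (by omega) ⟨by simp, by simp⟩
    · show e ≠ b ∧ (G.Adj e b ↔ (F2 m).Adj (.inr (.inr 0)) (.inr (.inr 2)))
      refine key _ _ _ (by omega) ?_
      simp only [F2, SimpleGraph.fromRel_adj]
      refine iff_of_false (by omega) (by simp)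
    · show a ≠ b ∧ (G.Adj a b ↔ (F2 m).Adj (.inr (.inr 1)) (.inr (.inr 2)))
      refine key _ _ _ (by omega) ?_
      simp only [F2, SimpleGraph.fromRel_adj]
      refine iff_of_false (by omega) (by simp)
  have sw : ∀ x y, (f x ≠ f y ∧ (G.Adj (f x) (f y) ↔ (F2 m).Adj x y)) →
      (f y ≠ f x ∧ (G.Adj (f y) (f x) ↔ (F2 m).Adj y x)) := by
    intro x y h
    rw [G.adj_comm, (F2 m).adj_comm]
    exact ⟨h.1.symm, h.2⟩
  rintro (i | i | i) (j | j | j) hxy
  · exact T1 i j (fun h => hxy (by rw [h]))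
  · exact T2 i j
  · exact T4 i j
  · exact sw (.inl j) (.inr (.inl i)) (T2 j i)
  · exact T3 i j (fun h => hxy (by rw [h]))
  · exact T5 i j
  · exact sw (.inl j) (.inr (.inr i)) (T4 j i)
  · exact sw (.inr (.inl j)) (.inr (.inr i)) (T5 j i)
  · rcases lt_trichotomy i j with h | h | h
    · exact T6 i j h
    · exact absurd (by rw [h]) hxy
    · exact sw (.inr (.inr j)) (.inr (.inr i)) (T6 j i h)

/-- one-sided inequality from freeness -/
lemma R1_of_free (hr : Rep G l r) (hfree : ¬ (F2 m).IsIndContained G) (hm : 1 ≤ m) :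
    ∀ e x q, l e ≤ x → x ≤ r e → r e ≤ q →
    (univ.filter fun y => l y ≤ x ∧ x ≤ r y ∧ l e < l y ∧ q < r y).card < m ∨
    (univ.filter fun y => l y ≤ x ∧ x ≤ r y ∧ l e < l y ∧ r y ≤ q).card < m := by
  intro e x q h1 h2 h3
  by_contra hcon
  push Not at hcon
  obtain ⟨hQ, hN⟩ := hcon
  obtain ⟨a, ha⟩ := hr.tl e
  -- the next left end after `q`
  have hpos : 0 < (univ.filter fun y => l y ≤ x ∧ x ≤ r y ∧ l e < l y ∧ q < r y).card := by omega
  obtain ⟨y0, hy0⟩ := card_pos.1 hpos
  simp only [mem_filter, mem_univ, true_and] at hy0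
  obtain ⟨w0, hw0⟩ := hr.tr y0
  obtain ⟨b, hb, hbmin⟩ := Finset.exists_min_image (univ.filter fun w => q < l w) l
    ⟨w0, by rw [mem_filter]; exact ⟨mem_univ _, by omega⟩⟩
  simp only [mem_filter, mem_univ, true_and] at hb
  apply hfree
  refine pat2 (G := G) hr.adj hr.le (e := e) (a := a) (b := b) (x := x) (q := q)
    h1 h2 h3 ha hb ?_ ?_ hQ hN hm
  · intro y hy
    simp only [mem_filter, mem_univ, true_and] at hy
    refine ⟨hy.2.2.1, hy.1, ?_⟩
    obtain ⟨w, hw⟩ := hr.tr y
    have := hbmin w (by rw [mem_filter]; exact ⟨mem_univ _, by omega⟩)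
    omega
  · intro y hy
    simp only [mem_filter, mem_univ, true_and] at hy
    exact ⟨hy.2.2.1, hy.1, hy.2.1, hy.2.2.2⟩

/-- reflected representation -/
lemma Rep.reflect (hr : Rep G l r) {M : ℕ} (hM : ∀ v, r v ≤ M) :
    Rep G (fun v => M - r v) (fun v => M - l v) := by
  refine ⟨?_, ?_, ?_, ?_⟩
  · intro v
    have := hr.le v
    show M - r v ≤ M - l v
    omega
  · intro u v huv
    rw [hr.adj u v huv]
    have := hM u
    have := hM v
    have := hr.le u
    have := hr.le v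
    show _ ↔ M - r u ≤ M - l v ∧ M - r v ≤ M - l u
    omega
  · intro v
    obtain ⟨w, hw⟩ := hr.tr v
    exact ⟨w, by show M - l w = M - r v; rw [hw]⟩
  · intro v
    obtain ⟨w, hw⟩ := hr.tl v
    exact ⟨w, by show M - r w = M - l v; rw [hw]⟩

lemma hyp_of_free (hr : Rep G l r) (hfree : ¬ (F2 m).IsIndContained G) (hm : 1 ≤ m) :
    Hyp l r m := by
  refine ⟨hr.le, hm, R1_of_free hr hfree hm, ?_⟩
  intro e x p h1 h2 h3
  let M := univ.sup r
  have hM : ∀ v, r v ≤ M := fun v => Finset.le_sup (mem_univ v)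
  have h4 := R1_of_free (hr.reflect hM) hfree hm e (M - x) (M - p)
    (by show M - r e ≤ M - x; omega)
    (by show M - x ≤ M - l e; omega)
    (by show M - l e ≤ M - p; omega)
  have e1 : (univ.filter fun y => l y ≤ x ∧ x ≤ r y ∧ r y < r e ∧ l y < p) =
      (univ.filter fun y => M - r y ≤ M - x ∧ M - x ≤ M - l y ∧ M - r e < M - r y ∧
        M - p < M - l y) := by
    apply filter_congr
    intro y _
    have := hM y
    have := hM e
    have := hr.le y
    have := hr.le e
    omega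
  have e2 : (univ.filter fun y => l y ≤ x ∧ x ≤ r y ∧ r y < r e ∧ p ≤ l y) =
      (univ.filter fun y => M - r y ≤ M - x ∧ M - x ≤ M - l y ∧ M - r e < M - r y ∧
        M - l y ≤ M - p) := by
    apply filter_congr
    intro y _
    have := hM y
    have := hM e
    have := hr.le y
    have := hr.le e
    omega
  rw [e1, e2]
  exact h4

theorem suff2 (m : ℕ) : ∃ K : ℕ, ∀ (V : Type) [Finite V] [Nonempty V] (G : SimpleGraph V),
    IsIntervalGraph G → ¬ (F2 m).IsIndContained G → CwLE G K := by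
  refine ⟨3 * (KK (m + 1) + 1), ?_⟩
  intro V _ _ G hG hfree
  have := Fintype.ofFinite V
  obtain ⟨l, r, hr⟩ := exists_rep hG
  have hfree' : ¬ (F2 (m + 1)).IsIndContained G := by
    intro h
    apply hfree
    refine SimpleGraph.IsIndContained.trans ?_ h
    have hc := Fin.castSucc_injective m
    apply mkEmb (F2 m) (fun w => match w with
      | .inl i => .inl i.castSucc
      | .inr (.inl i) => .inr (.inl i.castSucc)
      | .inr (.inr j) => .inr (.inr j))
    rintro (i | i | i) (j | j | j) hxy <;>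
      simp [F2, SimpleGraph.fromRel_adj] at hxy ⊢ <;> tauto
  have hH := hyp_of_free hr hfree' (by omega)
  have h1 := dt_In hr.adj hH (univ.sup r - 0) 0 (univ.sup r) (Nat.zero_le _) rfl
    (by
      have : LC l r 0 (univ.sup r) = ∅ := by
        apply filter_eq_empty_iff.2
        intro z _ h; omega
      rw [this]; simp)
    (by
      have : RC l r 0 (univ.sup r) = ∅ := by
        apply filter_eq_empty_iff.2
        intro z _ h
        have := Finset.le_sup (f := r) (mem_univ z)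
        omega
      rw [this]; simp)
  have h2 : In l r 0 (univ.sup r) = univ := by
    apply filter_eq_self.2
    intro z _
    exact ⟨Nat.zero_le _, Finset.le_sup (mem_univ z)⟩
  rw [h2] at h1
  rcases h1 with h1 | h1
  · exfalso
    exact Finset.univ_nonempty.ne_empty h1
  · exact cwLE_of_dt h1

end Pool.Agent.H73R2.Iv
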