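import Pool.Agent.H73R2.Iv.Defs
import Pool.Agent.H175R2.Width

set_option autoImplicit false
set_option linter.unusedSectionVars false

namespace Pool.Agent.H73R2.Iv

open Finset Classical Pool.Agent.H175R2

variable {V : Type} [Fintype V] {G : SimpleGraph V}

/-- number of traces of elements of `A` on `Z` -/
noncomputable def tr (G : SimpleGraph V) (A Z : Finset V) : ℕ :=
  (A.image fun y => Z.filter fun z => G.Adj y z).card

lemma tr_mono_left {A A' Z : Finset V} (h : A ⊆ A') : tr G A Z ≤ tr G A' Z :=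
  card_le_card (image_subset_image h)

lemma tr_mono_right {A Z Z' : Finset V} (h : Z' ⊆ Z) : tr G A Z' ≤ tr G A Z := by
  unfold tr
  have : (A.image fun y => Z'.filter fun z => G.Adj y z) =
      (A.image fun y => Z.filter fun z => G.Adj y z).image (fun s => s.filter (· ∈ Z')) := by
    rw [image_image]
    apply image_congr
    intro y _
    ext z
    simp only [mem_filter, Function.comp]
    constructor
    · rintro ⟨h1, h2⟩; exact ⟨⟨h h1, h2⟩, h1⟩
    · rintro ⟨⟨_, h2⟩, h1⟩; exact ⟨h1, h2⟩
  rw [this]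
  exact card_image_le

lemma tr_union_left {A B Z : Finset V} : tr G (A ∪ B) Z ≤ tr G A Z + tr G B Z := by
  unfold tr
  rw [image_union]
  exact card_union_le _ _

lemma tr_le_of_label {α : Type} {A Z : Finset V} (F : Finset α) (f : V → α)
    (h1 : ∀ y ∈ A, f y ∈ F)
    (h2 : ∀ y ∈ A, ∀ y' ∈ A, f y = f y' → ∀ z ∈ Z, (G.Adj y z ↔ G.Adj y' z)) :
    tr G A Z ≤ F.card := by
  unfold tr
  apply Finset.card_le_card_of_surjOn (s := F)
    (f := fun a => if h : ∃ x ∈ A, f x = a then Z.filter (fun z => G.Adj h.choose z) else ∅)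
  intro s hs
  simp only [coe_image, Set.mem_image, mem_coe] at hs
  obtain ⟨x, hx, rfl⟩ := hs
  refine ⟨f x, h1 x hx, ?_⟩
  have h : ∃ y ∈ A, f y = f x := ⟨x, hx, rfl⟩
  simp only [h, dif_pos]
  have hs := h.choose_spec
  ext z
  simp only [mem_filter]
  constructor
  · rintro ⟨h3, h4⟩; exact ⟨h3, (h2 _ hs.1 _ hx hs.2 z h3).1 h4⟩
  · rintro ⟨h3, h4⟩; exact ⟨h3, (h2 _ hs.1 _ hx hs.2 z h3).2 h4⟩

lemma tr_union_right {A Z Z' : Finset V} : tr G A (Z ∪ Z') ≤ tr G A Z * tr G A Z' := by
  have := tr_le_of_label (G := G) (A := A) (Z := Z ∪ Z')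
    ((A.image fun y => Z.filter fun z => G.Adj y z) ×ˢ
      (A.image fun y => Z'.filter fun z => G.Adj y z))
    (fun y => (Z.filter fun z => G.Adj y z, Z'.filter fun z => G.Adj y z))
    (fun y hy => by
      rw [mem_product]
      exact ⟨mem_image_of_mem _ hy, mem_image_of_mem _ hy⟩)
    (fun y hy y' hy' he z hz => by
      simp only [Prod.mk.injEq] at he
      rcases mem_union.1 hz with h | h
      · have := congrArg (z ∈ ·) he.1
        simpa [h] using this
      · have := congrArg (z ∈ ·) he.2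
        simpa [h] using this)
  rwa [card_product] at this

lemma tr_le_pow {A Z : Finset V} : tr G A Z ≤ 2 ^ Z.card := by
  rw [← card_powerset]
  apply card_le_card
  intro s hs
  rw [mem_image] at hs
  obtain ⟨y, _, rfl⟩ := hs
  exact mem_powerset.2 (filter_subset _ _)

lemma tr_le_pow' {A Z : Finset V} {n : ℕ} (h : Z.card ≤ n) : tr G A Z ≤ 2 ^ n :=
  tr_le_pow.trans (Nat.pow_le_pow_right (by norm_num) h)

lemma tr_le_one {A Z : Finset V}
    (h : ∀ y ∈ A, ∀ y' ∈ A, ∀ z ∈ Z, (G.Adj y z ↔ G.Adj y' z)) : tr G A Z ≤ 1 := by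
  have := tr_le_of_label (G := G) (A := A) (Z := Z) ({()} : Finset Unit) (fun _ => ())
    (fun _ _ => by simp) (fun y hy y' hy' _ => h y hy y' hy')
  simpa using this

/-- traces determined by the comparison of `r y` with the values `l z`. -/
lemma tr_le_lvals {A Z : Finset V} (l r : V → ℕ) {k : ℕ} (hk : (Z.image l).card ≤ k)
    (h : ∀ y ∈ A, ∀ z ∈ Z, (G.Adj y z ↔ l z ≤ r y)) : tr G A Z ≤ k + 1 := by
  have := tr_le_of_label (G := G) (A := A) (Z := Z) (range (k + 1))
    (fun y => ((Z.image l).filter (· ≤ r y)).card)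
    (fun y _ => by
      rw [mem_range]
      have := card_filter_le (Z.image l) (· ≤ r y)
      omega)
    (fun y hy y' hy' he z hz => by
      rw [h y hy z hz, h y' hy' z hz]
      have hz' : l z ∈ Z.image l := mem_image_of_mem _ hz
      rcases le_total (r y) (r y') with h1 | h1
      · have hs : (Z.image l).filter (· ≤ r y) ⊆ (Z.image l).filter (· ≤ r y') := by
          intro a ha
          rw [mem_filter] at ha ⊢
          exact ⟨ha.1, ha.2.trans h1⟩
        have := eq_of_subset_of_card_le hs he.ge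
        have h2 := congrArg (l z ∈ ·) this
        simpa [hz'] using h2
      · have hs : (Z.image l).filter (· ≤ r y') ⊆ (Z.image l).filter (· ≤ r y) := by
          intro a ha
          rw [mem_filter] at ha ⊢
          exact ⟨ha.1, ha.2.trans h1⟩
        have := eq_of_subset_of_card_le hs he.le
        have h2 := congrArg (l z ∈ ·) this
        simpa [hz'] using h2.symm)
  simpa using this

/-- traces determined by the value `f y`. -/
lemma tr_le_rvals {A Z : Finset V} (r : V → ℕ) {k : ℕ} (hk : (A.image r).card ≤ k)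
    (h : ∀ y ∈ A, ∀ y' ∈ A, r y = r y' → ∀ z ∈ Z, (G.Adj y z ↔ G.Adj y' z)) :
    tr G A Z ≤ k :=
  (tr_le_of_label (A.image r) r (fun y hy => mem_image_of_mem _ hy) h).trans hk

lemma nt_le_tr {A : Finset V} : nt G univ A ≤ tr G A (univ \ A) := by
  unfold nt tr
  exact card_le_card (erase_subset _ _)

/-- decomposition tree or empty -/
def DT0 (G : SimpleGraph V) (K : ℕ) (A : Finset V) : Prop := A = ∅ ∨ DT G K univ A

lemma DT0.empty {K : ℕ} : DT0 G K ∅ := Or.inl rfl

lemma DT0.union {K : ℕ} {A B : Finset V} (hd : Disjoint A B) (hA : DT0 G K A) (hB : DT0 G K B)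
    (h : tr G (A ∪ B) (univ \ (A ∪ B)) ≤ K) : DT0 G K (A ∪ B) := by
  rcases hA with rfl | hA
  · rw [empty_union]; exact hB
  rcases hB with rfl | hB
  · rw [union_empty]; exact Or.inr hA
  exact Or.inr (DT.node hd hA hB (nt_le_tr.trans h))

lemma DT0.singles {K : ℕ} {A B : Finset V} (hd : Disjoint A B) (hA : DT0 G K A)
    (h : ∀ U ⊆ B, U.Nonempty → tr G (A ∪ U) (univ \ (A ∪ U)) ≤ K) : DT0 G K (A ∪ B) := by
  induction B using Finset.induction_on with
  | empty => rwa [union_empty]
  | insert a s ha ih =>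
    have hd' : Disjoint A s := disjoint_of_subset_right (subset_insert _ _) hd
    have e : A ∪ insert a s = (A ∪ s) ∪ {a} := by
      ext z; simp only [mem_union, mem_insert, mem_singleton]; tauto
    have haA : a ∉ A := fun h => (disjoint_left.1 hd) h (mem_insert_self _ _)
    rw [e]
    refine DT0.union ?_ (ih hd' fun U hU => h U (hU.trans (subset_insert _ _)))
      (Or.inr (DT.leaf a)) ?_
    · rw [disjoint_singleton_right, mem_union, not_or]
      exact ⟨haA, ha⟩
    · rw [← e]
      exact h _ (Subset.refl _) ⟨a, mem_insert_self _ _⟩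

end Pool.Agent.H73R2.Iv
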